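import Pool.Agent.Lib.MP_e029a2_pr.BX.Def

/-!
# The height spreads (job HSpread)

For real `θ` let `φ = E exp (i θ dsp l)` (`l` a run with the law `runLaw w α`), and `Φ j = ∑'_h (hz w α j h).toReal * exp (i θ h)` (complex; the real
numbers `(hz w α j h).toReal` are summable with sum 1, `hz_sum` in file G2).
(1) `φ = ∑'_k (dispP w α k).toReal * exp (i θ k)`; first step of a run (`MA.lintegral_cons` for real functions, or `runW` as a product and `tsum_run`, as
in the proof of `kap_eq`, file G1): `φ = (1 - w) + w m φ`, `m = (1+α)/2 e^{iθ} + (1-α)/2 e^{-iθ} = cos θ + i α sin θ`; or directly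
`φ = (1-w) ∑_n (w m)^n` with `|w m| ≤ w < 1`.  So `φ = (1 - w)/(1 - w m)`, `|1 - w m| ≥ Re (1 - w m) = 1 - w cos θ`, and
`|φ| ≤ (1-w)/(1 - w cos θ) = 1/(1 + w (1 - cos θ)/(1-w)) ≤ 1/(1 + w (1 - cos θ))`.
(2) `Φ (j+1) = φ Φ j` (convolution: `hz w α (j+1) h = ∑'_k dispP w α k * hz w α j (h - k)`), so `Φ j = φ^j`, and
`∑'_h (hz w α j h).toReal * cos (θ h) = Re Φ j ≤ |φ|^j ≤ 1/(1 + j w (1 - cos θ))` (Bernoulli).
(3) `θ² = 15/(w j)`, `0 < θ ≤ √5 ≤ π` as `w j ≥ 3` (from `30 d² ≤ w j`, `d ≥ 1`).  `1 - cos θ ≥ (2/π²) θ² ≥ θ²/5` (`Real.cos_quadratic_upper_bound` or the like,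
`π² ≤ 10`), so `Re Φ j ≤ 1/(1 + 3) = 1/4`.
(4) `1 - cos (θ h) ≤ 2 · 1{d ≤ |h|} + θ² d²/2` for every integer `h` (`1 - cos x ≤ x²/2`, `|h| < d`), so
`3/4 ≤ 1 - Re Φ j ≤ 2 P(d ≤ |h|) + θ² d²/2 ≤ 2 P(d ≤ |h|) + 1/4` (`θ² d²/2 = 15 d²/(2 w j) ≤ 15/60`).
Instead of complex numbers one can use the pair (`∑ cos`, `∑ sin`) and rotations.
-/

set_option autoImplicit false

namespace FDr.BX

open MeasureTheory ProbabilityTheory
open scoped ENNReal

/-- the exponential -/
private noncomputable def hspE (θ : ℝ) (h : ℤ) : ℂ := Complex.exp ((θ * h : ℝ) * Complex.I)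

private theorem hspE_norm (θ : ℝ) (h : ℤ) : ‖hspE θ h‖ = 1 := by
  unfold hspE
  exact Complex.norm_exp_ofReal_mul_I _

private theorem hspE_add (θ : ℝ) (h k : ℤ) : hspE θ (h + k) = hspE θ h * hspE θ k := by
  unfold hspE
  rw [← Complex.exp_add]
  congr 1
  push_cast
  ring

private theorem hspE_zero (θ : ℝ) : hspE θ 0 = 1 := by
  simp [hspE]

private theorem hspE_re (θ : ℝ) (h : ℤ) : (hspE θ h).re = Real.cos (θ * h) := by
  unfold hspE
  exact Complex.exp_ofReal_mul_I_re _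

private theorem hsp_ne {ι : Type} (p : ι → ℝ≥0∞) (hp : ∑' h, p h = 1) (h : ι) : p h ≠ ∞ :=
  ENNReal.ne_top_of_tsum_ne_top (by rw [hp]; exact ENNReal.one_ne_top) h

private theorem hsp_summable {ι : Type} (p : ι → ℝ≥0∞) (hp : ∑' h, p h = 1) :
    Summable (fun h => (p h).toReal) :=
  ENNReal.summable_toReal (by rw [hp]; exact ENNReal.one_ne_top)

private theorem hsp_tsum {ι : Type} (p : ι → ℝ≥0∞) (hp : ∑' h, p h = 1) :
    ∑' h, (p h).toReal = 1 := by
  rw [← ENNReal.tsum_toReal_eq (hsp_ne p hp), hp, ENNReal.toReal_one]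

private theorem hsp_norm (θ : ℝ) (p : ℤ → ℝ≥0∞) (h : ℤ) :
    ‖((p h).toReal : ℂ) * hspE θ h‖ = (p h).toReal := by
  rw [norm_mul, hspE_norm, mul_one, Complex.norm_real, Real.norm_of_nonneg ENNReal.toReal_nonneg]

private theorem hsp_csum (θ : ℝ) (p : ℤ → ℝ≥0∞) (hp : ∑' h, p h = 1) :
    Summable (fun h => ((p h).toReal : ℂ) * hspE θ h) := by
  refine Summable.of_norm ?_
  simp only [hsp_norm]
  exact hsp_summable p hp

/-- the characteristic function -/
private noncomputable def hspCh (θ : ℝ) (p : ℤ → ℝ≥0∞) : ℂ := ∑' h, ((p h).toReal : ℂ) * hspE θ h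

private theorem hsp_conv (w α : Set.Ioo (0 : ℝ) 1) (θ : ℝ) (j : ℕ) :
    hspCh θ (hz w α (j + 1)) = hspCh θ (dispP w α) * hspCh θ (hz w α j) := by
  have hA := hsp_csum θ (dispP w α) (dispP_sum w α)
  have hB := hsp_csum θ (hz w α j) (hz_sum w α j)
  have hAn : Summable fun k => ‖((dispP w α k).toReal : ℂ) * hspE θ k‖ := by
    simp only [hsp_norm]
    exact hsp_summable _ (dispP_sum w α)
  have hBn : Summable fun k => ‖((hz w α j k).toReal : ℂ) * hspE θ k‖ := by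
    simp only [hsp_norm]
    exact hsp_summable _ (hz_sum w α j)
  have hG := summable_mul_of_summable_norm hAn hBn
  let σ : ℤ × ℤ ≃ ℤ × ℤ :=
    { toFun := fun x => (x.2, x.1 - x.2)
      invFun := fun x => (x.1 + x.2, x.1)
      left_inv := fun x => by
        refine Prod.ext ?_ rfl
        change x.2 + (x.1 - x.2) = x.1
        ring
      right_inv := fun x => by
        refine Prod.ext rfl ?_
        change x.1 + x.2 - x.1 = x.2
        ring }
  have hG' : Summable fun c : ℤ × ℤ => (((dispP w α (σ c).1).toReal : ℂ) * hspE θ (σ c).1) *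
      (((hz w α j (σ c).2).toReal : ℂ) * hspE θ (σ c).2) := (σ.summable_iff).2 hG
  unfold hspCh
  rw [tsum_mul_tsum_of_summable_norm hAn hBn, ← σ.tsum_eq, hG'.tsum_prod]
  refine tsum_congr fun h => ?_
  have e1 : ∀ k : ℤ, (((dispP w α (σ (h, k)).1).toReal : ℂ) * hspE θ (σ (h, k)).1) *
      (((hz w α j (σ (h, k)).2).toReal : ℂ) * hspE θ (σ (h, k)).2) =
      (((dispP w α k * hz w α j (h - k)).toReal : ℝ) : ℂ) * hspE θ h := by
    intro k
    change (((dispP w α k).toReal : ℂ) * hspE θ k) * (((hz w α j (h - k)).toReal : ℂ) * hspE θ (h - k)) = _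
    have e2 : hspE θ h = hspE θ k * hspE θ (h - k) := by
      rw [← hspE_add]
      congr 1
      ring
    rw [e2, ENNReal.toReal_mul]
    push_cast
    ring
  rw [tsum_congr e1, tsum_mul_right]
  congr 1
  rw [← Complex.ofReal_tsum]
  congr 1
  rw [← ENNReal.tsum_toReal_eq fun k => ENNReal.mul_ne_top (hsp_ne _ (dispP_sum w α) k)
    (hsp_ne _ (hz_sum w α j) (h - k))]
  rfl

private theorem hsp_pow (w α : Set.Ioo (0 : ℝ) 1) (θ : ℝ) (j : ℕ) :
    hspCh θ (hz w α j) = hspCh θ (dispP w α) ^ j := by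
  induction j with
  | zero =>
    unfold hspCh
    rw [tsum_eq_single (0 : ℤ)]
    · simp only [hz, if_true, ENNReal.toReal_one, Complex.ofReal_one, one_mul, pow_zero, hspE_zero]
    · intro h hh
      simp only [hz, if_neg hh, ENNReal.toReal_zero, Complex.ofReal_zero, zero_mul]
  | succ j ih => rw [hsp_conv, ih, pow_succ, mul_comm]

private theorem hsp_run (a : Bool → ℂ) (hs : Summable fun l : Run => (l.map a).prod) :
    ∑' l : Run, (l.map a).prod = ∑' n : ℕ, (a true + a false) ^ n := by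
  rw [← (List.equivSigmaTuple (α := Bool)).symm.tsum_eq]
  have hs' : Summable fun c : (n : ℕ) × (Fin n → Bool) =>
      (((List.equivSigmaTuple (α := Bool)).symm c).map a).prod :=
    ((List.equivSigmaTuple (α := Bool)).symm.summable_iff).2 hs
  rw [hs'.tsum_sigma]
  refine tsum_congr fun n => ?_
  rw [tsum_fintype]
  have h1 : ∀ v : Fin n → Bool, (((List.equivSigmaTuple (α := Bool)).symm ⟨n, v⟩).map a).prod = ∏ i, a (v i) := by
    intro v
    simp only [List.equivSigmaTuple, Equiv.coe_fn_symm_mk]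
    rw [List.map_ofFn, List.prod_ofFn]
    rfl
  rw [Finset.sum_congr rfl fun v _ => h1 v]
  have h2 := (Finset.prod_univ_sum (fun _ : Fin n => (Finset.univ : Finset Bool)) (fun _ b => a b)).symm
  rw [Fintype.piFinset_univ] at h2
  rw [h2, Finset.prod_const, Finset.card_univ, Fintype.card_fin]
  congr 1
  rw [Fintype.sum_bool]

private theorem hsp_runLaw (w α : Set.Ioo (0 : ℝ) 1) (A : Set Run) :
    runLaw w α A = ∑' l : A, ENNReal.ofReal (runW w α l) := by
  have hA : MeasurableSet A := trivial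
  unfold runLaw
  rw [Measure.sum_apply _ hA, tsum_subtype A fun l => ENNReal.ofReal (runW w α l)]
  refine tsum_congr fun l => ?_
  rw [Measure.smul_apply, Measure.dirac_apply' _ hA, smul_eq_mul]
  by_cases h : l ∈ A
  · rw [Set.indicator_of_mem h, Set.indicator_of_mem h, Pi.one_apply, mul_one]
  · rw [Set.indicator_of_notMem h, Set.indicator_of_notMem h, mul_zero]

private theorem hsp_runsum (w α : Set.Ioo (0 : ℝ) 1) : Summable fun l : Run => runW w α l := by
  have h1 := hsp_runLaw w α Set.univ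
  rw [measure_univ, tsum_univ fun l => ENNReal.ofReal (runW w α l)] at h1
  have h2 := hsp_summable _ h1.symm
  refine h2.congr fun l => ?_
  rw [ENNReal.toReal_ofReal (runW_pos w.2 α.2 l).le]

private theorem hsp_dispP (w α : Set.Ioo (0 : ℝ) 1) (k : ℤ) :
    (dispP w α k).toReal = ∑' l : (dsp ⁻¹' {k} : Set Run), runW w α l := by
  have h1 := hsp_runLaw w α {l | dsp l = k}
  have h2 : dispP w α k = ∑' l : (dsp ⁻¹' {k} : Set Run), ENNReal.ofReal (runW w α l) := h1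
  rw [h2, ENNReal.tsum_toReal_eq fun l => ENNReal.ofReal_ne_top]
  refine tsum_congr fun l => ?_
  rw [ENNReal.toReal_ofReal (runW_pos w.2 α.2 l).le]

private theorem hsp_dsp_cons (b : Bool) (l : Run) : dsp (b :: l) = sg b + dsp l := by
  unfold dsp
  rw [List.map_cons, List.sum_cons]

private theorem hsp_prod (w α : Set.Ioo (0 : ℝ) 1) (θ : ℝ) (l : Run) :
    (runW w α l : ℂ) * hspE θ (dsp l) =
      (1 - (w : ℝ) : ℂ) * (l.map fun b => (bw w α b : ℂ) * hspE θ (sg b)).prod := by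
  rw [runW_eq]
  push_cast
  rw [mul_assoc]
  congr 1
  induction l with
  | nil => simp [dsp, hspE_zero]
  | cons b l ih =>
    rw [List.map_cons, List.prod_cons, List.map_cons, List.prod_cons, ← ih, hsp_dsp_cons, hspE_add]
    push_cast
    ring

private theorem hsp_phi (w α : Set.Ioo (0 : ℝ) 1) (θ : ℝ) :
    hspCh θ (dispP w α) = (1 - (w : ℝ) : ℂ) *
      ∑' n : ℕ, ((bw w α true : ℂ) * hspE θ 1 + (bw w α false : ℂ) * hspE θ (-1)) ^ n := by
  have hn : ∀ l : Run, ‖(runW w α l : ℂ) * hspE θ (dsp l)‖ = runW w α l := by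
    intro l
    rw [norm_mul, hspE_norm, mul_one, Complex.norm_real, Real.norm_of_nonneg (runW_pos w.2 α.2 l).le]
  have hs : Summable fun l : Run => (runW w α l : ℂ) * hspE θ (dsp l) := by
    refine Summable.of_norm ?_
    simp only [hn]
    exact hsp_runsum w α
  have h1 := (hs.hasSum.tsum_fiberwise dsp).tsum_eq
  have h2 : ∀ k : ℤ, ∑' l : (dsp ⁻¹' {k} : Set Run), (runW w α l : ℂ) * hspE θ (dsp l) =
      ((dispP w α k).toReal : ℂ) * hspE θ k := by
    intro k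
    rw [hsp_dispP, Complex.ofReal_tsum, ← tsum_mul_right]
    refine tsum_congr fun l => ?_
    rw [show dsp (l : Run) = k from l.2]
  rw [tsum_congr h2] at h1
  unfold hspCh
  rw [h1, tsum_congr (hsp_prod w α θ), tsum_mul_left]
  congr 1
  have hw : (1 - (w : ℝ) : ℂ) ≠ 0 := by
    have h3 : (1 - (w : ℝ) : ℝ) ≠ 0 := by
      have := w.2.2
      linarith
    exact_mod_cast h3
  have hs2 : Summable fun l : Run => (l.map fun b => (bw w α b : ℂ) * hspE θ (sg b)).prod := by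
    have h4 : Summable fun l : Run =>
        (1 - (w : ℝ) : ℂ) * (l.map fun b => (bw w α b : ℂ) * hspE θ (sg b)).prod :=
      hs.congr fun l => (hsp_prod w α θ l)
    exact (summable_mul_left_iff hw).1 h4
  rw [hsp_run _ hs2]
  rfl

private theorem hsp_bound (w α : Set.Ioo (0 : ℝ) 1) (θ : ℝ) :
    ‖hspCh θ (dispP w α)‖ ≤ (1 + w * (1 - Real.cos θ))⁻¹ := by
  have hw0 := w.2.1
  have hw1 := w.2.2
  set m : ℂ := (bw w α true : ℂ) * hspE θ 1 + (bw w α false : ℂ) * hspE θ (-1) with hm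
  have hmn : ‖m‖ ≤ w := by
    refine (norm_add_le _ _).trans ?_
    rw [norm_mul, norm_mul, hspE_norm, hspE_norm, mul_one, mul_one, Complex.norm_real, Complex.norm_real,
      Real.norm_of_nonneg (bw_pos w.2 α.2 _).le, Real.norm_of_nonneg (bw_pos w.2 α.2 _).le, bw_sum]
  have hre : m.re = w * Real.cos θ := by
    rw [hm, Complex.add_re, Complex.re_ofReal_mul, Complex.re_ofReal_mul, hspE_re, hspE_re]
    push_cast
    rw [mul_one, mul_neg, mul_one, Real.cos_neg, ← add_mul, bw_sum]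
  rw [hsp_phi, ← hm, tsum_geometric_of_norm_lt_one (lt_of_le_of_lt hmn hw1), norm_mul, norm_inv]
  have hc := Real.cos_le_one θ
  have hc' := Real.neg_one_le_cos θ
  have hpos : 0 < 1 - (w : ℝ) * Real.cos θ := by
    nlinarith
  have h1 : 1 - (w : ℝ) * Real.cos θ ≤ ‖1 - m‖ := by
    refine le_trans ?_ (Complex.re_le_norm _)
    rw [Complex.sub_re, Complex.one_re, hre]
  have h2 : ‖(1 - (w : ℝ) : ℂ)‖ = 1 - (w : ℝ) := by
    have h3 : ((1 - (w : ℝ) : ℝ) : ℂ) = (1 - (w : ℝ) : ℂ) := by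
      push_cast
      rfl
    rw [← h3, Complex.norm_real, Real.norm_of_nonneg (by linarith)]
  rw [h2]
  have h4 : (‖1 - m‖)⁻¹ ≤ (1 - (w : ℝ) * Real.cos θ)⁻¹ := inv_anti₀ hpos h1
  refine (mul_le_mul_of_nonneg_left h4 (by linarith)).trans ?_
  rw [← div_eq_mul_inv, div_le_iff₀ hpos, ← div_eq_inv_mul, le_div_iff₀ (by nlinarith)]
  nlinarith [mul_nonneg (mul_nonneg hw0.le hw0.le) (sub_nonneg.2 hc)]

theorem h_spread (w α : Set.Ioo (0 : ℝ) 1) (j d : ℕ) (hd : 1 ≤ d) (hj : 30 * (d : ℝ) ^ 2 ≤ (w : ℝ) * j) :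
    ENNReal.ofReal (1 / 4) ≤ PH w α j {h | (d : ℤ) ≤ |h|} := by
  have hw0 := w.2.1
  have hd1 : (1 : ℝ) ≤ d := by exact_mod_cast hd
  have hwj : 30 ≤ (w : ℝ) * j := by nlinarith
  have hwj0 : 0 < (w : ℝ) * j := by linarith
  obtain ⟨θ, hθ0, hθ⟩ : ∃ θ : ℝ, 0 ≤ θ ∧ θ ^ 2 = 15 / (w * j) :=
    ⟨Real.sqrt (15 / (w * j)), Real.sqrt_nonneg _, Real.sq_sqrt (by positivity)⟩
  have hθ2 : θ ^ 2 * (w * j) = 15 := by
    rw [hθ, div_mul_cancel₀ _ hwj0.ne']
  have hθh : θ ^ 2 ≤ 1 / 2 := by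
    rw [hθ, div_le_div_iff₀ hwj0 (by norm_num)]
    linarith
  have hθ1 : |θ| ≤ 1 := by
    rw [abs_of_nonneg hθ0]
    nlinarith
  have hcos : θ ^ 2 / 5 ≤ 1 - Real.cos θ := by
    have h1 := abs_le.1 (Real.cos_bound hθ1)
    have h2 : |θ| ^ 4 = θ ^ 2 * θ ^ 2 := by
      rw [abs_of_nonneg hθ0]
      ring
    rw [h2] at h1
    nlinarith [h1.2, sq_nonneg θ, mul_nonneg (sq_nonneg θ) (sub_nonneg.2 hθh)]
  -- the real part of the characteristic function is small
  have hre : ∑' h : ℤ, (hz w α j h).toReal * Real.cos (θ * h) ≤ 1 / 4 := by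
    have h1 : (hspCh θ (hz w α j)).re = ∑' h : ℤ, (hz w α j h).toReal * Real.cos (θ * h) := by
      unfold hspCh
      rw [Complex.re_tsum (hsp_csum θ _ (hz_sum w α j))]
      refine tsum_congr fun h => ?_
      rw [Complex.re_ofReal_mul, hspE_re]
    rw [← h1]
    refine (Complex.re_le_norm _).trans ?_
    rw [hsp_pow, norm_pow]
    have hx : 0 ≤ (w : ℝ) * (1 - Real.cos θ) := mul_nonneg hw0.le (by linarith [Real.cos_le_one θ])
    have h2 : ‖hspCh θ (dispP w α)‖ ^ j ≤ ((1 + w * (1 - Real.cos θ))⁻¹) ^ j :=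
      pow_le_pow_left₀ (norm_nonneg _) (hsp_bound w α θ) j
    refine h2.trans ?_
    rw [inv_pow]
    have h3 : 1 + (j : ℝ) * (w * (1 - Real.cos θ)) ≤ (1 + w * (1 - Real.cos θ)) ^ j :=
      one_add_mul_le_pow (by linarith) j
    have h4 : 4 ≤ 1 + (j : ℝ) * (w * (1 - Real.cos θ)) := by
      have h5 : (w : ℝ) * j * (θ ^ 2 / 5) ≤ (w : ℝ) * j * (1 - Real.cos θ) :=
        mul_le_mul_of_nonneg_left hcos hwj0.le
      nlinarith
    rw [one_div]
    exact inv_anti₀ (by norm_num) (h4.trans h3)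
  have hs := hsp_summable _ (hz_sum w α j)
  have hsc : Summable fun h : ℤ => (hz w α j h).toReal * Real.cos (θ * h) := by
    refine Summable.of_norm_bounded hs fun h => ?_
    rw [norm_mul, Real.norm_of_nonneg ENNReal.toReal_nonneg]
    calc (hz w α j h).toReal * ‖Real.cos (θ * h)‖ ≤ (hz w α j h).toReal * 1 :=
          mul_le_mul_of_nonneg_left (Real.abs_cos_le_one _) ENNReal.toReal_nonneg
      _ = _ := mul_one _
  have hne : PH w α j {h | (d : ℤ) ≤ |h|} ≠ ∞ := by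
    unfold PH
    refine ne_of_lt (lt_of_le_of_lt (ENNReal.tsum_le_tsum fun h => Set.indicator_le_self _ _ h) ?_)
    rw [hz_sum]
    exact ENNReal.one_lt_top
  have hI : ∀ h : ℤ, ({h : ℤ | (d : ℤ) ≤ |h|}.indicator (hz w α j) h) ≠ ∞ := fun h =>
    ne_top_of_le_ne_top (hsp_ne _ (hz_sum w α j) h) (Set.indicator_le_self _ _ h)
  have hPH : (PH w α j {h | (d : ℤ) ≤ |h|}).toReal =
      ∑' h : ℤ, ({h : ℤ | (d : ℤ) ≤ |h|}.indicator (hz w α j) h).toReal := by
    unfold PH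
    rw [ENNReal.tsum_toReal_eq hI]
  have hIs : Summable fun h : ℤ => ({h : ℤ | (d : ℤ) ≤ |h|}.indicator (hz w α j) h).toReal :=
    ENNReal.summable_toReal hne
  have hmain : ∑' h : ℤ, ((hz w α j h).toReal - (hz w α j h).toReal * Real.cos (θ * h)) ≤
      ∑' h : ℤ, (2 * ({h : ℤ | (d : ℤ) ≤ |h|}.indicator (hz w α j) h).toReal +
        (hz w α j h).toReal * (θ ^ 2 * d ^ 2 / 2)) := by
    refine (hs.sub hsc).tsum_le_tsum (fun h => ?_) ((hIs.mul_left 2).add (hs.mul_right _))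
    have hp : 0 ≤ (hz w α j h).toReal := ENNReal.toReal_nonneg
    by_cases hh : (d : ℤ) ≤ |h|
    · rw [Set.indicator_of_mem (show h ∈ {h : ℤ | (d : ℤ) ≤ |h|} from hh)]
      have h1 := Real.neg_one_le_cos (θ * h)
      have h2 : 0 ≤ (hz w α j h).toReal * (θ ^ 2 * d ^ 2 / 2) := by positivity
      nlinarith
    · rw [Set.indicator_of_notMem (show h ∉ {h : ℤ | (d : ℤ) ≤ |h|} from hh), ENNReal.toReal_zero, mul_zero,
        zero_add]
      have h1 := Real.one_sub_sq_div_two_le_cos (x := θ * h)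
      have h2 : ((|h| : ℤ) : ℝ) ≤ d := by
        have h3 : |h| ≤ (d : ℤ) := by omega
        exact_mod_cast h3
      have h3 : (h : ℝ) ^ 2 ≤ (d : ℝ) ^ 2 := by
        rw [← sq_abs (h : ℝ), ← Int.cast_abs]
        exact pow_le_pow_left₀ (by exact_mod_cast abs_nonneg h) h2 2
      have h4 : 1 - Real.cos (θ * h) ≤ θ ^ 2 * d ^ 2 / 2 := by
        have h5 : θ ^ 2 * (h : ℝ) ^ 2 ≤ θ ^ 2 * (d : ℝ) ^ 2 := mul_le_mul_of_nonneg_left h3 (sq_nonneg θ)
        have h6 : (θ * (h : ℝ)) ^ 2 = θ ^ 2 * (h : ℝ) ^ 2 := by ring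
        rw [h6] at h1
        linarith
      nlinarith [mul_le_mul_of_nonneg_left h4 hp]
  rw [hs.tsum_sub hsc, (hIs.mul_left 2).tsum_add (hs.mul_right _), tsum_mul_left, tsum_mul_right,
    hsp_tsum _ (hz_sum w α j), ← hPH] at hmain
  rw [ENNReal.ofReal_le_iff_le_toReal hne]
  have hlast : θ ^ 2 * (d : ℝ) ^ 2 / 2 ≤ 1 / 4 := by
    have h1 : θ ^ 2 * (30 * (d : ℝ) ^ 2) ≤ θ ^ 2 * (w * j) := mul_le_mul_of_nonneg_left hj (sq_nonneg θ)
    rw [hθ2] at h1
    linarith
  linarith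

end FDr.BX
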