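import Pool.Agent.Lib.MP_e029a2_pr.BX.Def
import Pool.Agent.Lib.MP_e029a2_pr.G2

/-!
# The height does not go far (job HTail)

`θ = 4/R`.  `hz_gen` (file G2): `∑'_h hz w α j h * ofReal (s^h) = kap w α s ^ j` for `s > 0` (real `s`, integer powers; look at the exact form);
`kap_eq` (file G1): for `s > 0` with `w f(s) < 1`, `f(s) = (1+α)/2 s + (1-α)/2 s⁻¹`: `kap w α s = ofReal ((1 - w)/(1 - w f(s)))` (look at the exact form).
For `s = exp (± θ)`: `f(s) - 1 = (cosh θ - 1) ± α sinh θ ≤ θ² + 2 α θ =: g` (`0 < θ ≤ 1`: `cosh θ - 1 ≤ θ²`, `sinh θ ≤ 2 θ`, e.g. from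
`Real.cosh_le_exp_half_sq`/`exp` bounds, `Real.exp_bound`, or `Real.abs_exp_sub_one_sub_id_le : |x| ≤ 1 → |exp x - 1 - x| ≤ x²`).
`θ ≤ 1` and `w g/(1-w) ≤ g/ε ≤ 24/(ε R²) ≤ 1/2` by `48 ≤ ε R²` (`α R ≤ 1` gives `2 α θ ≤ 8/R²`).  So
`kap ≤ 1/(1 - w g/(1-w)) ≤ exp (2 w g/(1-w)) ≤ exp (2 w g/ε)` (`1/(1-x) ≤ exp (2x)` for `0 ≤ x ≤ 1/2`), and
`j · 2 w g/ε ≤ 2 · (R²/64) (16/R² + 8/R²) = 3/4 ≤ 1` by `64 w j ≤ ε R²`.  Chernoff: `1{R < |h|} ≤ exp (-4) (exp (θ h) + exp (-θ h))` (`θ R = 4`), so the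
probability is `≤ exp (-4) · 2 · exp 1 = 2 exp (-3) ≤ 1/8` (`exp 3 ≥ 16`, `Real.exp_one_gt_d9`).
-/

set_option autoImplicit false

namespace FDr.BX

open MeasureTheory ProbabilityTheory
open scoped ENNReal

private theorem HTail_exp {x : ℝ} (h0 : 0 ≤ x) (h1 : x ≤ 1 / 2) : 1 / (1 - x) ≤ Real.exp (2 * x) := by
  have h2 : 0 < 1 - x := by linarith
  rw [div_le_iff₀ h2]
  have h3 := Real.add_one_le_exp (2 * x)
  nlinarith

private theorem HTail_zpow (θ : ℝ) (h : ℤ) : Real.exp θ ^ h = Real.exp ((h : ℝ) * θ) := by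
  rw [← Real.rpow_intCast, ← Real.exp_mul, mul_comm]

private theorem HTail_kap (w α : Set.Ioo (0 : ℝ) 1) {ε : ℝ} (hε : 0 < ε) (hw : (w : ℝ) ≤ 1 - ε)
    (j R : ℕ) (hR : 48 ≤ ε * (R : ℝ) ^ 2) (hj : 64 * (w : ℝ) * j ≤ ε * (R : ℝ) ^ 2) {s : ℝ} (hs : 0 < s)
    (hf : (1 + (α : ℝ)) / 2 * s + (1 - (α : ℝ)) / 2 * s⁻¹ ≤ 1 + 20 / (R : ℝ) ^ 2) :
    kap w α s ^ j ≤ ENNReal.ofReal (Real.exp 1) := by
  have hw0 := w.2.1
  have hR2 : 0 < (R : ℝ) ^ 2 := by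
    by_contra hcon
    have h1 : (R : ℝ) ^ 2 ≤ 0 := not_lt.1 hcon
    nlinarith
  have hw1 : 0 < 1 - (w : ℝ) := by linarith
  obtain ⟨x, hx⟩ : ∃ x : ℝ, x = (w : ℝ) * (20 / (R : ℝ) ^ 2) / ε := ⟨_, rfl⟩
  have hx0 : 0 ≤ x := by
    rw [hx]
    positivity
  have hx1 : x ≤ 1 / 2 := by
    have h1 : x = (w : ℝ) * (20 / (ε * (R : ℝ) ^ 2)) := by
      rw [hx]
      field_simp
    have h2 : 20 / (ε * (R : ℝ) ^ 2) ≤ 1 / 2 := by
      rw [div_le_div_iff₀ (by positivity) (by norm_num)]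
      linarith
    have h3 : (w : ℝ) * (20 / (ε * (R : ℝ) ^ 2)) ≤ 1 * (1 / 2) := by
      refine mul_le_mul (by linarith) h2 (by positivity) (by norm_num)
    rw [h1]
    linarith
  have hxw : (w : ℝ) * (20 / (R : ℝ) ^ 2) ≤ x * (1 - w) := by
    have h1 : (w : ℝ) * (20 / (R : ℝ) ^ 2) = x * ε := by
      rw [hx]
      field_simp
    rw [h1]
    exact mul_le_mul_of_nonneg_left (by linarith) hx0
  have hF : bw w α true * s + bw w α false * s⁻¹ =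
      (w : ℝ) * ((1 + (α : ℝ)) / 2 * s + (1 - (α : ℝ)) / 2 * s⁻¹) := by
    unfold bw
    rw [if_pos rfl, if_neg (by decide)]
    ring
  have hF1 : bw w α true * s + bw w α false * s⁻¹ ≤ w + x * (1 - w) := by
    rw [hF]
    have h1 := mul_le_mul_of_nonneg_left hf hw0.le
    nlinarith
  have hd : (1 - (w : ℝ)) * (1 - x) ≤ 1 - (bw w α true * s + bw w α false * s⁻¹) := by nlinarith
  have hd0 : 0 < (1 - (w : ℝ)) * (1 - x) := mul_pos hw1 (by linarith)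
  rw [kap_eq w α s hs (by linarith)]
  have h1 : (1 - (w : ℝ)) / (1 - (bw w α true * s + bw w α false * s⁻¹)) ≤ Real.exp (2 * x) := by
    refine le_trans ?_ (HTail_exp hx0 hx1)
    have h2 : 1 / (1 - x) = (1 - (w : ℝ)) / ((1 - (w : ℝ)) * (1 - x)) := by
      rw [div_eq_div_iff (by linarith) hd0.ne']
      ring
    rw [h2]
    exact div_le_div_of_nonneg_left hw1.le hd0 hd
  have h2 : ENNReal.ofReal ((1 - (w : ℝ)) / (1 - (bw w α true * s + bw w α false * s⁻¹))) ^ j ≤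
      ENNReal.ofReal (Real.exp (2 * x)) ^ j := by
    gcongr
  refine h2.trans ?_
  rw [← ENNReal.ofReal_pow (Real.exp_pos _).le, ← Real.exp_nat_mul]
  refine ENNReal.ofReal_le_ofReal (Real.exp_le_exp.2 ?_)
  have h3 : (j : ℝ) * (2 * x) = 40 * ((w : ℝ) * j) / (ε * (R : ℝ) ^ 2) := by
    rw [hx]
    field_simp
    ring
  rw [h3, div_le_one (by positivity)]
  nlinarith

theorem h_tail (w α : Set.Ioo (0 : ℝ) 1) {ε : ℝ} (hε : 0 < ε) (hε1 : ε ≤ 1) (hw : (w : ℝ) ≤ 1 - ε) (j R : ℕ)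
    (hR : 48 ≤ ε * (R : ℝ) ^ 2) (hα : (α : ℝ) * R ≤ 1) (hj : 64 * (w : ℝ) * j ≤ ε * (R : ℝ) ^ 2) :
    PH w α j {h | (R : ℤ) < |h|} ≤ ENNReal.ofReal (1 / 8) := by
  have hα0 := α.2.1
  have hR4 : (4 : ℝ) < R := by
    by_contra hcon
    have h1 : (R : ℝ) ≤ 4 := not_lt.1 hcon
    have h2 : (0 : ℝ) ≤ R := Nat.cast_nonneg _
    have h3 : (R : ℝ) ^ 2 ≤ 16 := by nlinarith
    nlinarith
  have hR0 : (0 : ℝ) < R := by linarith
  obtain ⟨θ, hθ⟩ : ∃ θ : ℝ, θ = 4 / (R : ℝ) := ⟨_, rfl⟩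
  have hθ0 : 0 < θ := by
    rw [hθ]
    positivity
  have hθ1 : θ ≤ 1 := by
    rw [hθ, div_le_one hR0]
    exact hR4.le
  have hθR : θ * R = 4 := by
    rw [hθ]
    field_simp
  have hθ2 : θ ^ 2 = 16 / (R : ℝ) ^ 2 := by
    rw [hθ, div_pow]
    norm_num
  have hαθ : (α : ℝ) * θ ≤ 4 / (R : ℝ) ^ 2 := by
    rw [hθ, le_div_iff₀ (by positivity)]
    have h1 : (α : ℝ) * (4 / (R : ℝ)) * (R : ℝ) ^ 2 = 4 * ((α : ℝ) * R) := by
      field_simp
    rw [h1]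
    linarith
  have hg : θ ^ 2 + (α : ℝ) * θ ≤ 20 / (R : ℝ) ^ 2 := by
    have h1 : 20 / (R : ℝ) ^ 2 = 16 / (R : ℝ) ^ 2 + 4 / (R : ℝ) ^ 2 := by ring
    rw [h1, ← hθ2]
    linarith
  have hαθ0 : 0 ≤ (α : ℝ) * θ := by positivity
  have e1 : Real.exp θ ≤ 1 + θ + θ ^ 2 := by
    have h1 := Real.abs_exp_sub_one_sub_id_le (x := θ) (by rw [abs_of_pos hθ0]; exact hθ1)
    have h2 := (abs_le.1 h1).2
    linarith
  have e2 : Real.exp (-θ) ≤ 1 - θ + θ ^ 2 := by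
    have h1 := Real.abs_exp_sub_one_sub_id_le (x := -θ) (by rw [abs_neg, abs_of_pos hθ0]; exact hθ1)
    have h2 := (abs_le.1 h1).2
    have h3 : (-θ) ^ 2 = θ ^ 2 := by ring
    linarith
  have hα1 : 0 ≤ (1 - (α : ℝ)) / 2 := by linarith [α.2.2]
  have hα2 : 0 ≤ (1 + (α : ℝ)) / 2 := by linarith
  have k1 : kap w α (Real.exp θ) ^ j ≤ ENNReal.ofReal (Real.exp 1) := by
    refine HTail_kap w α hε hw j R hR hj (Real.exp_pos _) ?_
    rw [← Real.exp_neg]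
    have h1 := mul_le_mul_of_nonneg_left e1 hα2
    have h2 := mul_le_mul_of_nonneg_left e2 hα1
    have h3 : (1 + (α : ℝ)) / 2 * (1 + θ + θ ^ 2) + (1 - (α : ℝ)) / 2 * (1 - θ + θ ^ 2) =
        1 + (θ ^ 2 + α * θ) := by ring
    linarith
  have k2 : kap w α (Real.exp (-θ)) ^ j ≤ ENNReal.ofReal (Real.exp 1) := by
    refine HTail_kap w α hε hw j R hR hj (Real.exp_pos _) ?_
    rw [← Real.exp_neg, neg_neg]
    have h1 := mul_le_mul_of_nonneg_left e2 hα2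
    have h2 := mul_le_mul_of_nonneg_left e1 hα1
    have h3 : (1 + (α : ℝ)) / 2 * (1 - θ + θ ^ 2) + (1 - (α : ℝ)) / 2 * (1 + θ + θ ^ 2) =
        1 + (θ ^ 2 - α * θ) := by ring
    linarith
  have hpt : ∀ h : ℤ, ({h | (R : ℤ) < |h|} : Set ℤ).indicator (hz w α j) h ≤
      ENNReal.ofReal (Real.exp (-4)) * (hz w α j h * ENNReal.ofReal (Real.exp θ ^ h) +
        hz w α j h * ENNReal.ofReal (Real.exp (-θ) ^ h)) := by
    intro h
    by_cases hh : (R : ℤ) < |h|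
    · rw [Set.indicator_of_mem (show h ∈ ({h | (R : ℤ) < |h|} : Set ℤ) from hh), ← mul_add, mul_left_comm]
      have h1 : (1 : ℝ≥0∞) ≤ ENNReal.ofReal (Real.exp (-4)) *
          (ENNReal.ofReal (Real.exp θ ^ h) + ENNReal.ofReal (Real.exp (-θ) ^ h)) := by
        rw [← ENNReal.ofReal_add (zpow_pos (Real.exp_pos _) _).le (zpow_pos (Real.exp_pos _) _).le,
          ← ENNReal.ofReal_mul (Real.exp_pos _).le, ← ENNReal.ofReal_one]
        refine ENNReal.ofReal_le_ofReal ?_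
        rw [HTail_zpow, HTail_zpow, mul_add, ← Real.exp_add, ← Real.exp_add]
        rcases le_total 0 h with h0 | h0
        · rw [abs_of_nonneg h0] at hh
          have h2 : (R : ℝ) ≤ (h : ℝ) := by exact_mod_cast hh.le
          have h3 : (0 : ℝ) ≤ -4 + (h : ℝ) * θ := by nlinarith
          have h4 := Real.one_le_exp h3
          have h5 := Real.exp_pos (-4 + (h : ℝ) * -θ)
          linarith
        · rw [abs_of_nonpos h0] at hh
          have h2 : (R : ℝ) ≤ -(h : ℝ) := by exact_mod_cast hh.le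
          have h3 : (0 : ℝ) ≤ -4 + (h : ℝ) * -θ := by nlinarith
          have h4 := Real.one_le_exp h3
          have h5 := Real.exp_pos (-4 + (h : ℝ) * θ)
          linarith
      calc hz w α j h = hz w α j h * 1 := (mul_one _).symm
        _ ≤ _ := by gcongr
    · rw [Set.indicator_of_notMem (show h ∉ ({h | (R : ℤ) < |h|} : Set ℤ) from hh)]
      exact bot_le
  unfold PH
  refine (ENNReal.tsum_le_tsum hpt).trans ?_
  rw [ENNReal.tsum_mul_left, ENNReal.tsum_add, hz_gen w α _ (Real.exp_pos _), hz_gen w α _ (Real.exp_pos _)]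
  have h1 : ENNReal.ofReal (Real.exp (-4)) * (kap w α (Real.exp θ) ^ j + kap w α (Real.exp (-θ)) ^ j) ≤
      ENNReal.ofReal (Real.exp (-4)) * (ENNReal.ofReal (Real.exp 1) + ENNReal.ofReal (Real.exp 1)) := by
    gcongr
  refine h1.trans ?_
  rw [← ENNReal.ofReal_add (Real.exp_pos _).le (Real.exp_pos _).le, ← ENNReal.ofReal_mul (Real.exp_pos _).le]
  refine ENNReal.ofReal_le_ofReal ?_
  have h2 : Real.exp (-4) * (Real.exp 1 + Real.exp 1) = 2 * Real.exp (-3) := by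
    have h3 : Real.exp (-3) = Real.exp (-4) * Real.exp 1 := by
      rw [← Real.exp_add]
      norm_num
    rw [h3]
    ring
  rw [h2, Real.exp_neg]
  have h3 : (16 : ℝ) ≤ Real.exp 3 := by
    have h4 : Real.exp 3 = Real.exp 1 ^ 3 := by
      rw [← Real.exp_nat_mul]
      norm_num
    rw [h4]
    have h5 := Real.exp_one_gt_d9
    have h6 : (2.7 : ℝ) ^ 3 ≤ Real.exp 1 ^ 3 := pow_le_pow_left₀ (by norm_num) (by linarith) 3
    norm_num at h6 ⊢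
    linarith
  have h4 : (Real.exp 3)⁻¹ ≤ 1 / 16 := by
    rw [← one_div]
    exact one_div_le_one_div_of_le (by norm_num) h3
  linarith

end FDr.BX
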