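import Pool.Agent.Lib.MP_e029a2_pr.BX.HFlip
import Pool.Agent.Lib.MP_e029a2_pr.BX.HTail
import Pool.Agent.Lib.MP_e029a2_pr.BX.HSpread

/-!
# One step of the height, with a given sign (job HOne)

`P(d ≤ |h|) ≥ 1/4` (`h_spread`), `P(R < |h|) ≤ 1/8` (`h_tail`; `4 α R ≤ 1` gives `α R ≤ 1`), so `P(d ≤ |h| ≤ R) ≥ 1/8`; this is `p₊ + p₋` with
`p₊ = P(d ≤ h ≤ R)`, `p₋ = P(d ≤ -h ≤ R)` (`d ≥ 1`).  `p₋ ≤ p₊` (`hz_flip_le`) and `p₊ ≤ 2 p₋` (`hz_flip_ge`) (`(Equiv.neg ℤ).tsum_eq`), so both are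
`≥ 1/24 ≥ 1/32`.  `sg true = 1`, `sg false = -1`.
-/

set_option autoImplicit false

namespace FDr.BX

open MeasureTheory ProbabilityTheory
open scoped ENNReal

private theorem HOne_mem (d R : ℕ) (h : ℤ) :
    (-h ∈ {h : ℤ | (d : ℤ) ≤ sg false * h ∧ sg false * h ≤ R}) ↔
      h ∈ {h : ℤ | (d : ℤ) ≤ sg true * h ∧ sg true * h ≤ R} := by
  simp only [Set.mem_ofPred_eq, sg, Bool.false_eq_true, if_false, if_true, neg_mul, one_mul, neg_neg]

private theorem HOne_neg (w α : Set.Ioo (0 : ℝ) 1) (j d R : ℕ) :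
    PH w α j {h | (d : ℤ) ≤ sg false * h ∧ sg false * h ≤ R} =
      ∑' h : ℤ, {h : ℤ | (d : ℤ) ≤ sg true * h ∧ sg true * h ≤ R}.indicator (fun h => hz w α j (-h)) h := by
  unfold PH
  rw [← (Equiv.neg ℤ).tsum_eq]
  refine tsum_congr fun h => ?_
  show ({h : ℤ | (d : ℤ) ≤ sg false * h ∧ sg false * h ≤ R}.indicator (hz w α j) (-h)) = _
  by_cases hm : h ∈ {h : ℤ | (d : ℤ) ≤ sg true * h ∧ sg true * h ≤ R}
  · rw [Set.indicator_of_mem hm, Set.indicator_of_mem ((HOne_mem d R h).2 hm)]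
  · rw [Set.indicator_of_notMem hm, Set.indicator_of_notMem fun h' => hm ((HOne_mem d R h).1 h')]

private theorem HOne_le (w α : Set.Ioo (0 : ℝ) 1) (j d R : ℕ) :
    PH w α j {h | (d : ℤ) ≤ sg false * h ∧ sg false * h ≤ R} ≤
      PH w α j {h | (d : ℤ) ≤ sg true * h ∧ sg true * h ≤ R} := by
  rw [HOne_neg]
  unfold PH
  refine ENNReal.tsum_le_tsum fun h => ?_
  by_cases hm : h ∈ {h : ℤ | (d : ℤ) ≤ sg true * h ∧ sg true * h ≤ R}
  · rw [Set.indicator_of_mem hm, Set.indicator_of_mem hm]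
    refine hz_flip_le w α j h ?_
    have h1 : (d : ℤ) ≤ sg true * h := hm.1
    simp only [sg, if_true, one_mul] at h1
    omega
  · rw [Set.indicator_of_notMem hm, Set.indicator_of_notMem hm]

private theorem HOne_ge (w α : Set.Ioo (0 : ℝ) 1) (j d R : ℕ) (hα : 4 * (α : ℝ) * R ≤ 1) :
    PH w α j {h | (d : ℤ) ≤ sg true * h ∧ sg true * h ≤ R} ≤
      2 * PH w α j {h | (d : ℤ) ≤ sg false * h ∧ sg false * h ≤ R} := by
  rw [HOne_neg, ← ENNReal.tsum_mul_left]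
  unfold PH
  refine ENNReal.tsum_le_tsum fun h => ?_
  by_cases hm : h ∈ {h : ℤ | (d : ℤ) ≤ sg true * h ∧ sg true * h ≤ R}
  · rw [Set.indicator_of_mem hm, Set.indicator_of_mem hm]
    have h1 : (d : ℤ) ≤ sg true * h := hm.1
    have h2 : sg true * h ≤ (R : ℤ) := hm.2
    simp only [sg, if_true, one_mul] at h1 h2
    exact hz_flip_ge w α j h (by omega) R h2 hα
  · rw [Set.indicator_of_notMem hm, Set.indicator_of_notMem hm]
    exact zero_le

private theorem HOne_cover (w α : Set.Ioo (0 : ℝ) 1) (j d R : ℕ) :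
    PH w α j {h | (d : ℤ) ≤ |h|} ≤ PH w α j {h | (d : ℤ) ≤ sg true * h ∧ sg true * h ≤ R} +
      PH w α j {h | (d : ℤ) ≤ sg false * h ∧ sg false * h ≤ R} + PH w α j {h | (R : ℤ) < |h|} := by
  unfold PH
  rw [← ENNReal.tsum_add, ← ENNReal.tsum_add]
  refine ENNReal.tsum_le_tsum fun h => ?_
  by_cases h0 : h ∈ {h : ℤ | (d : ℤ) ≤ |h|}
  · rw [Set.indicator_of_mem h0]
    have h1 : (d : ℤ) ≤ |h| := h0
    by_cases hR : h ∈ {h : ℤ | (R : ℤ) < |h|}
    · rw [Set.indicator_of_mem hR]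
      exact le_add_self
    have h2 : |h| ≤ (R : ℤ) := not_lt.1 hR
    rcases le_total 0 h with h3 | h3
    · have hm : h ∈ {h : ℤ | (d : ℤ) ≤ sg true * h ∧ sg true * h ≤ R} := by
        rw [abs_of_nonneg h3] at h1 h2
        simp only [Set.mem_ofPred_eq, sg, if_true, one_mul]
        exact ⟨h1, h2⟩
      rw [Set.indicator_of_mem hm, add_assoc]
      exact le_self_add
    · have hm : h ∈ {h : ℤ | (d : ℤ) ≤ sg false * h ∧ sg false * h ≤ R} := by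
        rw [abs_of_nonpos h3] at h1 h2
        simp only [Set.mem_ofPred_eq, sg, Bool.false_eq_true, if_false, neg_mul, one_mul]
        exact ⟨h1, h2⟩
      rw [Set.indicator_of_mem hm, add_assoc]
      exact (le_self_add).trans le_add_self
  · rw [Set.indicator_of_notMem h0]
    exact zero_le

private theorem HOne_third {p : ℝ≥0∞} (h : ENNReal.ofReal (1 / 8) ≤ 3 * p) : ENNReal.ofReal (1 / 32) ≤ p := by
  have h3 : ENNReal.ofReal (1 / 3) * 3 = 1 := by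
    have h4 : (3 : ℝ≥0∞) = ENNReal.ofReal 3 := by
      rw [ENNReal.ofReal_ofNat]
    rw [h4, ← ENNReal.ofReal_mul (by norm_num)]
    norm_num
  calc ENNReal.ofReal (1 / 32) ≤ ENNReal.ofReal (1 / 3) * ENNReal.ofReal (1 / 8) := by
        rw [← ENNReal.ofReal_mul (by norm_num)]
        exact ENNReal.ofReal_le_ofReal (by norm_num)
    _ ≤ ENNReal.ofReal (1 / 3) * (3 * p) := mul_le_mul_right h _
    _ = p := by rw [← mul_assoc, h3, one_mul]

theorem h_one (w α : Set.Ioo (0 : ℝ) 1) {ε : ℝ} (hε : 0 < ε) (hε1 : ε ≤ 1) (hw : (w : ℝ) ≤ 1 - ε) (j d R : ℕ) (hd : 1 ≤ d)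
    (hR : 48 ≤ ε * (R : ℝ) ^ 2) (hα : 4 * (α : ℝ) * R ≤ 1) (hj : 64 * (w : ℝ) * j ≤ ε * (R : ℝ) ^ 2)
    (hj2 : 30 * (d : ℝ) ^ 2 ≤ (w : ℝ) * j) (b : Bool) :
    ENNReal.ofReal (1 / 32) ≤ PH w α j {h | (d : ℤ) ≤ sg b * h ∧ sg b * h ≤ R} := by
  have h1 := h_spread w α j d hd hj2
  have h0 : 0 ≤ (α : ℝ) * R := mul_nonneg α.2.1.le (Nat.cast_nonneg R)
  have h2 := h_tail w α hε hε1 hw j R hR (by linarith) hj
  have h3 := HOne_cover w α j d R
  have h4 := HOne_le w α j d R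
  have h5 := HOne_ge w α j d R hα
  obtain ⟨p, hp⟩ : ∃ p, p = PH w α j {h | (d : ℤ) ≤ sg true * h ∧ sg true * h ≤ R} := ⟨_, rfl⟩
  obtain ⟨q, hq⟩ : ∃ q, q = PH w α j {h | (d : ℤ) ≤ sg false * h ∧ sg false * h ≤ R} := ⟨_, rfl⟩
  rw [← hp, ← hq] at h3 h4 h5
  have h6 : ENNReal.ofReal (1 / 8) ≤ p + q := by
    have h7 : ENNReal.ofReal (1 / 8) + ENNReal.ofReal (1 / 8) = ENNReal.ofReal (1 / 4) := by
      rw [← ENNReal.ofReal_add (by norm_num) (by norm_num)]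
      norm_num
    have h8 : ENNReal.ofReal (1 / 8) + ENNReal.ofReal (1 / 8) ≤ (p + q) + ENNReal.ofReal (1 / 8) := by
      rw [h7]
      exact h1.trans (h3.trans (add_le_add le_rfl h2))
    exact (ENNReal.add_le_add_iff_right ENNReal.ofReal_ne_top).1 h8
  cases b
  · rw [← hq]
    refine HOne_third (h6.trans ?_)
    calc p + q ≤ 2 * q + q := add_le_add h5 le_rfl
      _ = 3 * q := by ring
  · rw [← hp]
    refine HOne_third (h6.trans ?_)
    calc p + q ≤ p + p := add_le_add le_rfl h4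
      _ = 2 * p := by ring
      _ ≤ 3 * p := mul_le_mul_left (by norm_num) _

end FDr.BX
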