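import Mathlib
import Pool.Agent.Lib.MP_e029a2_pr.Defs

/-!
# Steering a walk (job Steer; abstract, almost only Mathlib)

`W j` is the law of the walk after `j` steps (a semigroup on `ℤ^n`).  If after `t` steps the walk has a probability `≥ c` for every choice of the signs
`s` to be in `{v | ∀ i, d ≤ sg (s i) * v i ≤ R}`, then it can be steered to every point.
`steer`: induction on `k`.  `k = 0`: `|a i| ≤ R`, the term `v = 0` (`W 0 0 = 1`, `ENNReal.le_tsum`).  Step: `(k + 1) * t = t + k * t`; by `hc` and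
`ENNReal.tsum_comm` and the shift `v ↦ v + b` (`(Equiv.addRight b).tsum_eq` or `Equiv.subRight`):
`∑'_v 1{∀ i, |v i - a i| ≤ R} W (t + k t) v = ∑'_b W t b * (∑'_v 1{∀ i, |v i - (a - b) i| ≤ R} W (k t) v)`, and for `b` in the set of `hone` for the signs
`s i = decide (0 ≤ a i)` one has `|a i - b i| ≤ max (|a i| - d) R ≤ R + k d` (if `|b i| ≤ |a i|`: `|a i - b i| = |a i| - |b i| ≤ |a i| - d`;
otherwise `|a i - b i| ≤ |b i| ≤ R`), so the inner sum is `≥ c^k` by induction.  Then `∑'_b 1{b ∈ ...} W t b * c^k ≥ c * c^k`.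
`stay`: in the same way: `v = b + v'` with `|b i - a i| ≤ R`, `|v' i| ≤ R'` gives `|v i - a i| ≤ R + R'`.
-/

set_option autoImplicit false

namespace FDr.BX

open scoped ENNReal

private theorem conv_ge {n : ℕ} (W : ℕ → (Fin n → ℤ) → ℝ≥0∞)
    (hc : ∀ i j v, W (i + j) v = ∑' a : Fin n → ℤ, W i a * W j (v - a)) {i j : ℕ} (A T : Set (Fin n → ℤ)) {p q : ℝ≥0∞}
    (hp : p ≤ ∑' v : Fin n → ℤ, A.indicator (W i) v)
    (hq : ∀ b ∈ A, q ≤ ∑' v : Fin n → ℤ, {v : Fin n → ℤ | v + b ∈ T}.indicator (W j) v) :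
    p * q ≤ ∑' v : Fin n → ℤ, T.indicator (W (i + j)) v := by
  calc p * q ≤ (∑' b : Fin n → ℤ, A.indicator (W i) b) * q := mul_le_mul_left hp q
    _ = ∑' b : Fin n → ℤ, A.indicator (W i) b * q := ENNReal.tsum_mul_right.symm
    _ ≤ ∑' b : Fin n → ℤ, W i b * ∑' v : Fin n → ℤ, {v : Fin n → ℤ | v + b ∈ T}.indicator (W j) v := by
        refine ENNReal.tsum_le_tsum (fun b => ?_)
        by_cases hb : b ∈ A
        · rw [Set.indicator_of_mem hb]
          exact mul_le_mul_right (hq b hb) _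
        · rw [Set.indicator_of_notMem hb, zero_mul]
          exact zero_le
    _ = ∑' b : Fin n → ℤ, ∑' v : Fin n → ℤ, T.indicator (fun v => W i b * W j (v - b)) v := by
        refine tsum_congr (fun b => ?_)
        rw [← ENNReal.tsum_mul_left, ← (Equiv.addRight b).tsum_eq (fun v => T.indicator (fun v => W i b * W j (v - b)) v)]
        refine tsum_congr (fun v => ?_)
        have e1 : (Equiv.addRight b) v = v + b := rfl
        by_cases h : v + b ∈ T
        · have h' : v ∈ {v : Fin n → ℤ | v + b ∈ T} := h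
          rw [Set.indicator_of_mem h', e1, Set.indicator_of_mem h, add_sub_cancel_right]
        · have h' : v ∉ {v : Fin n → ℤ | v + b ∈ T} := h
          rw [Set.indicator_of_notMem h', e1, Set.indicator_of_notMem h, mul_zero]
    _ = ∑' v : Fin n → ℤ, ∑' b : Fin n → ℤ, T.indicator (fun v => W i b * W j (v - b)) v := ENNReal.tsum_comm
    _ = ∑' v : Fin n → ℤ, T.indicator (W (i + j)) v := by
        refine tsum_congr (fun v => ?_)
        by_cases h : v ∈ T
        · rw [Set.indicator_of_mem h, hc]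
          refine tsum_congr (fun b => ?_)
          rw [Set.indicator_of_mem h]
        · rw [Set.indicator_of_notMem h]
          rw [ENNReal.tsum_eq_zero]
          intro b
          rw [Set.indicator_of_notMem h]

theorem steer {n : ℕ} (W : ℕ → (Fin n → ℤ) → ℝ≥0∞) (h0 : W 0 0 = 1)
    (hc : ∀ i j v, W (i + j) v = ∑' a : Fin n → ℤ, W i a * W j (v - a)) {t d R : ℕ} (hd : 1 ≤ d) (hdR : d ≤ R) {c : ℝ≥0∞}
    (hone : ∀ s : Fin n → Bool,
      c ≤ ∑' v : Fin n → ℤ, {v : Fin n → ℤ | ∀ i, (d : ℤ) ≤ sg (s i) * v i ∧ sg (s i) * v i ≤ R}.indicator (W t) v) :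
    ∀ (k : ℕ) (a : Fin n → ℤ), (∀ i, |a i| ≤ R + k * d) →
      c ^ k ≤ ∑' v : Fin n → ℤ, {v : Fin n → ℤ | ∀ i, |v i - a i| ≤ R}.indicator (W (k * t)) v := by
  intro k
  induction k with
  | zero =>
    intro a ha
    have hm : (0 : Fin n → ℤ) ∈ {v : Fin n → ℤ | ∀ i, |v i - a i| ≤ R} := by
      intro i
      have h := ha i
      simp only [Nat.cast_zero, zero_mul, add_zero] at h
      simp only [Pi.zero_apply, zero_sub, abs_neg]
      exact h
    have h1 := ENNReal.le_tsum (f := fun v : Fin n → ℤ => {v : Fin n → ℤ | ∀ i, |v i - a i| ≤ R}.indicator (W (0 * t)) v) 0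
    simp only [Set.indicator_of_mem hm] at h1
    rw [zero_mul, h0] at h1
    rw [pow_zero, zero_mul]
    exact h1
  | succ k ih =>
    intro a ha
    have e : (k + 1) * t = t + k * t := by ring
    rw [e, pow_succ, mul_comm (c ^ k) c]
    refine conv_ge W hc _ _ (hone (fun i => decide (0 ≤ a i))) ?_
    intro b hb
    have h1 := ih (a - b) ?_
    · refine h1.trans (le_of_eq (tsum_congr (fun v => ?_)))
      have es : {v : Fin n → ℤ | ∀ i, |v i - (a - b) i| ≤ (R : ℤ)} = {v : Fin n → ℤ | v + b ∈ {v : Fin n → ℤ | ∀ i, |v i - a i| ≤ (R : ℤ)}} := by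
        ext w
        simp only [Set.mem_ofPred_eq, Pi.sub_apply, Pi.add_apply]
        refine forall_congr' (fun i => ?_)
        have e2 : w i - (a i - b i) = w i + b i - a i := by ring
        rw [e2]
      rw [es]
    · intro i
      have h2 := hb i
      have h3 := ha i
      have hd' : (1 : ℤ) ≤ d := by exact_mod_cast hd
      have hdR' : (d : ℤ) ≤ R := by exact_mod_cast hdR
      have hkd : (0 : ℤ) ≤ (k : ℤ) * d := by positivity
      push_cast at h3
      have h3' : |a i| ≤ R + k * d + d := by linarith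
      simp only [Pi.sub_apply]
      obtain ⟨h4, h5⟩ := abs_le.mp h3'
      rw [abs_le]
      by_cases hs : 0 ≤ a i
      · simp only [hs, decide_true, sg] at h2
        obtain ⟨h6, h7⟩ := h2
        simp at h6 h7
        constructor <;> linarith
      · simp only [hs, decide_false, sg] at h2
        obtain ⟨h6, h7⟩ := h2
        simp at h6 h7
        push Not at hs
        constructor <;> linarith

theorem stay {n : ℕ} (W : ℕ → (Fin n → ℤ) → ℝ≥0∞)
    (hc : ∀ i j v, W (i + j) v = ∑' a : Fin n → ℤ, W i a * W j (v - a)) {j r R R' : ℕ} (a : Fin n → ℤ) {p q : ℝ≥0∞}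
    (hp : p ≤ ∑' v : Fin n → ℤ, {v : Fin n → ℤ | ∀ i, |v i - a i| ≤ R}.indicator (W j) v)
    (hq : q ≤ ∑' v : Fin n → ℤ, {v : Fin n → ℤ | ∀ i, |v i| ≤ R'}.indicator (W r) v) :
    p * q ≤ ∑' v : Fin n → ℤ, {v : Fin n → ℤ | ∀ i, |v i - a i| ≤ R + R'}.indicator (W (j + r)) v := by
  refine conv_ge W hc _ _ hp ?_
  intro b hb
  refine hq.trans (ENNReal.tsum_le_tsum (fun v => ?_))
  refine Set.indicator_le_indicator_of_subset ?_ (fun _ => zero_le) v
  intro w hw i
  have h1 := hw i
  have h2 := hb i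
  have e : (w + b) i - a i = w i + (b i - a i) := by
    simp only [Pi.add_apply]; ring
  rw [e]
  refine (abs_add_le _ _).trans ?_
  linarith

end FDr.BX
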