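import Pool.Agent.Lib.MP_e029a2_pr.BX.Def

/-!
# One step of the simple random walk on `ℤ^D` (job VOne)

`srw_sq`: induction on `j` (second moments: `∑'_v srw (j+1) v (v i)² = ∑_d (2D)⁻¹ ∑'_v srw j v ofReal ((v i + dv d i)²)` by the shift, and
`∑_d (2D)⁻¹ (x + dv d i)² = x² + 1/D` for real `x` (`dv (c, b) i = 0` for `c ≠ i`, `= ± 1` for `c = i`); write the sum over the directions inside one
`ENNReal.ofReal` (`ENNReal.ofReal_sum_of_nonneg`) and use `srw_sum`).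
`srw_far` (Chebyshev): `1{∃ i, R < |v i|} ≤ ∑_i ofReal ((v i)²/R²)`, so the sum is `≤ ∑_i (j/D)/R² = j/R²`.
`v_one`: `t = 256 D⁴ d²`, `R = 32 D² d` (so `t = R²/4`).  `∑'_v srw t v = 1` (`srw_sum`), the set `{∃ i, |v i| < d}` has probability at most
`D · (2d) · 2/√(t/D) = 2d · 2 D √D /(16 D² d) ≤ 1/4` (for every `i` and every `a` with `|a| < d` (at most `2 d` values) use
`CO.slMg_eq` + `CO.slR_le`: `∑'_v 1{v i = a} srw D t v ≤ ofReal (2/√(t/D))`, see `CO/Slab.lean`, `CO.slMg` is the same sum), the set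
`{∃ i, R < |v i|}` at most `t/R² = 1/4` (`srw_far`).  So `{∀ i, d ≤ |v i| ≤ R}` has probability `≥ 1/2`; it is the disjoint union over the signs
`s' : Fin D → Bool` of the sets `{∀ i, d ≤ sg (s' i) * v i ≤ R}` (`d ≥ 1`), which have all the same probability (`CO.srw_flip`, `CO.flip`, the
equivalence `CO.flip t` as in `CO.orth_flip`); there are `2^D` of them.
-/

set_option autoImplicit false

namespace FDr.BX

open MeasureTheory ProbabilityTheory
open scoped ENNReal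

private theorem vOne_sum (D : ℕ) (hD : 1 ≤ D) (i : Fin D) (x : ℝ) :
    ∑ d : Dir D, (2 * (D : ℝ))⁻¹ * (x + (dv d i : ℝ)) ^ 2 = x ^ 2 + 1 / D := by
  have hD0 : (D : ℝ) ≠ 0 := by
    have : (0 : ℝ) < D := by exact_mod_cast hD
    exact this.ne'
  rw [← Finset.mul_sum]
  have e1 : ∑ d : Dir D, (x + (dv d i : ℝ)) ^ 2 = ∑ c : Fin D, ∑ b : Bool, (x + (dv ((c, b) : Dir D) i : ℝ)) ^ 2 :=
    Fintype.sum_prod_type _
  have e2 : ∀ c : Fin D, ∑ b : Bool, (x + (dv ((c, b) : Dir D) i : ℝ)) ^ 2 = 2 * x ^ 2 + (if c = i then 2 else 0) := by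
    intro c
    rw [Fintype.sum_bool]
    unfold dv sg
    by_cases h : c = i
    · subst h
      rw [if_pos rfl]
      simp only [Pi.single_eq_same, if_true, Bool.false_eq_true, if_false]
      push_cast
      ring
    · rw [if_neg h]
      simp only [Pi.single_eq_of_ne (Ne.symm h), Int.cast_zero, add_zero]
      ring
  rw [e1, Finset.sum_congr rfl fun c _ => e2 c, Finset.sum_add_distrib, Finset.sum_ite_eq' Finset.univ i,
    if_pos (Finset.mem_univ i), Finset.sum_const, Finset.card_univ, Fintype.card_fin, nsmul_eq_mul]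
  field_simp

private theorem vOne_c (D : ℕ) (hD : 1 ≤ D) : ENNReal.ofReal ((2 * (D : ℝ))⁻¹) = (2 * (D : ℝ≥0∞))⁻¹ := by
  have hD0 : (0 : ℝ) < D := by exact_mod_cast hD
  rw [ENNReal.ofReal_inv_of_pos (by positivity), ENNReal.ofReal_mul (by norm_num), ENNReal.ofReal_ofNat,
    ENNReal.ofReal_natCast]

theorem srw_sq (D : ℕ) (hD : 1 ≤ D) (j : ℕ) (i : Fin D) :
    ∑' v : Fin D → ℤ, srw D j v * ENNReal.ofReal ((v i : ℝ) ^ 2) = ENNReal.ofReal ((j : ℝ) / D) := by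
  have hD0 : (0 : ℝ) < D := by exact_mod_cast hD
  induction j with
  | zero =>
    have h1 : ∀ v : Fin D → ℤ, srw D 0 v * ENNReal.ofReal ((v i : ℝ) ^ 2) = 0 := by
      intro v
      show (if v = 0 then (1 : ℝ≥0∞) else 0) * _ = 0
      by_cases h : v = 0
      · rw [h, Pi.zero_apply, Int.cast_zero, zero_pow two_ne_zero, ENNReal.ofReal_zero, mul_zero]
      · rw [if_neg h, zero_mul]
    rw [tsum_congr h1, tsum_zero, Nat.cast_zero, zero_div, ENNReal.ofReal_zero]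
  | succ j ih =>
    have e1 : ∀ v : Fin D → ℤ, srw D (j + 1) v * ENNReal.ofReal ((v i : ℝ) ^ 2) =
        ∑ d : Dir D, (2 * (D : ℝ≥0∞))⁻¹ * (srw D j (v - dv d) * ENNReal.ofReal ((v i : ℝ) ^ 2)) := by
      intro v
      show (∑ d : Dir D, (2 * (D : ℝ≥0∞))⁻¹ * srw D j (v - dv d)) * _ = _
      rw [Finset.sum_mul]
      exact Finset.sum_congr rfl fun d _ => mul_assoc _ _ _
    have e2 : ∀ d : Dir D, ∑' v : Fin D → ℤ, srw D j (v - dv d) * ENNReal.ofReal ((v i : ℝ) ^ 2) =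
        ∑' v : Fin D → ℤ, srw D j v * ENNReal.ofReal (((v i : ℝ) + (dv d i : ℝ)) ^ 2) := by
      intro d
      rw [← (Equiv.subRight (dv d)).tsum_eq
        (fun v : Fin D → ℤ => srw D j v * ENNReal.ofReal (((v i : ℝ) + (dv d i : ℝ)) ^ 2))]
      refine tsum_congr fun v => ?_
      have h1 : (((Equiv.subRight (dv d)) v i : ℤ) : ℝ) + (dv d i : ℝ) = (v i : ℝ) := by
        simp only [Equiv.subRight_apply, Pi.sub_apply]
        push_cast
        ring
      rw [h1]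
      rfl
    have e3 : ∀ v : Fin D → ℤ, ∑ d : Dir D, (2 * (D : ℝ≥0∞))⁻¹ *
        (srw D j v * ENNReal.ofReal (((v i : ℝ) + (dv d i : ℝ)) ^ 2)) =
        srw D j v * ENNReal.ofReal ((v i : ℝ) ^ 2) + srw D j v * ENNReal.ofReal (1 / (D : ℝ)) := by
      intro v
      rw [← mul_add, ← ENNReal.ofReal_add (by positivity) (by positivity), ← vOne_sum D hD i (v i : ℝ),
        ENNReal.ofReal_sum_of_nonneg fun d _ => by positivity, Finset.mul_sum]
      refine Finset.sum_congr rfl fun d _ => ?_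
      rw [ENNReal.ofReal_mul (by positivity), vOne_c D hD]
      ring
    calc ∑' v : Fin D → ℤ, srw D (j + 1) v * ENNReal.ofReal ((v i : ℝ) ^ 2)
        = ∑' v : Fin D → ℤ, ∑ d : Dir D, (2 * (D : ℝ≥0∞))⁻¹ *
            (srw D j (v - dv d) * ENNReal.ofReal ((v i : ℝ) ^ 2)) := tsum_congr e1
      _ = ∑ d : Dir D, ∑' v : Fin D → ℤ, (2 * (D : ℝ≥0∞))⁻¹ *
            (srw D j (v - dv d) * ENNReal.ofReal ((v i : ℝ) ^ 2)) :=
          Summable.tsum_finsetSum fun _ _ => ENNReal.summable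
      _ = ∑ d : Dir D, ∑' v : Fin D → ℤ, (2 * (D : ℝ≥0∞))⁻¹ *
            (srw D j v * ENNReal.ofReal (((v i : ℝ) + (dv d i : ℝ)) ^ 2)) := by
          refine Finset.sum_congr rfl fun d _ => ?_
          rw [ENNReal.tsum_mul_left, e2 d, ENNReal.tsum_mul_left]
      _ = ∑' v : Fin D → ℤ, ∑ d : Dir D, (2 * (D : ℝ≥0∞))⁻¹ *
            (srw D j v * ENNReal.ofReal (((v i : ℝ) + (dv d i : ℝ)) ^ 2)) :=
          (Summable.tsum_finsetSum fun _ _ => ENNReal.summable).symm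
      _ = ∑' v : Fin D → ℤ, (srw D j v * ENNReal.ofReal ((v i : ℝ) ^ 2) +
            srw D j v * ENNReal.ofReal (1 / (D : ℝ))) := tsum_congr e3
      _ = ENNReal.ofReal ((j : ℝ) / D) + ENNReal.ofReal (1 / (D : ℝ)) := by
          rw [ENNReal.tsum_add, ih, ENNReal.tsum_mul_right, srw_sum (by omega) j, one_mul]
      _ = ENNReal.ofReal (((j + 1 : ℕ) : ℝ) / D) := by
          rw [← ENNReal.ofReal_add (by positivity) (by positivity)]
          congr 1
          push_cast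
          ring

theorem srw_far (D : ℕ) (hD : 1 ≤ D) (j : ℕ) (R : ℕ) (hR : 1 ≤ R) :
    PV D j {v | ∃ i, (R : ℤ) < |v i|} ≤ ENNReal.ofReal ((j : ℝ) / (R : ℝ) ^ 2) := by
  have hD0 : (0 : ℝ) < D := by exact_mod_cast hD
  have hR0 : (0 : ℝ) < R := by exact_mod_cast hR
  have h1 : ∀ v : Fin D → ℤ, ({v | ∃ i, (R : ℤ) < |v i|} : Set (Fin D → ℤ)).indicator (srw D j) v ≤
      ∑ i : Fin D, srw D j v * ENNReal.ofReal ((v i : ℝ) ^ 2) * ENNReal.ofReal (1 / (R : ℝ) ^ 2) := by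
    intro v
    by_cases hv : v ∈ ({v | ∃ i, (R : ℤ) < |v i|} : Set (Fin D → ℤ))
    · rw [Set.indicator_of_mem hv]
      obtain ⟨i, hi⟩ := hv
      refine le_trans ?_ (Finset.single_le_sum (f := fun i : Fin D =>
        srw D j v * ENNReal.ofReal ((v i : ℝ) ^ 2) * ENNReal.ofReal (1 / (R : ℝ) ^ 2)) (fun _ _ => zero_le)
        (Finset.mem_univ i))
      show srw D j v ≤ srw D j v * ENNReal.ofReal ((v i : ℝ) ^ 2) * ENNReal.ofReal (1 / (R : ℝ) ^ 2)
      rw [mul_assoc, ← ENNReal.ofReal_mul (by positivity)]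
      have h2 : (R : ℝ) < |(v i : ℝ)| := by
        have h3 : ((R : ℤ) : ℝ) < ((|v i| : ℤ) : ℝ) := Int.cast_lt.2 hi
        rw [Int.cast_abs] at h3
        exact_mod_cast h3
      have h3 : (1 : ℝ) ≤ (v i : ℝ) ^ 2 * (1 / (R : ℝ) ^ 2) := by
        rw [mul_one_div, one_le_div (by positivity), ← sq_abs (v i : ℝ)]
        exact pow_le_pow_left₀ hR0.le h2.le 2
      have h4 : (1 : ℝ≥0∞) ≤ ENNReal.ofReal ((v i : ℝ) ^ 2 * (1 / (R : ℝ) ^ 2)) := by
        rw [ENNReal.one_le_ofReal]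
        exact h3
      calc srw D j v = srw D j v * 1 := (mul_one _).symm
        _ ≤ _ := by gcongr
    · rw [Set.indicator_of_notMem hv]
      exact zero_le
  unfold PV
  refine (ENNReal.tsum_le_tsum h1).trans (le_of_eq ?_)
  rw [Summable.tsum_finsetSum fun _ _ => ENNReal.summable]
  have h2 : ∀ i : Fin D, ∑' v : Fin D → ℤ, srw D j v * ENNReal.ofReal ((v i : ℝ) ^ 2) *
      ENNReal.ofReal (1 / (R : ℝ) ^ 2) = ENNReal.ofReal ((j : ℝ) / D * (1 / (R : ℝ) ^ 2)) := by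
    intro i
    rw [ENNReal.tsum_mul_right, srw_sq D hD j i, ← ENNReal.ofReal_mul (by positivity)]
  rw [Finset.sum_congr rfl fun i _ => h2 i, Finset.sum_const, Finset.card_univ, Fintype.card_fin, nsmul_eq_mul,
    ← ENNReal.ofReal_natCast, ← ENNReal.ofReal_mul (by positivity)]
  congr 1
  field_simp

/-- a coordinate is small -/
private theorem vOne_near (D : ℕ) (hD : 1 ≤ D) (d : ℕ) (hd : 1 ≤ d) :
    PV D (256 * D ^ 4 * d ^ 2) {v | ∃ i, |v i| < (d : ℤ)} ≤ ENNReal.ofReal (1 / 4) := by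
  have hD1 : (1 : ℝ) ≤ D := by exact_mod_cast hD
  have hd1 : (1 : ℝ) ≤ d := by exact_mod_cast hd
  have hD0 : (0 : ℝ) < D := by linarith
  have hd0 : (0 : ℝ) < d := by linarith
  obtain ⟨t, ht⟩ : ∃ t : ℕ, t = 256 * D ^ 4 * d ^ 2 := ⟨_, rfl⟩
  rw [← ht]
  have ht1 : 1 ≤ t := by
    rw [ht]
    have h1 : 1 ≤ D ^ 4 := Nat.one_le_pow _ _ hD
    have h2 : 1 ≤ d ^ 2 := Nat.one_le_pow _ _ hd
    calc 1 ≤ 256 * 1 * 1 := by norm_num
      _ ≤ 256 * D ^ 4 * d ^ 2 := Nat.mul_le_mul (Nat.mul_le_mul_left _ h1) h2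
  have hsq : 16 * (D : ℝ) * d ≤ Real.sqrt ((t : ℝ) / D) := by
    refine Real.le_sqrt_of_sq_le ?_
    rw [le_div_iff₀ hD0, ht]
    push_cast
    have h3 : (D : ℝ) ^ 3 ≤ (D : ℝ) ^ 4 := pow_le_pow_right₀ hD1 (by norm_num)
    have h4 : (0 : ℝ) ≤ 256 * (d : ℝ) ^ 2 := by positivity
    calc (16 * (D : ℝ) * d) ^ 2 * D = 256 * (d : ℝ) ^ 2 * (D : ℝ) ^ 3 := by ring
      _ ≤ 256 * (d : ℝ) ^ 2 * (D : ℝ) ^ 4 := mul_le_mul_of_nonneg_left h3 h4
      _ = 256 * (D : ℝ) ^ 4 * (d : ℝ) ^ 2 := by ring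
  have hq : 2 / Real.sqrt ((t : ℝ) / D) ≤ 1 / (8 * (D : ℝ) * d) := by
    have h5 : (0 : ℝ) < 16 * (D : ℝ) * d := by positivity
    calc 2 / Real.sqrt ((t : ℝ) / D) ≤ 2 / (16 * (D : ℝ) * d) :=
          div_le_div_of_nonneg_left (by norm_num) h5 hsq
      _ = 1 / (8 * (D : ℝ) * d) := by
          field_simp
          norm_num
  have hm : ∀ (i : Fin D) (a : ℤ), (∑' v : Fin D → ℤ, if v i = a then srw D t v else 0) ≤
      ENNReal.ofReal (1 / (8 * (D : ℝ) * d)) := by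
    intro i a
    have h1 : CO.slMg D i t a ≤ ENNReal.ofReal (1 / (8 * (D : ℝ) * d)) := by
      rw [CO.slMg_eq D hD i t a]
      exact ENNReal.ofReal_le_ofReal ((CO.slR_le D hD i t ht1 _).trans hq)
    exact h1
  have hp : ∀ v : Fin D → ℤ, ({v | ∃ i, |v i| < (d : ℤ)} : Set (Fin D → ℤ)).indicator (srw D t) v ≤
      ∑ i : Fin D, ∑ a ∈ Finset.Ioo (-(d : ℤ)) d, (if v i = a then srw D t v else 0) := by
    intro v
    by_cases hv : v ∈ ({v | ∃ i, |v i| < (d : ℤ)} : Set (Fin D → ℤ))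
    · rw [Set.indicator_of_mem hv]
      obtain ⟨i, hi⟩ := hv
      refine le_trans ?_ (Finset.single_le_sum (f := fun i : Fin D =>
        ∑ a ∈ Finset.Ioo (-(d : ℤ)) d, (if v i = a then srw D t v else 0)) (fun _ _ => zero_le)
        (Finset.mem_univ i))
      show srw D t v ≤ ∑ a ∈ Finset.Ioo (-(d : ℤ)) d, (if v i = a then srw D t v else 0)
      refine le_trans ?_ (Finset.single_le_sum (f := fun a : ℤ => if v i = a then srw D t v else 0)
        (fun _ _ => zero_le) (Finset.mem_Ioo.2 (abs_lt.1 hi)))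
      show srw D t v ≤ if v i = v i then srw D t v else 0
      rw [if_pos rfl]
    · rw [Set.indicator_of_notMem hv]
      exact zero_le
  unfold PV
  refine (ENNReal.tsum_le_tsum hp).trans ?_
  rw [Summable.tsum_finsetSum fun _ _ => ENNReal.summable]
  have h6 : ∀ i : Fin D, ∑' v : Fin D → ℤ, ∑ a ∈ Finset.Ioo (-(d : ℤ)) d, (if v i = a then srw D t v else 0) ≤
      ENNReal.ofReal (2 * d * (1 / (8 * (D : ℝ) * d))) := by
    intro i
    rw [Summable.tsum_finsetSum fun _ _ => ENNReal.summable]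
    refine (Finset.sum_le_sum fun a _ => hm i a).trans ?_
    rw [Finset.sum_const, Int.card_Ioo, nsmul_eq_mul, ENNReal.ofReal_mul (by positivity)]
    gcongr
    rw [← ENNReal.ofReal_natCast]
    refine ENNReal.ofReal_le_ofReal ?_
    have h7 : ((d : ℤ) - -(d : ℤ) - 1).toNat ≤ 2 * d := by omega
    exact_mod_cast h7
  refine (Finset.sum_le_sum fun i _ => h6 i).trans (le_of_eq ?_)
  rw [Finset.sum_const, Finset.card_univ, Fintype.card_fin, nsmul_eq_mul, ← ENNReal.ofReal_natCast,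
    ← ENNReal.ofReal_mul (by positivity)]
  congr 1
  field_simp
  norm_num

/-- the probability does not depend on the signs -/
private theorem vOne_flip (D : ℕ) (t d R : ℕ) (s s' : Fin D → Bool) :
    PV D t {v | ∀ i, (d : ℤ) ≤ sg (s i) * v i ∧ sg (s i) * v i ≤ (R : ℕ)} =
      PV D t {v | ∀ i, (d : ℤ) ≤ sg (s' i) * v i ∧ sg (s' i) * v i ≤ (R : ℕ)} := by
  obtain ⟨r, hr⟩ : ∃ r : Fin D → Bool, r = fun i => s i == s' i := ⟨_, rfl⟩
  let e : (Fin D → ℤ) ≃ (Fin D → ℤ) := ⟨CO.flip r, CO.flip r, CO.flip_flip r, CO.flip_flip r⟩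
  unfold PV
  rw [← e.tsum_eq]
  refine tsum_congr fun x => ?_
  have h1 : ∀ i, sg (s i) * e x i = sg (s' i) * x i := by
    intro i
    show sg (s i) * (sg (r i) * x i) = sg (s' i) * x i
    rw [hr, ← mul_assoc]
    congr 1
    show sg (s i) * sg (s i == s' i) = sg (s' i)
    cases s i <;> cases s' i <;> rfl
  have h3 : srw D t (e x) = srw D t x := CO.srw_flip r t x
  by_cases h4 : x ∈ ({v | ∀ i, (d : ℤ) ≤ sg (s' i) * v i ∧ sg (s' i) * v i ≤ (R : ℕ)} : Set (Fin D → ℤ))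
  · have h5 : e x ∈ ({v | ∀ i, (d : ℤ) ≤ sg (s i) * v i ∧ sg (s i) * v i ≤ (R : ℕ)} : Set (Fin D → ℤ)) := by
      intro i
      rw [h1 i]
      exact h4 i
    rw [Set.indicator_of_mem h4, Set.indicator_of_mem h5, h3]
  · have h5 : e x ∉ ({v | ∀ i, (d : ℤ) ≤ sg (s i) * v i ∧ sg (s i) * v i ≤ (R : ℕ)} : Set (Fin D → ℤ)) := by
      intro h6
      refine h4 fun i => ?_
      have h7 := h6 i
      rw [h1 i] at h7
      exact h7
    rw [Set.indicator_of_notMem h4, Set.indicator_of_notMem h5]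

theorem v_one (D : ℕ) (hD : 1 ≤ D) (d : ℕ) (hd : 1 ≤ d) (s : Fin D → Bool) :
    ENNReal.ofReal ((1 / 2) ^ (D + 1)) ≤
      PV D (256 * D ^ 4 * d ^ 2) {v | ∀ i, (d : ℤ) ≤ sg (s i) * v i ∧ sg (s i) * v i ≤ (32 * D ^ 2 * d : ℕ)} := by
  have hD0 : (0 : ℝ) < D := by exact_mod_cast hD
  have hd0 : (0 : ℝ) < d := by exact_mod_cast hd
  have hnear := vOne_near D hD d hd
  obtain ⟨R, hR⟩ : ∃ R : ℕ, R = 32 * D ^ 2 * d := ⟨_, rfl⟩
  have hR1 : 1 ≤ R := by
    rw [hR]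
    have h1 : 1 ≤ D ^ 2 := Nat.one_le_pow _ _ hD
    calc 1 ≤ 32 * 1 * 1 := by norm_num
      _ ≤ 32 * D ^ 2 * d := Nat.mul_le_mul (Nat.mul_le_mul_left _ h1) hd
  have hfar : PV D (256 * D ^ 4 * d ^ 2) {v | ∃ i, (R : ℤ) < |v i|} ≤ ENNReal.ofReal (1 / 4) := by
    refine (srw_far D hD _ R hR1).trans (ENNReal.ofReal_le_ofReal (le_of_eq ?_))
    rw [hR]
    push_cast
    field_simp
    norm_num
  rw [← hR]
  obtain ⟨t, ht⟩ : ∃ t : ℕ, t = 256 * D ^ 4 * d ^ 2 := ⟨_, rfl⟩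
  rw [← ht] at hnear hfar ⊢
  have h1 : (1 : ℝ≥0∞) ≤ PV D t {v | ∃ i, |v i| < (d : ℤ)} + PV D t {v | ∃ i, (R : ℤ) < |v i|} +
      ∑ s' : Fin D → Bool, PV D t {v | ∀ i, (d : ℤ) ≤ sg (s' i) * v i ∧ sg (s' i) * v i ≤ (R : ℕ)} := by
    rw [← srw_sum (show D ≠ 0 by omega) t]
    unfold PV
    rw [← Summable.tsum_finsetSum fun _ _ => ENNReal.summable, ← ENNReal.tsum_add, ← ENNReal.tsum_add]
    refine ENNReal.tsum_le_tsum fun v => ?_
    by_cases h2 : v ∈ ({v | ∃ i, |v i| < (d : ℤ)} : Set (Fin D → ℤ))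
    · rw [Set.indicator_of_mem h2, add_assoc]
      exact le_self_add
    by_cases h3 : v ∈ ({v | ∃ i, (R : ℤ) < |v i|} : Set (Fin D → ℤ))
    · rw [Set.indicator_of_mem h3, add_assoc]
      exact le_add_left le_self_add
    have h4 : ∀ i, (d : ℤ) ≤ |v i| := fun i => not_lt.1 fun h => h2 ⟨i, h⟩
    have h5 : ∀ i, |v i| ≤ (R : ℤ) := fun i => not_lt.1 fun h => h3 ⟨i, h⟩
    have h6 : ∀ i, sg (decide (0 ≤ v i)) * v i = |v i| := by
      intro i
      by_cases h : 0 ≤ v i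
      · rw [abs_of_nonneg h]
        simp only [h, decide_true, sg, if_true, one_mul]
      · rw [abs_of_neg (not_le.1 h)]
        simp only [h, decide_false, sg, Bool.false_eq_true, if_false]
        ring
    have h7 : v ∈ ({v | ∀ i, (d : ℤ) ≤ sg (decide (0 ≤ v i)) * v i ∧ sg (decide (0 ≤ v i)) * v i ≤ (R : ℕ)} :
        Set (Fin D → ℤ)) := by
      intro i
      rw [h6 i]
      exact ⟨h4 i, h5 i⟩
    have h8 := Finset.single_le_sum (f := fun s' : Fin D → Bool =>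
      ({v | ∀ i, (d : ℤ) ≤ sg (s' i) * v i ∧ sg (s' i) * v i ≤ (R : ℕ)} : Set (Fin D → ℤ)).indicator (srw D t) v)
      (fun _ _ => zero_le) (Finset.mem_univ (fun i => decide (0 ≤ v i)))
    refine le_add_left (le_trans (le_of_eq ?_) h8)
    show srw D t v = ({u | ∀ i, (d : ℤ) ≤ sg (decide (0 ≤ v i)) * u i ∧ sg (decide (0 ≤ v i)) * u i ≤ (R : ℕ)} :
      Set (Fin D → ℤ)).indicator (srw D t) v
    rw [Set.indicator_of_mem]
    exact h7
  rw [Finset.sum_congr rfl fun s' _ => vOne_flip D t d R s' s, Finset.sum_const, Finset.card_univ, Fintype.card_fun,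
    Fintype.card_bool, Fintype.card_fin, nsmul_eq_mul] at h1
  obtain ⟨P, hP⟩ : ∃ P : ℝ≥0∞, P = PV D t {v | ∀ i, (d : ℤ) ≤ sg (s i) * v i ∧ sg (s i) * v i ≤ (R : ℕ)} := ⟨_, rfl⟩
  rw [← hP] at h1 ⊢
  have h2 : ENNReal.ofReal (1 / 2) + ENNReal.ofReal (1 / 2) ≤ ENNReal.ofReal (1 / 2) + ((2 ^ D : ℕ) : ℝ≥0∞) * P := by
    rw [← ENNReal.ofReal_add (by norm_num) (by norm_num), show (1 / 2 + 1 / 2 : ℝ) = 1 by norm_num, ENNReal.ofReal_one]
    refine h1.trans ?_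
    gcongr
    refine (add_le_add hnear hfar).trans (le_of_eq ?_)
    rw [← ENNReal.ofReal_add (by norm_num) (by norm_num)]
    norm_num
  have h3 : ENNReal.ofReal (1 / 2) ≤ ((2 ^ D : ℕ) : ℝ≥0∞) * P :=
    (ENNReal.add_le_add_iff_left ENNReal.ofReal_ne_top).1 h2
  have h4 : ENNReal.ofReal ((1 / 2) ^ (D + 1)) = ENNReal.ofReal ((1 / 2) ^ D) * ENNReal.ofReal (1 / 2) := by
    rw [← ENNReal.ofReal_mul (by positivity), pow_succ]
  have h5 : ENNReal.ofReal ((1 / 2) ^ D) * ((2 ^ D : ℕ) : ℝ≥0∞) = 1 := by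
    rw [← ENNReal.ofReal_natCast, ← ENNReal.ofReal_mul (by positivity)]
    push_cast
    rw [← mul_pow]
    norm_num
  calc ENNReal.ofReal ((1 / 2) ^ (D + 1)) = ENNReal.ofReal ((1 / 2) ^ D) * ENNReal.ofReal (1 / 2) := h4
    _ ≤ ENNReal.ofReal ((1 / 2) ^ D) * (((2 ^ D : ℕ) : ℝ≥0∞) * P) := by gcongr
    _ = P := by rw [← mul_assoc, h5, one_mul]

end FDr.BX
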