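import Pool.Agent.Lib.MP_e029a2_pr.BX.Conv
import Pool.Agent.Lib.MP_e029a2_pr.BX.Steer
import Pool.Agent.Lib.MP_e029a2_pr.BX.VOne
import Pool.Agent.Lib.MP_e029a2_pr.BX.HOne

/-!
# Lower bounds for the probabilities of boxes (job Box)

`v_box`: `R = 32 D² d`, `t = 256 D⁴ d² = R²/4`.  `steer` with `n = D`, `W = srw D` (`srw_conv`), `hone` = `v_one` (`c = ofReal ((1/2)^(D+1))`), `|g i| ≤ 40 R ≤ R + k d`
because `k ≥ 1280 D²` (`40 R = 1280 D² d`); then `stay` with `r < t`, `q = 3/4`: `PV r {∀ i, |v i| ≤ R} ≥ 1 - r/R² ≥ 3/4` (`srw_far` and `srw_sum`; the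
complement of `{∀ i, |v i| ≤ R}` is `{∃ i, R < |v i|}`).  `j = k t + r` with `r = j - k t < t`.
`h_box`: `steer` with `n = 1` and `W j v = hz w α j (v 0)` (`hc` from `hz_conv` by the equivalence `Equiv.funUnique (Fin 1) ℤ`), `c = ofReal (1/32)`, then
`stay` with `q = 7/8`: for `r < t`: `P(R < |h|) ≤ 1/8` (`h_tail`, `64 w r ≤ 64 w t ≤ ε R²`; `hz_sum`).  `|g| ≤ 40 R ≤ R + k d`.
-/

set_option autoImplicit false

namespace FDr.BX

open MeasureTheory ProbabilityTheory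
open scoped ENNReal

private theorem bx_mono {ι : Type*} {A B : Set ι} (h : A ⊆ B) (f : ι → ℝ≥0∞) :
    ∑' v, A.indicator f v ≤ ∑' v, B.indicator f v :=
  ENNReal.tsum_le_tsum fun v => Set.indicator_le_indicator_of_subset h (fun _ => zero_le) v

private theorem bx_compl {ι : Type*} {f : ι → ℝ≥0∞} (h1 : ∑' v, f v = 1) {A B : Set ι} (hAB : ∀ v, v ∈ A ∨ v ∈ B) {p q : ℝ}
    (hp : 0 ≤ p) (hq : 0 ≤ q) (hpq : p + q ≤ 1) (h : ∑' v, A.indicator f v ≤ ENNReal.ofReal p) :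
    ENNReal.ofReal q ≤ ∑' v, B.indicator f v := by
  by_contra hc
  rw [not_le] at hc
  have h2 : (1 : ℝ≥0∞) ≤ ∑' v, A.indicator f v + ∑' v, B.indicator f v := by
    rw [← h1, ← ENNReal.tsum_add]
    refine ENNReal.tsum_le_tsum fun v => ?_
    rcases hAB v with hv | hv
    · rw [Set.indicator_of_mem hv]
      exact le_self_add
    · rw [Set.indicator_of_mem hv f]
      exact le_add_self
  have h3 : ∑' v, A.indicator f v + ∑' v, B.indicator f v < ENNReal.ofReal p + ENNReal.ofReal q :=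
    ENNReal.add_lt_add_of_le_of_lt (ne_top_of_le_ne_top ENNReal.ofReal_ne_top h) h hc
  rw [← ENNReal.ofReal_add hp hq] at h3
  have h4 : ENNReal.ofReal (p + q) ≤ 1 := ENNReal.ofReal_le_one.2 hpq
  exact absurd (h2.trans_lt (h3.trans_le h4)) (lt_irrefl _)

theorem v_box (D : ℕ) (hD : 1 ≤ D) (d : ℕ) (hd : 1 ≤ d) (k : ℕ) (hk : 1280 * D ^ 2 ≤ k) (j : ℕ)
    (hj1 : k * (256 * D ^ 4 * d ^ 2) ≤ j) (hj2 : j < (k + 1) * (256 * D ^ 4 * d ^ 2)) (g : Fin D → ℤ)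
    (hg : ∀ i, |g i| ≤ 40 * (32 * D ^ 2 * d : ℕ)) :
    ENNReal.ofReal ((1 / 2) ^ ((D + 1) * k) * (3 / 4)) ≤ PV D j {v | ∀ i, |v i - g i| ≤ 2 * (32 * D ^ 2 * d : ℕ)} := by
  have hD2 : 1 ≤ D ^ 2 := Nat.one_le_pow _ _ hD
  obtain ⟨R, hR⟩ : ∃ R : ℕ, R = 32 * D ^ 2 * d := ⟨_, rfl⟩
  obtain ⟨t, ht⟩ : ∃ t : ℕ, t = 256 * D ^ 4 * d ^ 2 := ⟨_, rfl⟩
  have hRt : R ^ 2 = 4 * t := by rw [hR, ht]; ring
  have hdR : d ≤ R := by
    rw [hR]
    exact Nat.le_mul_of_pos_left d (by positivity)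
  have hR1 : 1 ≤ R := hd.trans hdR
  rw [← ht] at hj1 hj2
  rw [← hR] at hg ⊢
  have h0 : srw D 0 0 = 1 := if_pos rfl
  have hone : ∀ s : Fin D → Bool, ENNReal.ofReal ((1 / 2) ^ (D + 1)) ≤
      ∑' v : Fin D → ℤ, {v : Fin D → ℤ | ∀ i, (d : ℤ) ≤ sg (s i) * v i ∧ sg (s i) * v i ≤ R}.indicator (srw D t) v := by
    intro s
    have h := v_one D hD d hd s
    rw [← hR, ← ht] at h
    exact h
  have hgk : ∀ i, |g i| ≤ (R : ℤ) + k * d := by
    intro i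
    refine (hg i).trans ?_
    have h1 : 40 * R ≤ R + k * d := by
      have h2 : 1280 * D ^ 2 * d ≤ k * d := Nat.mul_le_mul_right d hk
      rw [hR]
      calc 40 * (32 * D ^ 2 * d) = 1280 * D ^ 2 * d := by ring
        _ ≤ k * d := h2
        _ ≤ _ := Nat.le_add_left _ _
    exact_mod_cast h1
  have hs := steer (srw D) h0 (srw_conv D) hd hdR hone k g hgk
  obtain ⟨r, hr⟩ : ∃ r, j = k * t + r := ⟨j - k * t, by omega⟩
  have hrt : r < t := by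
    rw [hr] at hj2
    have : (k + 1) * t = k * t + t := by ring
    omega
  have hfar := srw_far D hD r R hR1
  have hq : ENNReal.ofReal (3 / 4) ≤ ∑' v : Fin D → ℤ, {v : Fin D → ℤ | ∀ i, |v i| ≤ R}.indicator (srw D r) v := by
    have hD0 : D ≠ 0 := by omega
    refine bx_compl (srw_sum hD0 r) (A := {v | ∃ i, (R : ℤ) < |v i|}) (p := 1 / 4) (fun v => ?_) (by norm_num) (by norm_num)
      (by norm_num) ?_
    · by_cases h : ∃ i, (R : ℤ) < |v i|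
      · exact Or.inl h
      · right
        intro i
        exact not_lt.1 fun hi => h ⟨i, hi⟩
    · refine hfar.trans (ENNReal.ofReal_le_ofReal ?_)
      rw [div_le_iff₀ (by positivity)]
      have h1 : (R : ℝ) ^ 2 = 4 * t := by exact_mod_cast hRt
      have h2 : (r : ℝ) ≤ t := by exact_mod_cast hrt.le
      rw [h1]
      linarith
  have hst := stay (srw D) (srw_conv D) (j := k * t) (r := r) (R := R) (R' := R) g hs hq
  have he : ENNReal.ofReal ((1 / 2) ^ ((D + 1) * k) * (3 / 4)) =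
      ENNReal.ofReal ((1 / 2) ^ (D + 1)) ^ k * ENNReal.ofReal (3 / 4) := by
    rw [ENNReal.ofReal_mul (by positivity), pow_mul, ENNReal.ofReal_pow (by positivity)]
  rw [he, hr]
  refine hst.trans (bx_mono (fun v hv i => ?_) _)
  rw [two_mul]
  exact hv i

private theorem bx_fu (f : ℤ → ℝ≥0∞) : ∑' v : Fin 1 → ℤ, f (v 0) = ∑' h, f h :=
  (Equiv.funUnique (Fin 1) ℤ).tsum_eq f

private theorem bx_ind (f : ℤ → ℝ≥0∞) (p : ℤ → Prop) {P : (Fin 1 → ℤ) → Prop} (hP : ∀ v, P v ↔ p (v 0)) :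
    ∑' v : Fin 1 → ℤ, {v : Fin 1 → ℤ | P v}.indicator (fun v => f (v 0)) v = ∑' h, {h | p h}.indicator f h := by
  rw [← bx_fu]
  refine tsum_congr fun v => ?_
  by_cases h : p (v 0)
  · rw [Set.indicator_of_mem (show v 0 ∈ {h | p h} from h), Set.indicator_of_mem (show v ∈ {v | P v} from (hP v).2 h)]
  · rw [Set.indicator_of_notMem (show v 0 ∉ {h | p h} from h),
      Set.indicator_of_notMem (show v ∉ {v | P v} from fun h2 => h ((hP v).1 h2))]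

theorem h_box (w α : Set.Ioo (0 : ℝ) 1) {ε : ℝ} (hε : 0 < ε) (hε1 : ε ≤ 1) (hw : (w : ℝ) ≤ 1 - ε) (t d R : ℕ) (hd : 1 ≤ d)
    (hR : 48 ≤ ε * (R : ℝ) ^ 2) (hα : 4 * (α : ℝ) * R ≤ 1) (ht : 64 * (w : ℝ) * t ≤ ε * (R : ℝ) ^ 2)
    (ht2 : 30 * (d : ℝ) ^ 2 ≤ (w : ℝ) * t) (hdR : d ≤ R) (k : ℕ) (hk : 40 * R ≤ R + k * d) (j : ℕ) (hj1 : k * t ≤ j)
    (hj2 : j < (k + 1) * t) (g : ℤ) (hg : |g| ≤ 40 * R) :
    ENNReal.ofReal ((1 / 32) ^ k * (7 / 8)) ≤ PH w α j {h | |h - g| ≤ 2 * R} := by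
  have hw0 : 0 < (w : ℝ) := w.2.1
  have hα0 : 0 < (α : ℝ) := α.2.1
  have hR0 : (0 : ℝ) ≤ R := Nat.cast_nonneg R
  let W : ℕ → (Fin 1 → ℤ) → ℝ≥0∞ := fun j v => hz w α j (v 0)
  have h0 : W 0 0 = 1 := by
    show (if (0 : ℤ) = 0 then (1 : ℝ≥0∞) else 0) = 1
    exact if_pos rfl
  have hc : ∀ i j v, W (i + j) v = ∑' a : Fin 1 → ℤ, W i a * W j (v - a) := by
    intro i j v
    show hz w α (i + j) (v 0) = ∑' a : Fin 1 → ℤ, hz w α i (a 0) * hz w α j (v 0 - a 0)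
    rw [hz_conv, ← bx_fu]
  have hone : ∀ s : Fin 1 → Bool, ENNReal.ofReal (1 / 32) ≤
      ∑' v : Fin 1 → ℤ, {v : Fin 1 → ℤ | ∀ i, (d : ℤ) ≤ sg (s i) * v i ∧ sg (s i) * v i ≤ R}.indicator (W t) v := by
    intro s
    have h := h_one w α hε hε1 hw t d R hd hR hα ht ht2 (s 0)
    have e := bx_ind (hz w α t) (fun h => (d : ℤ) ≤ sg (s 0) * h ∧ sg (s 0) * h ≤ R)
      (P := fun v => ∀ i, (d : ℤ) ≤ sg (s i) * v i ∧ sg (s i) * v i ≤ R) (fun v => Fin.forall_fin_one)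
    rw [e]
    exact h
  have hgk : ∀ i : Fin 1, |(fun _ : Fin 1 => g) i| ≤ (R : ℤ) + k * d := by
    intro i
    refine hg.trans ?_
    exact_mod_cast hk
  have hs := steer W h0 hc hd hdR hone k (fun _ => g) hgk
  obtain ⟨r, hr⟩ : ∃ r, j = k * t + r := ⟨j - k * t, by omega⟩
  have hrt : r < t := by
    rw [hr] at hj2
    have : (k + 1) * t = k * t + t := by ring
    omega
  have hrt' : (r : ℝ) ≤ t := by exact_mod_cast hrt.le
  have hfar := h_tail w α hε hε1 hw r R hR (by nlinarith [mul_nonneg hα0.le hR0])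
    (le_trans (mul_le_mul_of_nonneg_left hrt' (by positivity)) ht)
  have hq : ENNReal.ofReal (7 / 8) ≤ ∑' v : Fin 1 → ℤ, {v : Fin 1 → ℤ | ∀ i, |v i| ≤ R}.indicator (W r) v := by
    rw [bx_ind (hz w α r) (fun h => |h| ≤ (R : ℤ)) (P := fun v => ∀ i, |v i| ≤ (R : ℤ)) (fun v => Fin.forall_fin_one)]
    refine bx_compl (hz_sum w α r) (A := {h | (R : ℤ) < |h|}) (p := 1 / 8) (fun v => ?_) (by norm_num) (by norm_num)
      (by norm_num) hfar
    exact lt_or_ge (R : ℤ) |v|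
  have hst := stay W hc (j := k * t) (r := r) (R := R) (R' := R) (fun _ => g) hs hq
  have he : ENNReal.ofReal ((1 / 32) ^ k * (7 / 8)) = ENNReal.ofReal (1 / 32) ^ k * ENNReal.ofReal (7 / 8) := by
    rw [ENNReal.ofReal_mul (by positivity), ENNReal.ofReal_pow (by positivity)]
  rw [he, hr]
  refine hst.trans ?_
  rw [bx_ind (hz w α (k * t + r)) (fun h => |h - g| ≤ (R : ℤ) + R) (P := fun v => ∀ i, |v i - g| ≤ (R : ℤ) + R)
    (fun v => Fin.forall_fin_one)]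
  refine bx_mono (fun h hv => ?_) _
  show |h - g| ≤ 2 * (R : ℤ)
  rw [two_mul]
  exact hv

end FDr.BX
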