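import Pool.Agent.Lib.MP_e029a2_pr.BX.Def

/-!
# The two walks are semigroups (job Conv)

Induction on `i`.  `srw D (i + 1 + j) v = ∑_d c srw D (i + j) (v - dv d)` (rewrite `i + 1 + j = (i + j) + 1`), by the induction hypothesis
`= ∑_d c ∑'_a srw D i a * srw D j (v - dv d - a)`; the shift `a ↦ a - dv d` (`(Equiv.subRight (dv d)).tsum_eq`) gives
`∑'_a (∑_d c srw D i (a - dv d)) * srw D j (v - a)` (`Summable.tsum_finsetSum`, `ENNReal.summable`, `Finset.sum_mul`).
`i = 0`: `tsum_eq_single 0`.  The same for `hz` with `∑'_k dispP k` instead of `∑_d c` (`ENNReal.tsum_comm`).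
-/

set_option autoImplicit false

namespace FDr.BX

open MeasureTheory ProbabilityTheory
open scoped ENNReal

theorem srw_conv (D i j : ℕ) (v : Fin D → ℤ) : srw D (i + j) v = ∑' a : Fin D → ℤ, srw D i a * srw D j (v - a) := by
  induction i generalizing v with
  | zero =>
    rw [tsum_eq_single (0 : Fin D → ℤ)]
    · rw [Nat.zero_add, sub_zero]
      simp only [srw, if_true, one_mul]
    · intro a ha
      simp only [srw, if_neg ha, zero_mul]
  | succ i ih =>
    rw [show i + 1 + j = (i + j) + 1 by omega]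
    have e1 : srw D (i + j + 1) v = ∑ d : Dir D, (2 * (D : ℝ≥0∞))⁻¹ * srw D (i + j) (v - dv d) := rfl
    have e2 : ∀ d : Dir D, (2 * (D : ℝ≥0∞))⁻¹ * srw D (i + j) (v - dv d) =
        ∑' a : Fin D → ℤ, (2 * (D : ℝ≥0∞))⁻¹ * srw D i (a - dv d) * srw D j (v - a) := by
      intro d
      rw [ih (v - dv d), ← ENNReal.tsum_mul_left, ← (Equiv.subRight (dv d)).tsum_eq]
      refine tsum_congr fun a => ?_
      rw [Equiv.subRight_apply, mul_assoc]
      have e3 : v - dv d - (a - dv d) = v - a := by abel
      rw [e3]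
    rw [e1, Finset.sum_congr rfl fun d _ => e2 d,
      ← Summable.tsum_finsetSum fun d _ => ENNReal.summable]
    refine tsum_congr fun a => ?_
    rw [← Finset.sum_mul]
    rfl

theorem hz_conv (w α : Set.Ioo (0 : ℝ) 1) (i j : ℕ) (h : ℤ) :
    hz w α (i + j) h = ∑' a : ℤ, hz w α i a * hz w α j (h - a) := by
  induction i generalizing h with
  | zero =>
    rw [tsum_eq_single (0 : ℤ)]
    · rw [Nat.zero_add, sub_zero]
      simp only [hz, if_true, one_mul]
    · intro a ha
      simp only [hz, if_neg ha, zero_mul]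
  | succ i ih =>
    rw [show i + 1 + j = (i + j) + 1 by omega]
    have e1 : hz w α (i + j + 1) h = ∑' k : ℤ, dispP w α k * hz w α (i + j) (h - k) := rfl
    have e2 : ∀ k : ℤ, dispP w α k * hz w α (i + j) (h - k) =
        ∑' a : ℤ, dispP w α k * hz w α i (a - k) * hz w α j (h - a) := by
      intro k
      rw [ih (h - k), ← ENNReal.tsum_mul_left, ← (Equiv.subRight k).tsum_eq]
      refine tsum_congr fun a => ?_
      rw [Equiv.subRight_apply, mul_assoc]
      have e3 : h - k - (a - k) = h - a := by ring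
      rw [e3]
    rw [e1, tsum_congr e2, ENNReal.tsum_comm]
    refine tsum_congr fun a => ?_
    rw [ENNReal.tsum_mul_right]
    rfl

end FDr.BX
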