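import Pool.Agent.Lib.MP_e029a2_pr.CB.Cyl

/-!
# Recurrence for a small drift and `w ≤ 1 - ε`: boxes

Blocks: boxes with side `M` along the drift and side `N` in the directions of `ℤ^D`.
A good block: every site near the block is an entry point of one of its growth frogs (all of its frogs with the exception
of one, the return frog).  So good blocks depend on disjoint sets of frogs.
-/

set_option autoImplicit false

namespace FDr.BX

open MeasureTheory ProbabilityTheory
open scoped ENNReal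

variable {D : ℕ}

/-- the sides of the blocks -/
structure Par where
  N : ℕ
  M : ℕ
  N1 : 1 ≤ N
  M1 : 1 ≤ M

/-- the lines of the block `(u, k)` of the orthant of `z` with the signs `s` -/
def Ln (p : Par) (z : Site D) (s : Fin D → Bool) (u : Fin D → ℕ) : Set (Fin D → ℤ) :=
  {v | ∀ i, (p.N : ℤ) * u i ≤ sg (s i) * (v i - z.2 i) ∧ sg (s i) * (v i - z.2 i) < (p.N : ℤ) * (u i + 1)}

/-- the heights of the block `(u, k)` -/
def Hg (p : Par) (z : Site D) (k : ℕ) : Set ℤ := {h | z.1 - ((k : ℤ) + 1) * p.M ≤ h ∧ h < z.1 - (k : ℤ) * p.M}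

/-- the block `(u, k)` -/
def Blk (p : Par) (z : Site D) (s : Fin D → Bool) (u : Fin D → ℕ) (k : ℕ) : Set (Site D) :=
  {x | x.1 ∈ Hg p z k ∧ x.2 ∈ Ln p z s u}

/-- the return frog of the block -/
def rf (p : Par) (z : Site D) (s : Fin D → Bool) (u : Fin D → ℕ) (k : ℕ) : Site D :=
  (z.1 - ((k : ℤ) + 1) * p.M, CO.pt z.2 s fun i => p.N * u i)

/-- the sites near the block -/
def Nr (p : Par) (z : Site D) (s : Fin D → Bool) (u : Fin D → ℕ) (k : ℕ) : Set (Site D) :=
  {y | |y.1 - (z.1 - (k : ℤ) * p.M)| ≤ 3 * p.M ∧ ∀ i, |y.2 i - (z.2 i + sg (s i) * ((p.N : ℤ) * u i))| ≤ 3 * p.N}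

/-- the frog `x` enters a line at `y` -/
def Ht (c : Conf D) (x y : Site D) : Prop := ∃ i : ℕ, ent c x i = y

/-- good blocks -/
def Good (p : Par) (z : Site D) (s : Fin D → Bool) (u : Fin D → ℕ) (k : ℕ) (c : Conf D) : Prop :=
  ∀ y ∈ Nr p z s u k, ∃ x ∈ Blk p z s u k, x ≠ rf p z s u k ∧ Ht c x y

/-- all the frogs of the block are active -/
def AB (p : Par) (z : Site D) (s : Fin D → Bool) (u : Fin D → ℕ) (k : ℕ) (c : Conf D) : Prop :=
  ∀ x ∈ Blk p z s u k, ActC c x

/-- the position after `i` steps of the path with the directions `σ` -/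
def us (σ : ℕ → Fin D) (i : ℕ) : Fin D → ℕ := ∑ t ∈ Finset.range i, Pi.single (σ t) 1

/-- the good blocks of the sheet with the directions `σ` -/
def GB (p : Par) (z : Site D) (s : Fin D → Bool) (σ : ℕ → Fin D) (c : Conf D) (x : ℕ × ℕ) : Prop :=
  Good p z s (us σ x.1) x.2 c

/-- the cells on which a good block depends -/
def cel (p : Par) (z : Site D) (s : Fin D → Bool) (u : Fin D → ℕ) (k : ℕ) : Set (Site D × ℕ) :=
  {q | q.1 ∈ Blk p z s u k ∧ q.1 ≠ rf p z s u k}

/-- the first frog, in its cells `j, j + 1, ...`, enters lines at all the points of the first block -/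
def St (p : Par) (s : Fin D → Bool) (j : ℕ) (c : Conf D) : Prop :=
  ∀ x ∈ Blk p (0 : Site D) s 0 0, ∃ i : ℕ, ∑ t ∈ Finset.range i, cvec (c ((0 : Site D), j + t)) = x

/-- the finite-volume criterion -/
structure FV (w α : Set.Ioo (0 : ℝ) 1) (D : ℕ) [NeZero D] (p : Par) : Prop where
  good : ∀ (z : Site D) (s : Fin D → Bool) (u : Fin D → ℕ) (k : ℕ),
    Q w α D {c | ¬ Good p z s u k c} ≤ ENNReal.ofReal (1 / 100000)

/-! ### Probabilities of sets for the walks -/

/-- the probability that the walk on `ℤ^D` is in `A` after `j` steps -/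
noncomputable def PV (D : ℕ) (j : ℕ) (A : Set (Fin D → ℤ)) : ℝ≥0∞ := ∑' v, A.indicator (srw D j) v

/-- the probability that the height is in `I` after `j` cells -/
noncomputable def PH (w α : Set.Ioo (0 : ℝ) 1) (j : ℕ) (I : Set ℤ) : ℝ≥0∞ := ∑' h, I.indicator (hz w α j) h

/-- the truncated Green function -/
noncomputable def GT (w α : Set.Ioo (0 : ℝ) 1) (D : ℕ) (T : ℕ) (h : ℤ) (v : Fin D → ℤ) : ℝ≥0∞ :=
  ∑ j ∈ Finset.range T, hz w α j h * srw D j v

end FDr.BX
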