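import Pool.Agent.Lib.MP_e029a2_pr.BX.Def

/-!
# Finite blocks and the shift of a block (job Fin)

`blk_fin`: `Blk ⊆ {x | x.1 ∈ Icc a b ∧ ∀ i, x.2 i ∈ Icc (a i) (b i)}` (`sg (s i) = ± 1`).
`nr_fin`, `nr_card`: `Nr` is the product of an interval with `6 M + 1` elements and `D` intervals with `6 N + 1` elements
(`Finset.Icc`, `Fintype.piFinset`, `Fintype.card_piFinset_const`, `Set.ncard_le_ncard`, `Set.ncard_coe_finset`; `Int.card_Icc`).
`hg_shift`: if `p.M = 8 S`, `1 ≤ S`, `|y - (z.1 - k M)| ≤ 3 M` and `g = y - z.1 + k M + 4 S`, then `|g| ≤ 28 S ≤ 40 S` and `|h - g| ≤ 2 S` implies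
`y - h ∈ Hg p z k`  (`y - h = z.1 - k M - 4 S - (h - g)`).
`ln_shift`: if `p.N = 8 R`, `1 ≤ R`, `∀ i, |y i - (z.2 i + sg (s i) (N u i))| ≤ 3 N` and `g i = y i - z.2 i - sg (s i) (N u i + 4 R)`, then `|g i| ≤ 28 R ≤ 40 R` and
`∀ i, |v i - g i| ≤ 2 R` implies `y - v ∈ Ln p z s u`  (`sg (s i) (y i - v i - z.2 i) = N u i + 4 R - sg (s i) (v i - g i)`).
-/

set_option autoImplicit false

namespace FDr.BX

open MeasureTheory ProbabilityTheory
open scoped ENNReal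

private theorem Fin_sg (b : Bool) : sg b = 1 ∨ sg b = -1 := by
  cases b
  · exact Or.inr rfl
  · exact Or.inl rfl

theorem blk_fin {D : ℕ} (p : Par) (z : Site D) (s : Fin D → Bool) (u : Fin D → ℕ) (k : ℕ) : (Blk p z s u k).Finite := by
  classical
  refine (((Finset.Icc (z.1 - ((k : ℤ) + 1) * p.M) (z.1 - (k : ℤ) * p.M)) ×ˢ
    Fintype.piFinset (fun i : Fin D => Finset.Icc (z.2 i - (p.N : ℤ) * (u i + 1)) (z.2 i + (p.N : ℤ) * (u i + 1))) :
      Finset (Site D)).finite_toSet).subset ?_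
  rintro x ⟨⟨h1, h2⟩, h3⟩
  rw [Finset.mem_coe, Finset.mem_product, Finset.mem_Icc, Fintype.mem_piFinset]
  refine ⟨⟨h1, h2.le⟩, fun i => ?_⟩
  rw [Finset.mem_Icc]
  obtain ⟨h4, h5⟩ := h3 i
  have hN : (0 : ℤ) ≤ (p.N : ℤ) * u i := mul_nonneg (Int.natCast_nonneg _) (Int.natCast_nonneg _)
  have hN' : (0 : ℤ) ≤ (p.N : ℤ) * (u i + 1) := by
    have h6 : (0 : ℤ) ≤ (p.N : ℤ) := Int.natCast_nonneg _
    rw [mul_add, mul_one]
    linarith
  rcases Fin_sg (s i) with h6 | h6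
  · rw [h6] at h4 h5
    constructor <;> linarith
  · rw [h6] at h4 h5
    constructor <;> linarith

private theorem Fin_nr {D : ℕ} (p : Par) (z : Site D) (s : Fin D → Bool) (u : Fin D → ℕ) (k : ℕ) :
    ∃ F : Finset (Site D), Nr p z s u k ⊆ F ∧ F.card = (6 * p.M + 1) * (6 * p.N + 1) ^ D := by
  classical
  refine ⟨(Finset.Icc (z.1 - (k : ℤ) * p.M - 3 * p.M) (z.1 - (k : ℤ) * p.M + 3 * p.M)) ×ˢ
    Fintype.piFinset (fun i : Fin D => Finset.Icc (z.2 i + sg (s i) * ((p.N : ℤ) * u i) - 3 * p.N)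
      (z.2 i + sg (s i) * ((p.N : ℤ) * u i) + 3 * p.N)), ?_, ?_⟩
  · rintro y ⟨h1, h2⟩
    rw [Finset.mem_coe, Finset.mem_product, Finset.mem_Icc, Fintype.mem_piFinset]
    rw [abs_le] at h1
    refine ⟨⟨by linarith [h1.1], by linarith [h1.2]⟩, fun i => ?_⟩
    rw [Finset.mem_Icc]
    have h3 := h2 i
    rw [abs_le] at h3
    exact ⟨by linarith [h3.1], by linarith [h3.2]⟩
  · rw [Finset.card_product, Fintype.card_piFinset, Int.card_Icc]
    have h1 : ∀ i : Fin D, (Finset.Icc (z.2 i + sg (s i) * ((p.N : ℤ) * u i) - 3 * p.N)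
      (z.2 i + sg (s i) * ((p.N : ℤ) * u i) + 3 * p.N)).card = 6 * p.N + 1 := by
      intro i
      rw [Int.card_Icc]
      have h2 : z.2 i + sg (s i) * ((p.N : ℤ) * u i) + 3 * p.N + 1 - (z.2 i + sg (s i) * ((p.N : ℤ) * u i) - 3 * p.N) =
          ((6 * p.N + 1 : ℕ) : ℤ) := by
        push_cast
        ring
      rw [h2, Int.toNat_natCast]
    have h3 : z.1 - (k : ℤ) * p.M + 3 * p.M + 1 - (z.1 - (k : ℤ) * p.M - 3 * p.M) = ((6 * p.M + 1 : ℕ) : ℤ) := by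
      push_cast
      ring
    rw [h3, Int.toNat_natCast, Finset.prod_congr rfl fun i _ => h1 i, Finset.prod_const, Finset.card_univ, Fintype.card_fin]

theorem nr_fin {D : ℕ} (p : Par) (z : Site D) (s : Fin D → Bool) (u : Fin D → ℕ) (k : ℕ) : (Nr p z s u k).Finite := by
  obtain ⟨F, h1, -⟩ := Fin_nr p z s u k
  exact F.finite_toSet.subset h1

theorem nr_card {D : ℕ} (p : Par) (z : Site D) (s : Fin D → Bool) (u : Fin D → ℕ) (k : ℕ) :
    (Nr p z s u k).ncard ≤ (6 * p.M + 1) * (6 * p.N + 1) ^ D := by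
  obtain ⟨F, h1, h2⟩ := Fin_nr p z s u k
  rw [← h2, ← Set.ncard_coe_finset]
  exact Set.ncard_le_ncard h1 F.finite_toSet

theorem hg_shift {D : ℕ} (p : Par) (z : Site D) (k : ℕ) {S : ℕ} (hS : 1 ≤ S) (hM : p.M = 8 * S) {y : ℤ}
    (hy : |y - (z.1 - (k : ℤ) * p.M)| ≤ 3 * p.M) :
    ∃ g : ℤ, |g| ≤ 40 * S ∧ ∀ h : ℤ, |h - g| ≤ 2 * S → y - h ∈ Hg p z k := by
  have hM' : (p.M : ℤ) = 8 * S := by exact_mod_cast hM
  have hS' : (1 : ℤ) ≤ S := by exact_mod_cast hS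
  rw [abs_le] at hy
  obtain ⟨h1, h2⟩ := hy
  refine ⟨y - z.1 + k * p.M + 4 * S, ?_, fun h hh => ?_⟩
  · rw [abs_le]
    constructor <;> linarith
  · rw [abs_le] at hh
    obtain ⟨h3, h4⟩ := hh
    show z.1 - ((k : ℤ) + 1) * p.M ≤ y - h ∧ y - h < z.1 - (k : ℤ) * p.M
    rw [add_mul, one_mul]
    constructor <;> linarith

theorem ln_shift {D : ℕ} (p : Par) (z : Site D) (s : Fin D → Bool) (u : Fin D → ℕ) {R : ℕ} (hR : 1 ≤ R) (hN : p.N = 8 * R)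
    {y : Fin D → ℤ} (hy : ∀ i, |y i - (z.2 i + sg (s i) * ((p.N : ℤ) * u i))| ≤ 3 * p.N) :
    ∃ g : Fin D → ℤ, (∀ i, |g i| ≤ 40 * R) ∧ ∀ v : Fin D → ℤ, (∀ i, |v i - g i| ≤ 2 * R) → y - v ∈ Ln p z s u := by
  have hN' : (p.N : ℤ) = 8 * R := by exact_mod_cast hN
  have hR' : (1 : ℤ) ≤ R := by exact_mod_cast hR
  refine ⟨fun i => y i - z.2 i - sg (s i) * ((p.N : ℤ) * u i + 4 * R), fun i => ?_, fun v hv i => ?_⟩
  · have h1 := hy i
    rw [abs_le] at h1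
    rw [abs_le]
    obtain ⟨h2, h3⟩ := h1
    show -(40 * (R : ℤ)) ≤ y i - z.2 i - sg (s i) * ((p.N : ℤ) * u i + 4 * R) ∧
      y i - z.2 i - sg (s i) * ((p.N : ℤ) * u i + 4 * R) ≤ 40 * (R : ℤ)
    rcases Fin_sg (s i) with h6 | h6
    · rw [h6] at h2 h3 ⊢
      constructor <;> linarith
    · rw [h6] at h2 h3 ⊢
      constructor <;> linarith
  · have h1 := hv i
    simp only at h1
    rw [abs_le] at h1
    obtain ⟨h2, h3⟩ := h1
    rw [Pi.sub_apply, mul_add, mul_one]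
    rcases Fin_sg (s i) with h6 | h6
    · rw [h6] at h2 h3 ⊢
      constructor <;> linarith
    · rw [h6] at h2 h3 ⊢
      constructor <;> linarith

end FDr.BX
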