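import Pool.Agent.Lib.MP_e029a2_pr.BX.Def
import Pool.Agent.Lib.MP_e029a2_pr.CO.Slab

/-!
# The truncated Green function at zero (job GTz)

`hz w α j 0 ≤ 1` (`hz_sum`, file G2), `srw D j 0 ≤ CO.slMg D i j 0 = ofReal (CO.slR D i j 0) ≤ ofReal (2/√(j/D))` for `j ≥ 1` and `i = ⟨0, hD⟩`
(`CO.slMg_eq`, `CO.slR_le`, `CO/Slab.lean`; one term of the sum `slMg`), `srw D 0 0 = 1`.  So
`GT w α D T 0 0 ≤ 1 + ∑_{1 ≤ j < T} 2 √D/√j ≤ 1 + 4 √D √T` (`∑_{1 ≤ j < T} 1/√j ≤ 2 √T`: induction, `1/√j ≤ 2 (√j - √(j-1))`).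
-/

set_option autoImplicit false

namespace FDr.BX

open MeasureTheory ProbabilityTheory
open scoped ENNReal

private theorem gz_term (w α : Set.Ioo (0 : ℝ) 1) (D : ℕ) (hD : 1 ≤ D) (n : ℕ) :
    hz w α (n + 1) 0 * srw D (n + 1) 0 ≤
      ENNReal.ofReal (4 * Real.sqrt D * (Real.sqrt ((n : ℝ) + 1) - Real.sqrt n)) := by
  have h1 : hz w α (n + 1) 0 ≤ 1 := by
    rw [← hz_sum w α (n + 1)]
    exact ENNReal.le_tsum 0
  have h2 : srw D (n + 1) 0 ≤ CO.slMg D ⟨0, hD⟩ (n + 1) 0 := by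
    unfold CO.slMg
    refine le_trans ?_ (ENNReal.le_tsum (0 : Fin D → ℤ))
    rw [Pi.zero_apply, if_pos rfl]
  have h3 : CO.slMg D ⟨0, hD⟩ (n + 1) 0 ≤ ENNReal.ofReal (2 / Real.sqrt (((n + 1 : ℕ) : ℝ) / D)) := by
    rw [CO.slMg_eq D hD]
    exact ENNReal.ofReal_le_ofReal (CO.slR_le D hD _ (n + 1) (by omega) _)
  calc hz w α (n + 1) 0 * srw D (n + 1) 0 ≤ 1 * srw D (n + 1) 0 := by gcongr
    _ = srw D (n + 1) 0 := one_mul _
    _ ≤ _ := h2.trans (h3.trans (ENNReal.ofReal_le_ofReal ?_))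
  have hD0 : (0 : ℝ) < D := by exact_mod_cast hD
  have hn : (0 : ℝ) ≤ n := Nat.cast_nonneg n
  obtain ⟨x, hx⟩ : ∃ x, x = Real.sqrt ((n : ℝ) + 1) := ⟨_, rfl⟩
  obtain ⟨y, hy⟩ : ∃ y, y = Real.sqrt (n : ℝ) := ⟨_, rfl⟩
  have hx2 : x ^ 2 = (n : ℝ) + 1 := by rw [hx, Real.sq_sqrt (by positivity)]
  have hy2 : y ^ 2 = (n : ℝ) := by rw [hy, Real.sq_sqrt hn]
  have hx0 : 0 < x := by rw [hx]; positivity
  have hy0 : 0 ≤ y := by rw [hy]; positivity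
  rw [Nat.cast_add, Nat.cast_one, Real.sqrt_div (by positivity), ← hx, ← hy, div_div_eq_mul_div, div_le_iff₀ hx0]
  have hs : 0 ≤ Real.sqrt (D : ℝ) := Real.sqrt_nonneg _
  have h5 : 1 ≤ 2 * (x - y) * x := by nlinarith [sq_nonneg (x - y)]
  nlinarith [mul_le_mul_of_nonneg_left h5 hs]

private theorem gz_ind (w α : Set.Ioo (0 : ℝ) 1) (D : ℕ) (hD : 1 ≤ D) (n : ℕ) :
    GT w α D (n + 1) 0 0 ≤ ENNReal.ofReal (1 + 4 * Real.sqrt D * Real.sqrt n) := by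
  induction n with
  | zero =>
    unfold GT
    rw [Finset.sum_range_one]
    simp [hz, srw]
  | succ n ih =>
    have h1 : GT w α D (n + 1 + 1) 0 0 = GT w α D (n + 1) 0 0 + hz w α (n + 1) 0 * srw D (n + 1) 0 := by
      unfold GT
      rw [Finset.sum_range_succ]
    rw [h1]
    refine (add_le_add ih (gz_term w α D hD n)).trans ?_
    have h2 : Real.sqrt (n : ℝ) ≤ Real.sqrt ((n : ℝ) + 1) := Real.sqrt_le_sqrt (by linarith)
    rw [← ENNReal.ofReal_add (by positivity) (mul_nonneg (by positivity) (by linarith))]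
    refine ENNReal.ofReal_le_ofReal (le_of_eq ?_)
    push_cast
    ring

theorem gt_zero_le (w α : Set.Ioo (0 : ℝ) 1) (D : ℕ) (hD : 1 ≤ D) (T : ℕ) :
    GT w α D T 0 0 ≤ ENNReal.ofReal (1 + 4 * Real.sqrt D * Real.sqrt T) := by
  cases T with
  | zero => simp [GT]
  | succ n =>
    refine (gz_ind w α D hD n).trans (ENNReal.ofReal_le_ofReal ?_)
    have h2 : Real.sqrt (n : ℝ) ≤ Real.sqrt ((n + 1 : ℕ) : ℝ) := Real.sqrt_le_sqrt (by push_cast; linarith)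
    have h3 : 0 ≤ Real.sqrt (D : ℝ) := Real.sqrt_nonneg _
    nlinarith [mul_le_mul_of_nonneg_left h2 h3]

end FDr.BX
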