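import Pool.Agent.Lib.MP_e029a2_pr.BX.Def

/-!
# Boxes: geometry
-/

set_option autoImplicit false

namespace FDr.BX

open MeasureTheory ProbabilityTheory
open scoped ENNReal

variable {D : ℕ}

/-! ### The sheet -/

theorem us_zero (σ : ℕ → Fin D) : us σ 0 = 0 := Finset.sum_range_zero _

theorem us_succ (σ : ℕ → Fin D) (i : ℕ) : us σ (i + 1) = us σ i + Pi.single (σ i) 1 := Finset.sum_range_succ _ _

theorem us_sum (σ : ℕ → Fin D) (i : ℕ) : ∑ l, us σ i l = i := by
  induction i with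
  | zero =>
    rw [us_zero]
    simp
  | succ i ih =>
    rw [us_succ]
    simp only [Pi.add_apply]
    rw [Finset.sum_add_distrib, ih, Finset.sum_pi_single', if_pos (Finset.mem_univ _)]

theorem us_congr {σ σ' : ℕ → Fin D} {n : ℕ} (h : ∀ t < n, σ t = σ' t) : us σ n = us σ' n := by
  unfold us
  exact Finset.sum_congr rfl fun t ht => by rw [h t (Finset.mem_range.1 ht)]

theorem exists_us (hD : 1 ≤ D) : ∀ (n : ℕ) (u : Fin D → ℕ), ∑ i, u i = n → ∃ σ : ℕ → Fin D, us σ n = u := by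
  intro n
  induction n with
  | zero =>
    intro u hu
    refine ⟨fun _ => ⟨0, hD⟩, ?_⟩
    rw [us_zero]
    funext i
    exact ((Finset.sum_eq_zero_iff.1 hu) i (Finset.mem_univ i)).symm
  | succ n ih =>
    intro u hu
    obtain ⟨i, hi⟩ : ∃ i, u i ≠ 0 := by
      by_contra h
      push Not at h
      rw [Finset.sum_eq_zero fun i _ => h i] at hu
      omega
    have hs : ∑ j, Function.update u i (u i - 1) j = n := by
      have h1 := Finset.sum_update_of_mem (Finset.mem_univ i) u (u i - 1)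
      have h2 := Finset.add_sum_erase Finset.univ u (Finset.mem_univ i)
      rw [h1]
      rw [Finset.sdiff_singleton_eq_erase]
      omega
    obtain ⟨σ, hσ⟩ := ih _ hs
    refine ⟨fun t => if t < n then σ t else i, ?_⟩
    rw [us_succ]
    have h3 : us (fun t => if t < n then σ t else i) n = us σ n := us_congr fun t ht => if_pos ht
    rw [h3, hσ, if_neg (lt_irrefl n)]
    funext j
    rw [Pi.add_apply]
    by_cases hj : j = i
    · subst hj
      rw [Function.update_self, Pi.single_eq_same]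
      omega
    · rw [Function.update_of_ne hj, Pi.single_eq_of_ne hj, add_zero]

/-- the directions of a path to `u` -/
noncomputable def sgm [NeZero D] (u : Fin D → ℕ) : ℕ → Fin D := (exists_us NeZero.one_le (∑ i, u i) u rfl).choose

theorem sgm_spec [NeZero D] (u : Fin D → ℕ) : us (sgm u) (∑ i, u i) = u :=
  (exists_us NeZero.one_le (∑ i, u i) u rfl).choose_spec

theorem us_step (σ : ℕ → Fin D) (i : ℕ) (l : Fin D) : us σ i l ≤ us σ (i + 1) l ∧ us σ (i + 1) l ≤ us σ i l + 1 := by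
  rw [us_succ, Pi.add_apply]
  by_cases h : l = σ i
  · subst h
    rw [Pi.single_eq_same]
    omega
  · rw [Pi.single_eq_of_ne h]
    omega

/-! ### The blocks -/

theorem rf_mem (p : Par) (z : Site D) (s : Fin D → Bool) (u : Fin D → ℕ) (k : ℕ) : rf p z s u k ∈ Blk p z s u k := by
  have hM : (1 : ℤ) ≤ p.M := by exact_mod_cast p.M1
  have hN : (1 : ℤ) ≤ p.N := by exact_mod_cast p.N1
  refine ⟨⟨le_rfl, ?_⟩, fun i => ?_⟩
  · show z.1 - ((k : ℤ) + 1) * p.M < z.1 - (k : ℤ) * p.M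
    linarith
  · have h1 : (rf p z s u k).2 i - z.2 i = sg (s i) * ((p.N * u i : ℕ) : ℤ) := by
      show z.2 i + sg (s i) * ((p.N * u i : ℕ) : ℤ) - z.2 i = _
      ring
    rw [h1, ← mul_assoc, CO.sg_mul_sg, one_mul]
    push_cast
    constructor
    · exact le_rfl
    · linarith

theorem blk_eq (p : Par) {z : Site D} {s : Fin D → Bool} {u u' : Fin D → ℕ} {k k' : ℕ} {x : Site D}
    (h : x ∈ Blk p z s u k) (h' : x ∈ Blk p z s u' k') : u = u' ∧ k = k' := by
  have hM : (1 : ℤ) ≤ p.M := by exact_mod_cast p.M1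
  have hN : (1 : ℤ) ≤ p.N := by exact_mod_cast p.N1
  constructor
  · funext i
    obtain ⟨h1, h2⟩ := h.2 i
    obtain ⟨h3, h4⟩ := h'.2 i
    have h5 : (p.N : ℤ) * u i < (p.N : ℤ) * (u' i + 1) := lt_of_le_of_lt h1 h4
    have h6 : (p.N : ℤ) * u' i < (p.N : ℤ) * (u i + 1) := lt_of_le_of_lt h3 h2
    have h7 : (u i : ℤ) < u' i + 1 := lt_of_mul_lt_mul_left h5 (by linarith)
    have h8 : (u' i : ℤ) < u i + 1 := lt_of_mul_lt_mul_left h6 (by linarith)
    omega
  · obtain ⟨h1, h2⟩ := h.1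
    obtain ⟨h3, h4⟩ := h'.1
    have h5 : (k' : ℤ) * p.M < ((k : ℤ) + 1) * p.M := by linarith
    have h6 : (k : ℤ) * p.M < ((k' : ℤ) + 1) * p.M := by linarith
    have h7 : (k' : ℤ) < k + 1 := lt_of_mul_lt_mul_right h5 (by linarith)
    have h8 : (k : ℤ) < k' + 1 := lt_of_mul_lt_mul_right h6 (by linarith)
    omega

theorem blk_or (p : Par) {z : Site D} {s : Fin D → Bool} {u : Fin D → ℕ} {k : ℕ} {x : Site D}
    (h : x ∈ Blk p z s u k) : x.2 ∈ CO.Or z.2 s := by
  refine CO.pt_range z.2 s x.2 fun i => ?_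
  have h1 := (h.2 i).1
  have h2 : (0 : ℤ) ≤ (p.N : ℤ) * u i := by positivity
  linarith

theorem rf_inj (p : Par) {z : Site D} {s : Fin D → Bool} {u u' : Fin D → ℕ} {k k' : ℕ}
    (h : rf p z s u k = rf p z s u' k') : u = u' ∧ k = k' :=
  blk_eq p (rf_mem p z s u k) (h ▸ rf_mem p z s u' k')

/-- blocks with neighbouring coordinates are near -/
theorem blk_near (p : Par) {z : Site D} {s : Fin D → Bool} {u u' : Fin D → ℕ} {k k' : ℕ}
    (hu : ∀ i, u i ≤ u' i + 1 ∧ u' i ≤ u i + 1) (hk : k ≤ k' + 1 ∧ k' ≤ k + 1) {y : Site D}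
    (h : y ∈ Blk p z s u' k') : y ∈ Nr p z s u k := by
  have hM : (0 : ℤ) ≤ p.M := Int.natCast_nonneg _
  have hN : (0 : ℤ) ≤ p.N := Int.natCast_nonneg _
  constructor
  · obtain ⟨h1, h2⟩ := h.1
    have h3 : (k : ℤ) * p.M ≤ ((k' : ℤ) + 1) * p.M := mul_le_mul_of_nonneg_right (by exact_mod_cast hk.1) hM
    have h4 : (k' : ℤ) * p.M ≤ ((k : ℤ) + 1) * p.M := mul_le_mul_of_nonneg_right (by exact_mod_cast hk.2) hM
    rw [abs_le]
    constructor <;> linarith
  · intro i
    obtain ⟨h1, h2⟩ := h.2 i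
    have h3 : (p.N : ℤ) * u i ≤ (p.N : ℤ) * (u' i + 1) := mul_le_mul_of_nonneg_left (by exact_mod_cast (hu i).1) hN
    have h4 : (p.N : ℤ) * u' i ≤ (p.N : ℤ) * (u i + 1) := mul_le_mul_of_nonneg_left (by exact_mod_cast (hu i).2) hN
    have h5 : |y.2 i - (z.2 i + sg (s i) * ((p.N : ℤ) * u i))| = |sg (s i) * (y.2 i - z.2 i) - (p.N : ℤ) * u i| := by
      have h6 : y.2 i - (z.2 i + sg (s i) * ((p.N : ℤ) * u i)) =
          sg (s i) * (sg (s i) * (y.2 i - z.2 i) - (p.N : ℤ) * u i) := by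
        have h7 := CO.sg_mul_sg (s i)
        calc y.2 i - (z.2 i + sg (s i) * ((p.N : ℤ) * u i)) = 1 * (y.2 i - z.2 i) - sg (s i) * ((p.N : ℤ) * u i) := by ring
          _ = _ := by
            rw [← h7]
            ring
      rw [h6, abs_mul]
      have h8 : |sg (s i)| = 1 := by cases s i <;> rfl
      rw [h8, one_mul]
    rw [h5, abs_le]
    constructor <;> linarith

theorem blk_adj (p : Par) {z : Site D} {s : Fin D → Bool} (σ : ℕ → Fin D) {x y : ℕ × ℕ} (h : CO.Adj x y) {q : Site D}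
    (hq : q ∈ Blk p z s (us σ y.1) y.2) : q ∈ Nr p z s (us σ x.1) x.2 := by
  rcases h with ⟨h1, h2⟩ | ⟨h1, h2⟩
  · rw [← h1] at hq
    refine blk_near p (fun i => ⟨by omega, by omega⟩) ?_ hq
    rcases h2 with h2 | h2 <;> constructor <;> omega
  · rw [← h1] at hq
    refine blk_near p (fun i => ?_) ⟨by omega, by omega⟩ hq
    rcases h2 with h2 | h2
    · rw [h2]
      have h3 := us_step σ y.1 i
      omega
    · rw [h2]
      have h3 := us_step σ x.1 i
      omega

/-! ### Growth -/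

theorem act_ent {c : Conf D} {x : Site D} (hx : ActC c x) (i : ℕ) : ActC c (ent c x i) := by
  have h3 := ActC.visit x i 0 hx ⟨0, Nat.zero_le _, by simp [dsp]⟩
  have h4 : ((0 : ℤ), (0 : Fin D → ℤ)) = 0 := rfl
  rwa [h4, add_zero] at h3

theorem ab_near (p : Par) {z : Site D} {s : Fin D → Bool} {u : Fin D → ℕ} {k : ℕ} {c : Conf D} (h : AB p z s u k c)
    (hg : Good p z s u k c) {y : Site D} (hy : y ∈ Nr p z s u k) : ActC c y := by
  obtain ⟨x, hx, _, i, hi⟩ := hg y hy
  rw [← hi]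
  exact act_ent (h x hx) i

theorem ab_conn (p : Par) {z : Site D} {s : Fin D → Bool} {σ : ℕ → Fin D} {c : Conf D} {x y : ℕ × ℕ}
    (hxy : CO.Conn (GB p z s σ c) x y) (h : AB p z s (us σ x.1) x.2 c) : AB p z s (us σ y.1) y.2 c := by
  induction hxy with
  | refl _ => exact h
  | step y w h1 h2 _ ih => exact fun q hq => ab_near p ih h1.right (blk_adj p σ h2 hq)

/-- **The start.** -/
theorem ab_start (p : Par) {c : Conf D} {j : ℕ} {z : Site D} {s : Fin D → Bool} (hz : ent c 0 j = z)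
    (hs : St p s j c) : AB p z s 0 0 c := by
  intro x hx
  have h1 : x - z ∈ Blk p (0 : Site D) s 0 0 := by
    refine ⟨?_, fun i => ?_⟩
    · obtain ⟨h1, h2⟩ := hx.1
      refine ⟨?_, ?_⟩
      · show (0 : ℤ) - (((0 : ℕ) : ℤ) + 1) * p.M ≤ x.1 - z.1
        linarith
      · show x.1 - z.1 < (0 : ℤ) - ((0 : ℕ) : ℤ) * p.M
        linarith
    · have h2 := hx.2 i
      have h3 : (x - z).2 i - (0 : Site D).2 i = x.2 i - z.2 i := by
        show x.2 i - z.2 i - 0 = x.2 i - z.2 i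
        ring
      rw [h3]
      exact h2
  obtain ⟨i, hi⟩ := hs _ h1
  have h2 : ent c 0 (j + i) = x := by
    have h3 := ent_add c 0 j i
    rw [h3, hz, hi]
    abel
  rw [← h2]
  exact act_ent ActC.start _

end FDr.BX
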