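import Pool.Agent.Lib.MP_e029a2_pr.BX.Def
import Pool.Agent.Lib.MP_e029a2_pr.ZTerm

/-!
# The probability that a frog enters a line at a given point (job Hit)

The truncated second moment method; compare `E_N0`, `E_N0_sq` (files SFirst, SN0) and `CO.vs_prob` (`CO/Ret.lean`), the same without truncation.
Let `F i c = 1{ent c x i = y}` and `N = ∑_{i < T} F i`.  `∫ F i = hz w α i (y.1 - x.1) * srw D i (y.2 - x.2)` (`Q_sum` with `j = 0`:
`ent c x i = x + ∑_{t < i} cvec (c (x, t))`, so `ent c x i = y` iff the sum is `y - x`), so `∫ N = GT w α D T (y.1 - x.1) (y.2 - x.2)`.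
`N² ≤ 2 ∑_{i < T} ∑_{e < T} F i F (i+e)` (`tsum_sq_sn0` applied to the sequence `F i` for `i < T`, 0 otherwise; or directly).  `F i = 1` and `F (i+e) = 1` iff
`ent c x i = y` and `∑_{t < e} cvec (c (x, i + t)) = 0`; these depend on disjoint sets of cells, so by `prob_and_dep`, `Q_sum`
`∫ F i F (i+e) = (hz i (y.1 - x.1) srw i (y.2 - x.2)) * (hz e 0 * srw e 0)`; so `∫ N² ≤ 2 GT (y - x) · GT 0`.
`cs` (file ZTerm, Cauchy-Schwarz): `(∫ N)² ≤ (∫ N²) Q {N ≠ 0}`, and `{N ≠ 0} ⊆ {Ht c x y}`.  Divide as in the proof of `CO.vs_prob` (`GT ... ≠ ⊤`: finite sums of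
numbers `≤ 1`: `hz ≤ 1` by `hz_sum`, `srw ≤ 1` by `CO.srw_le_one_ret`; `GT 0 0 ≥ 1` if `T ≥ 1`).
-/

set_option autoImplicit false

namespace FDr.BX

open MeasureTheory ProbabilityTheory
open scoped ENNReal

private theorem hit_sq (F : ℕ → ℝ≥0∞) (T : ℕ) : (∑ i ∈ Finset.range T, F i) * (∑ i ∈ Finset.range T, F i) ≤
    2 * ∑ i ∈ Finset.range T, ∑ e ∈ Finset.range T, F i * F (i + e) := by
  obtain ⟨G, hGd⟩ : ∃ G : ℕ → ℝ≥0∞, ∀ i, G i = if i < T then F i else 0 := ⟨_, fun _ => rfl⟩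
  have hG : ∀ i, T ≤ i → G i = 0 := fun i hi => by rw [hGd, if_neg (not_lt.2 hi)]
  have hG' : ∀ i, G i ≤ F i := by
    intro i
    rw [hGd]
    split_ifs
    · exact le_rfl
    · exact zero_le
  have h1 := tsum_sq_sn0 G
  have h2 : ∑' i, G i = ∑ i ∈ Finset.range T, F i := by
    rw [tsum_eq_sum (s := Finset.range T) fun i hi => hG i (by rw [Finset.mem_range, not_lt] at hi; exact hi)]
    exact Finset.sum_congr rfl fun i hi => by rw [hGd, if_pos (Finset.mem_range.1 hi)]
  have h3 : ∑' i, ∑' d, G i * G (i + d) = ∑ i ∈ Finset.range T, ∑ e ∈ Finset.range T, G i * G (i + e) := by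
    rw [tsum_eq_sum (s := Finset.range T) (f := fun i => ∑' d, G i * G (i + d))]
    · refine Finset.sum_congr rfl fun i _ => ?_
      rw [tsum_eq_sum (s := Finset.range T) (f := fun d => G i * G (i + d))]
      intro d hd
      rw [Finset.mem_range, not_lt] at hd
      rw [hG (i + d) (by omega), mul_zero]
    · intro i hi
      rw [Finset.mem_range, not_lt] at hi
      rw [ENNReal.tsum_eq_zero]
      intro d
      rw [hG i hi, zero_mul]
  rw [h2, h3] at h1
  refine h1.trans (mul_le_mul_right ?_ _)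
  exact Finset.sum_le_sum fun i _ => Finset.sum_le_sum fun e _ => mul_le_mul' (hG' i) (hG' (i + e))

private theorem hit_ent_dep {D : ℕ} (x y : Site D) (i : ℕ) :
    Dep ((fun t => ((x, t) : Site D × ℕ)) '' Set.Iio i) fun c : Conf D => ent c x i = y := by
  intro c c' hc
  have h2 : ent c x i = ent c' x i := by
    unfold ent
    congr 1
    exact Finset.sum_congr rfl fun t ht => by rw [hc (x, t) ⟨t, Finset.mem_range.1 ht, rfl⟩]
  show (ent c x i = y) = (ent c' x i = y)
  rw [h2]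

private theorem hit_ent_meas {D : ℕ} [NeZero D] (x y : Site D) (i : ℕ) :
    MeasurableSet {c : Conf D | ent c x i = y} :=
  Dep.measurableSet ((Set.finite_Iio i).image fun t => (x, t)) (hit_ent_dep x y i)

theorem ht_meas {D : ℕ} [NeZero D] (x y : Site D) : MeasurableSet {c : Conf D | Ht c x y} := by
  have h1 : {c : Conf D | Ht c x y} = ⋃ i : ℕ, {c | ent c x i = y} := by
    ext c
    rw [Set.mem_iUnion]
    rfl
  rw [h1]
  exact MeasurableSet.iUnion fun i => hit_ent_meas x y i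

theorem ht_dep {D : ℕ} (x y : Site D) : Dep {q : Site D × ℕ | q.1 = x} fun c : Conf D => Ht c x y := by
  intro c c' hc
  unfold Ht
  refine propext (exists_congr fun i => ?_)
  have h1 : ent c x i = ent c' x i := by
    unfold ent
    congr 1
    exact Finset.sum_congr rfl fun t _ => by rw [hc (x, t) rfl]
  rw [h1]

private theorem hit_ent_iff {D : ℕ} (c : Conf D) (x y : Site D) (i : ℕ) :
    ent c x i = y ↔ ∑ t ∈ Finset.range i, cvec (c (x, 0 + t)) = y - x := by
  have h1 : ∑ t ∈ Finset.range i, cvec (c (x, 0 + t)) = ∑ t ∈ Finset.range i, cvec (c (x, t)) :=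
    Finset.sum_congr rfl fun t _ => by rw [Nat.zero_add]
  rw [h1]
  unfold ent
  exact eq_sub_iff_add_eq'.symm

private theorem hit_one (w α : Set.Ioo (0 : ℝ) 1) {D : ℕ} [NeZero D] (x y : Site D) (i : ℕ) :
    Q w α D {c | ent c x i = y} = hz w α i (y.1 - x.1) * srw D i (y.2 - x.2) := by
  have h1 : {c : Conf D | ent c x i = y} = {c | ∑ t ∈ Finset.range i, cvec (c (x, 0 + t)) = y - x} := by
    ext c
    exact hit_ent_iff c x y i
  rw [h1, Q_sum w α x 0 i (y - x)]
  rfl

private theorem hit_sum_dep {D : ℕ} (x z : Site D) (i e : ℕ) :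
    Dep ((fun t => ((x, i + t) : Site D × ℕ)) '' Set.Iio e)
      fun c : Conf D => ∑ t ∈ Finset.range e, cvec (c (x, i + t)) = z := by
  intro c c' hc
  have h2 : ∑ t ∈ Finset.range e, cvec (c (x, i + t)) = ∑ t ∈ Finset.range e, cvec (c' (x, i + t)) :=
    Finset.sum_congr rfl fun t ht => by rw [hc (x, i + t) ⟨t, Finset.mem_range.1 ht, rfl⟩]
  show (∑ t ∈ Finset.range e, cvec (c (x, i + t)) = z) = (∑ t ∈ Finset.range e, cvec (c' (x, i + t)) = z)
  rw [h2]

private theorem hit_two (w α : Set.Ioo (0 : ℝ) 1) {D : ℕ} [NeZero D] (x y : Site D) (i e : ℕ) :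
    Q w α D {c | ent c x i = y ∧ ent c x (i + e) = y} =
      (hz w α i (y.1 - x.1) * srw D i (y.2 - x.2)) * (hz w α e 0 * srw D e 0) := by
  have h1 : {c : Conf D | ent c x i = y ∧ ent c x (i + e) = y} =
      {c | ent c x i = y ∧ ∑ t ∈ Finset.range e, cvec (c (x, i + t)) = 0} := by
    ext c
    have h2 : ent c x (i + e) = ent c x i + ∑ t ∈ Finset.range e, cvec (c (x, i + t)) := by
      unfold ent
      rw [Finset.sum_range_add, add_assoc]
    show (ent c x i = y ∧ ent c x (i + e) = y) ↔ (ent c x i = y ∧ ∑ t ∈ Finset.range e, cvec (c (x, i + t)) = 0)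
    refine and_congr_right fun h3 => ?_
    rw [h2, h3]
    exact add_eq_left
  have hdis : Disjoint ((fun t => ((x, t) : Site D × ℕ)) '' Set.Iio i) ((fun t => ((x, i + t) : Site D × ℕ)) '' Set.Iio e) := by
    rw [Set.disjoint_left]
    rintro _ ⟨t, ht, rfl⟩ ⟨t', _, h⟩
    have h3 : i + t' = t := congrArg Prod.snd h
    have h4 : t < i := ht
    omega
  have h2 := prob_and_dep (cellLaw w α D) hdis (hit_ent_meas x y i)
    (Dep.measurableSet ((Set.finite_Iio e).image fun t => (x, i + t)) (hit_sum_dep x 0 i e))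
    (hit_ent_dep x y i) (hit_sum_dep x 0 i e)
  have h3 := hit_one w α x y i
  have h4 := Q_sum w α x i e 0
  rw [h1]
  unfold Q at h3 h4 ⊢
  rw [h2, h3, h4]
  rfl

private theorem hz_le_one (w α : Set.Ioo (0 : ℝ) 1) (j : ℕ) (h : ℤ) : hz w α j h ≤ 1 := by
  rw [← hz_sum w α j]
  exact ENNReal.le_tsum h

private theorem GT_ne_top (w α : Set.Ioo (0 : ℝ) 1) (D : ℕ) [NeZero D] (T : ℕ) (h : ℤ) (v : Fin D → ℤ) :
    GT w α D T h v ≠ ⊤ := by
  unfold GT
  rw [ENNReal.sum_ne_top]
  intro j _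
  exact ENNReal.mul_ne_top (ne_top_of_le_ne_top ENNReal.one_ne_top (hz_le_one w α j h))
    (ne_top_of_le_ne_top ENNReal.one_ne_top (CO.srw_le_one_ret j v))

private theorem one_le_GT (w α : Set.Ioo (0 : ℝ) 1) (D : ℕ) (T : ℕ) (hT : 1 ≤ T) : 1 ≤ GT w α D T 0 0 := by
  unfold GT
  have h1 : hz w α 0 0 * srw D 0 0 ≤ ∑ j ∈ Finset.range T, hz w α j 0 * srw D j 0 :=
    Finset.single_le_sum (f := fun j => hz w α j 0 * srw D j 0) (fun _ _ => zero_le) (Finset.mem_range.2 (by omega))
  refine le_trans ?_ h1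
  simp [hz, srw]

theorem ht_prob (w α : Set.Ioo (0 : ℝ) 1) (D : ℕ) [NeZero D] (T : ℕ) (hT : 1 ≤ T) (x y : Site D) :
    GT w α D T (y.1 - x.1) (y.2 - x.2) / (2 * GT w α D T 0 0) ≤ Q w α D {c | Ht c x y} := by
  classical
  obtain ⟨f, hfd⟩ : ∃ f : ℕ → Conf D → ℝ≥0∞, ∀ i c, f i c = if ent c x i = y then 1 else 0 := ⟨_, fun _ _ => rfl⟩
  have hf : ∀ i, Measurable (f i) := by
    intro i
    have h1 : f i = fun c => if ent c x i = y then 1 else 0 := funext fun c => hfd i c
    rw [h1]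
    exact Measurable.ite (hit_ent_meas x y i) measurable_const measurable_const
  have hm : ∀ i e, Measurable fun c => f i c * f (i + e) c := fun i e => (hf i).mul (hf (i + e))
  have hint : ∀ i, ∫⁻ c, f i c ∂Q w α D = hz w α i (y.1 - x.1) * srw D i (y.2 - x.2) := by
    intro i
    rw [lintegral_congr fun c => hfd i c, lint_ind _ _ (hit_ent_meas x y i), hit_one]
  have hpair : ∀ i e, ∫⁻ c, f i c * f (i + e) c ∂Q w α D =
      (hz w α i (y.1 - x.1) * srw D i (y.2 - x.2)) * (hz w α e 0 * srw D e 0) := by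
    intro i e
    have h1 : ∀ c : Conf D, f i c * f (i + e) c = if (ent c x i = y ∧ ent c x (i + e) = y) then 1 else 0 := by
      intro c
      rw [hfd, hfd]
      by_cases h3 : ent c x i = y
      · by_cases h4 : ent c x (i + e) = y
        · rw [if_pos h3, if_pos h4, if_pos ⟨h3, h4⟩, one_mul]
        · have h5 : ¬ (ent c x i = y ∧ ent c x (i + e) = y) := fun h => h4 h.2
          rw [if_neg h4, if_neg h5, mul_zero]
      · have h5 : ¬ (ent c x i = y ∧ ent c x (i + e) = y) := fun h => h3 h.1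
        rw [if_neg h3, if_neg h5, zero_mul]
    rw [lintegral_congr h1, lint_ind (Q w α D) (fun c : Conf D => ent c x i = y ∧ ent c x (i + e) = y)
      ((hit_ent_meas x y i).inter (hit_ent_meas x y (i + e))), hit_two]
  have hN1 : ∫⁻ c, ∑ i ∈ Finset.range T, f i c ∂Q w α D = GT w α D T (y.1 - x.1) (y.2 - x.2) := by
    rw [lintegral_finsetSum _ fun i _ => hf i]
    exact Finset.sum_congr rfl fun i _ => hint i
  have hN2 : ∫⁻ c, (∑ i ∈ Finset.range T, f i c) * (∑ i ∈ Finset.range T, f i c) ∂Q w α D ≤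
      2 * (GT w α D T (y.1 - x.1) (y.2 - x.2) * GT w α D T 0 0) := by
    calc ∫⁻ c, (∑ i ∈ Finset.range T, f i c) * (∑ i ∈ Finset.range T, f i c) ∂Q w α D
        ≤ ∫⁻ c, 2 * ∑ i ∈ Finset.range T, ∑ e ∈ Finset.range T, f i c * f (i + e) c ∂Q w α D :=
          lintegral_mono fun c => hit_sq (fun i => f i c) T
      _ = 2 * ∑ i ∈ Finset.range T, ∑ e ∈ Finset.range T,
            (hz w α i (y.1 - x.1) * srw D i (y.2 - x.2)) * (hz w α e 0 * srw D e 0) := by
          rw [lintegral_const_mul _ (Finset.measurable_fun_sum _ fun i _ => Finset.measurable_fun_sum _ fun e _ => hm i e),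
            lintegral_finsetSum _ fun i _ => Finset.measurable_fun_sum _ fun e _ => hm i e]
          congr 1
          refine Finset.sum_congr rfl fun i _ => ?_
          rw [lintegral_finsetSum _ fun e _ => hm i e]
          exact Finset.sum_congr rfl fun e _ => hpair i e
      _ = 2 * (GT w α D T (y.1 - x.1) (y.2 - x.2) * GT w α D T 0 0) := by
          congr 1
          unfold GT
          rw [Finset.sum_mul]
          exact Finset.sum_congr rfl fun i _ => (Finset.mul_sum _ _ _).symm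
  have h1 := cs (Q w α D) (fun c => ∑ i ∈ Finset.range T, f i c) (Finset.measurable_fun_sum _ fun i _ => hf i)
  rw [hN1] at h1
  have h4 : {c : Conf D | ∑ i ∈ Finset.range T, f i c ≠ 0} ⊆ {c | Ht c x y} := by
    intro c hc
    have hc' : ∑ i ∈ Finset.range T, f i c ≠ 0 := hc
    by_contra hno
    refine hc' (Finset.sum_eq_zero fun i _ => ?_)
    rw [hfd, if_neg]
    intro h5
    exact hno ⟨i, h5⟩
  have h5 : GT w α D T (y.1 - x.1) (y.2 - x.2) ^ 2 ≤
      2 * (GT w α D T (y.1 - x.1) (y.2 - x.2) * GT w α D T 0 0) * Q w α D {c | Ht c x y} :=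
    h1.trans (mul_le_mul' hN2 (measure_mono h4))
  have hG := GT_ne_top w α D T (y.1 - x.1) (y.2 - x.2)
  rcases eq_or_ne (GT w α D T (y.1 - x.1) (y.2 - x.2)) 0 with h6 | h6
  · rw [h6, ENNReal.zero_div]
    exact zero_le
  · refine ENNReal.div_le_of_le_mul ?_
    have h7 : GT w α D T (y.1 - x.1) (y.2 - x.2) * GT w α D T (y.1 - x.1) (y.2 - x.2) ≤
        GT w α D T (y.1 - x.1) (y.2 - x.2) * (Q w α D {c | Ht c x y} * (2 * GT w α D T 0 0)) := by
      calc GT w α D T (y.1 - x.1) (y.2 - x.2) * GT w α D T (y.1 - x.1) (y.2 - x.2)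
          = GT w α D T (y.1 - x.1) (y.2 - x.2) ^ 2 := (pow_two _).symm
        _ ≤ _ := h5
        _ = _ := by ring
    exact (ENNReal.mul_le_mul_iff_right h6 hG).1 h7

end FDr.BX
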