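import Pool.Agent.Lib.MP_e029a2_pr.BX.Fin
import Pool.Agent.Lib.MP_e029a2_pr.BX.Hit
import Pool.Agent.Lib.MP_e029a2_pr.CB.Est

/-!
# The probability of a good block from the mass of the block (job GoodB)

`¬ Good` is the union over `y ∈ Nr` (finite, at most `(6M+1)(6N+1)^D` points, `nr_fin`, `nr_card`) of the events `∀ x ∈ F, ¬ Ht c x y`, `F = Blk \ {rf}` (finite, `blk_fin`).
The events `Ht c x y`, `x ∈ F`, depend on disjoint sets of cells (`ht_dep`) and are measurable (`ht_meas`), so (`CB.prod_dep'`, file CB/Est; look at its exact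
form) `Q (∀ x ∈ F, ¬ Ht c x y) = ∏_{x ∈ F} (1 - Q {Ht c x y}) ≤ ∏ ofReal (exp (- q_x)) = ofReal (exp (- ∑_{x ∈ F} q_x))`, `q_x = (Q {Ht c x y}).toReal`
(`1 - q ≤ exp (-q)`).  By `ht_prob`: `∑_{x ∈ Blk} Q {Ht c x y} ≥ ∑_x GT T (y - x)/(2 GT T 0 0) ≥ ofReal m/(2 ofReal G)`, and the return frog contributes at
most 1, so `∑_{x ∈ F} q_x ≥ m/(2 G) - 1`.
-/

set_option autoImplicit false

namespace FDr.BX

open MeasureTheory ProbabilityTheory
open scoped ENNReal

private theorem GoodB_one (w α : Set.Ioo (0 : ℝ) 1) (D : ℕ) [NeZero D] (x y : Site D) :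
    Q w α D {c | ¬ Ht c x y} ≤ ENNReal.ofReal (Real.exp (-(Q w α D {c | Ht c x y}).toReal)) := by
  have h1 : ({c : Conf D | ¬ Ht c x y} : Set (Conf D)) = {c | Ht c x y}ᶜ := rfl
  rw [h1, prob_compl_eq_one_sub (ht_meas x y)]
  have h2 : Q w α D {c | Ht c x y} = ENNReal.ofReal (Q w α D {c | Ht c x y}).toReal :=
    (ENNReal.ofReal_toReal (measure_ne_top _ _)).symm
  rw [h2, ← ENNReal.ofReal_one, ← ENNReal.ofReal_sub _ ENNReal.toReal_nonneg,
    ENNReal.toReal_ofReal ENNReal.toReal_nonneg]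
  exact ENNReal.ofReal_le_ofReal (Real.one_sub_le_exp_neg _)

private theorem GoodB_prod (w α : Set.Ioo (0 : ℝ) 1) (D : ℕ) [NeZero D] (F : Finset (Site D)) (y : Site D) :
    Q w α D {c | ∀ x ∈ F, ¬ Ht c x y} ≤
      ENNReal.ofReal (Real.exp (-∑ x ∈ F, (Q w α D {c | Ht c x y}).toReal)) := by
  have h1 : Q w α D {c | ∀ x ∈ F, ¬ Ht c x y} = ∏ x ∈ F, Q w α D {c | ¬ Ht c x y} := by
    unfold Q
    refine CB.prod_dep' (cellLaw w α D) F (fun x => {q : Site D × ℕ | q.1 = x}) ?_ (fun x c => ¬ Ht c x y) ?_ ?_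
    · intro x _ x' _ hxx
      rw [Set.disjoint_left]
      intro q hq hq'
      exact hxx (hq.symm.trans hq')
    · intro x _
      exact (ht_meas x y).compl
    · intro x _ c c' hc
      have h2 := ht_dep x y c c' hc
      exact congrArg Not h2
  rw [h1]
  refine (Finset.prod_le_prod' fun x _ => GoodB_one w α D x y).trans ?_
  rw [← ENNReal.ofReal_prod_of_nonneg (fun x _ => (Real.exp_pos _).le), ← Real.exp_sum, Finset.sum_neg_distrib]

theorem good_of_mass (w α : Set.Ioo (0 : ℝ) 1) (D : ℕ) [NeZero D] (p : Par) (T : ℕ) (hT : 1 ≤ T) {m G : ℝ} (hm : 0 ≤ m) (hG : 0 < G)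
    (hG0 : GT w α D T 0 0 ≤ ENNReal.ofReal G) (z : Site D) (s : Fin D → Bool) (u : Fin D → ℕ) (k : ℕ)
    (hmass : ∀ y ∈ Nr p z s u k, ENNReal.ofReal m ≤
      ∑' x : Site D, (Blk p z s u k).indicator (fun x => GT w α D T (y.1 - x.1) (y.2 - x.2)) x) :
    Q w α D {c | ¬ Good p z s u k c} ≤
      ENNReal.ofReal ((6 * (p.M : ℝ) + 1) * (6 * (p.N : ℝ) + 1) ^ D * Real.exp (1 - m / (2 * G))) := by
  have hF := blk_fin p z s u k
  obtain ⟨F₀, hF₀⟩ : ∃ F₀ : Finset (Site D), ∀ x, x ∈ F₀ ↔ x ∈ Blk p z s u k :=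
    ⟨hF.toFinset, fun x => hF.mem_toFinset⟩
  obtain ⟨Y, hY⟩ : ∃ Y : Finset (Site D), (∀ y, y ∈ Y ↔ y ∈ Nr p z s u k) ∧ Y.card = (Nr p z s u k).ncard :=
    ⟨(nr_fin p z s u k).toFinset, fun y => (nr_fin p z s u k).mem_toFinset,
      (Set.ncard_eq_toFinset_card _ (nr_fin p z s u k)).symm⟩
  classical
  have hsum : ∀ y ∈ Nr p z s u k, m / (2 * G) ≤ ∑ x ∈ F₀, (Q w α D {c | Ht c x y}).toReal := by
    intro y hy
    have h1 : ENNReal.ofReal (m / (2 * G)) ≤ ∑ x ∈ F₀, Q w α D {c | Ht c x y} := by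
      have h2 : ∑' x : Site D, (Blk p z s u k).indicator (fun x => GT w α D T (y.1 - x.1) (y.2 - x.2)) x =
          ∑ x ∈ F₀, GT w α D T (y.1 - x.1) (y.2 - x.2) := by
        rw [tsum_eq_sum (s := F₀)]
        · refine Finset.sum_congr rfl fun x hx => ?_
          rw [Set.indicator_of_mem ((hF₀ x).1 hx)]
        · intro x hx
          rw [Set.indicator_of_notMem fun h => hx ((hF₀ x).2 h)]
      have h3 := hmass y hy
      rw [h2] at h3
      have h4 : ENNReal.ofReal (m / (2 * G)) = ENNReal.ofReal m / (2 * ENNReal.ofReal G) := by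
        rw [ENNReal.ofReal_div_of_pos (by positivity), ENNReal.ofReal_mul (by norm_num)]
        norm_num
      rw [h4]
      calc ENNReal.ofReal m / (2 * ENNReal.ofReal G)
          ≤ (∑ x ∈ F₀, GT w α D T (y.1 - x.1) (y.2 - x.2)) / (2 * ENNReal.ofReal G) :=
            ENNReal.div_le_div_right h3 _
        _ = ∑ x ∈ F₀, GT w α D T (y.1 - x.1) (y.2 - x.2) / (2 * ENNReal.ofReal G) := by
            simp only [div_eq_mul_inv]
            rw [Finset.sum_mul]
        _ ≤ ∑ x ∈ F₀, Q w α D {c | Ht c x y} := by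
            refine Finset.sum_le_sum fun x _ => ?_
            refine le_trans ?_ (ht_prob w α D T hT x y)
            refine ENNReal.div_le_div_left ?_ _
            gcongr
    have h5 : ∑ x ∈ F₀, (Q w α D {c | Ht c x y}).toReal = (∑ x ∈ F₀, Q w α D {c | Ht c x y}).toReal :=
      (ENNReal.toReal_sum fun x _ => measure_ne_top _ _).symm
    rw [h5]
    refine (ENNReal.ofReal_le_iff_le_toReal ?_).1 h1
    exact (ENNReal.sum_lt_top.2 fun x _ => measure_lt_top _ _).ne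
  have hev : ∀ y ∈ Nr p z s u k, Q w α D {c | ∀ x ∈ F₀.erase (rf p z s u k), ¬ Ht c x y} ≤
      ENNReal.ofReal (Real.exp (1 - m / (2 * G))) := by
    intro y hy
    refine (GoodB_prod w α D _ y).trans (ENNReal.ofReal_le_ofReal (Real.exp_le_exp.2 ?_))
    have h1 := hsum y hy
    have h2 : ∑ x ∈ F₀, (Q w α D {c | Ht c x y}).toReal ≤
        ∑ x ∈ F₀.erase (rf p z s u k), (Q w α D {c | Ht c x y}).toReal + 1 := by
      by_cases hr : rf p z s u k ∈ F₀
      · rw [← Finset.sum_erase_add F₀ _ hr]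
        have h3 : (Q w α D {c | Ht c (rf p z s u k) y}).toReal ≤ 1 :=
          ENNReal.toReal_mono ENNReal.one_ne_top prob_le_one
        linarith
      · rw [Finset.erase_eq_of_notMem hr]
        linarith
    linarith
  have hsub : ({c | ¬ Good p z s u k c} : Set (Conf D)) ⊆
      ⋃ y ∈ Y, {c | ∀ x ∈ F₀.erase (rf p z s u k), ¬ Ht c x y} := by
    intro c hc
    have h1 : ¬ Good p z s u k c := hc
    unfold Good at h1
    push Not at h1
    obtain ⟨y, hy, h2⟩ := h1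
    refine Set.mem_iUnion₂.2 ⟨y, (hY.1 y).2 hy, fun x hx => ?_⟩
    rw [Finset.mem_erase] at hx
    exact h2 x ((hF₀ x).1 hx.2) hx.1
  refine (measure_mono hsub).trans ((measure_biUnion_finset_le _ _).trans ?_)
  refine (Finset.sum_le_sum fun y hy => hev y ((hY.1 y).1 hy)).trans ?_
  rw [Finset.sum_const, nsmul_eq_mul, ENNReal.ofReal_mul (by positivity)]
  refine mul_le_mul_left ?_ _
  have h1 : (Y.card : ℝ) ≤ (6 * (p.M : ℝ) + 1) * (6 * (p.N : ℝ) + 1) ^ D := by
    rw [hY.2]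
    exact_mod_cast nr_card p z s u k
  rw [← ENNReal.ofReal_natCast]
  exact ENNReal.ofReal_le_ofReal h1

end FDr.BX
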