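import Pool.Agent.Lib.MP_e029a2_pr.BX.Def

/-!
# Reflection of the height (job HFlip)

`b = (1 - α)/(1 + α)`.  For a run `l` let `l' = l.map (!·)`.  Then `dsp l' = - dsp l` and `runW w α l' = b^(dsp l) * runW w α l` (`zpow`; `runW` is
`(1 - w) * ∏ bw`, see `Law.lean`/`Defs.lean`; `bw w α false = b * bw w α true`; induction on `l`).  `dispP w α k = ∑'_l ofReal (runW l) 1{dsp l = k}` (see
`G1_disp` in `G1.lean`, private there: copy it), and the involution `l ↦ l'` (`Equiv`, `tsum_eq`) gives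
`dispP w α (-k) = ofReal (b^k) * dispP w α k`.  `hz_flip` by induction on `j` (`hz w α (j+1) (-h) = ∑'_k dispP w α k hz w α j (-h - k)`; replace `k` by `-k`
(`(Equiv.neg ℤ).tsum_eq`); `ofReal (b^k) * ofReal (b^(h-k)) = ofReal (b^h)`, `zpow_add₀`, `b > 0`).
`hz_flip_le`: for `h ≥ 0` `b^h ≤ 1`.  `hz_flip_ge`: for `0 ≤ h ≤ R`, `4 α R ≤ 1`: `b^h ≥ b^R ≥ (1 - 2α)^R ≥ 1 - 2 α R ≥ 1/2` (Bernoulli).
-/

set_option autoImplicit false

namespace FDr.BX

open MeasureTheory ProbabilityTheory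
open scoped ENNReal

private theorem hf_lint (w α : Set.Ioo (0 : ℝ) 1) (f : Run → ℝ≥0∞) :
    ∫⁻ l, f l ∂runLaw w α = ∑' l, ENNReal.ofReal (runW w α l) * f l := by
  unfold runLaw
  rw [lintegral_sum_measure]
  refine tsum_congr fun l => ?_
  rw [lintegral_smul_measure, lintegral_dirac' l measurable_from_top, smul_eq_mul]

private theorem hf_disp (w α : Set.Ioo (0 : ℝ) 1) (k : ℤ) :
    dispP w α k = ∑' l, ENNReal.ofReal (runW w α l) * (if dsp l = k then 1 else 0) := by
  unfold dispP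
  rw [← lintegral_indicator_one (MeasurableSpace.measurableSet_top), hf_lint]
  refine tsum_congr fun l => ?_
  rw [Set.indicator_apply]
  rfl

private theorem hf_cons (b : Bool) (l : Run) : dsp (b :: l) = sg b + dsp l := by
  unfold dsp
  rw [List.map_cons, List.sum_cons]

/-- the ratio of the weights -/
private noncomputable def bb (α : Set.Ioo (0 : ℝ) 1) : ℝ := (1 - (α : ℝ)) / (1 + α)

private theorem bb_pos (α : Set.Ioo (0 : ℝ) 1) : 0 < bb α := by
  have h1 := α.2.1
  have h2 := α.2.2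
  exact div_pos (by linarith only [h2]) (by linarith only [h1])

private theorem bb_sub (α : Set.Ioo (0 : ℝ) 1) : 1 - bb α ≤ 2 * α := by
  have h1 := α.2.1
  have h3 : (0 : ℝ) < 1 + α := by linarith only [h1]
  unfold bb
  rw [sub_le_iff_le_add, ← sub_le_iff_le_add', le_div_iff₀ h3]
  nlinarith only [h1]

private theorem bb_le (α : Set.Ioo (0 : ℝ) 1) : bb α ≤ 1 := by
  have h1 := α.2.1
  have h3 : (0 : ℝ) < 1 + α := by linarith only [h1]
  unfold bb
  rw [div_le_one h3]
  linarith only [h1]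

/-- reflection of a run -/
private def fl (l : Run) : Run := l.map not

private theorem fl_fl (l : Run) : fl (fl l) = l := by
  unfold fl
  rw [List.map_map]
  have h : (not ∘ not : Bool → Bool) = id := by
    funext b
    cases b <;> rfl
  rw [h, List.map_id]

private theorem fl_dsp (l : Run) : dsp (fl l) = - dsp l := by
  induction l with
  | nil => simp [fl, dsp]
  | cons b l ih =>
    have h : fl (b :: l) = (!b) :: fl l := rfl
    rw [h, hf_cons, hf_cons, ih]
    cases b <;> simp [sg] <;> ring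

private theorem fl_bw (w α : Set.Ioo (0 : ℝ) 1) (b : Bool) :
    bw w α (!b) = bb α ^ sg b * bw w α b := by
  have h1 := α.2.1
  have h2 := α.2.2
  have h3 : (0 : ℝ) < 1 + α := by linarith only [h1]
  have h4 : (0 : ℝ) < 1 - α := by linarith only [h2]
  cases b
  · simp only [bw, sg, bb, Bool.not_false, Bool.false_eq_true, if_true, if_false, zpow_neg, zpow_one]
    field_simp
  · simp only [bw, sg, bb, Bool.not_true, Bool.false_eq_true, if_true, if_false, zpow_one]
    field_simp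

private theorem fl_runW (w α : Set.Ioo (0 : ℝ) 1) (l : Run) :
    runW w α (fl l) = bb α ^ dsp l * runW w α l := by
  rw [runW_eq, runW_eq]
  have h : ((fl l).map (bw w α)).prod = bb α ^ dsp l * (l.map (bw w α)).prod := by
    induction l with
    | nil => simp [fl, dsp]
    | cons b l ih =>
      have h : fl (b :: l) = (!b) :: fl l := rfl
      rw [h, List.map_cons, List.prod_cons, ih, List.map_cons, List.prod_cons, hf_cons,
        zpow_add₀ (bb_pos α).ne', fl_bw]
      ring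
  rw [h]
  ring

private theorem disp_flip (w α : Set.Ioo (0 : ℝ) 1) (k : ℤ) :
    dispP w α (-k) = ENNReal.ofReal (bb α ^ k) * dispP w α k := by
  have hb := bb_pos α
  rw [hf_disp, hf_disp, ← ENNReal.tsum_mul_left,
    ← (Function.Involutive.toPerm fl fl_fl).tsum_eq]
  refine tsum_congr fun l => ?_
  show ENNReal.ofReal (runW w α (fl l)) * (if dsp (fl l) = -k then 1 else 0) = _
  rw [fl_runW, fl_dsp]
  by_cases h : dsp l = k
  · rw [if_pos (by rw [h]), if_pos h, mul_one, mul_one, h,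
      ENNReal.ofReal_mul (zpow_pos hb k).le]
  · rw [if_neg (fun h' => h (neg_injective h')), if_neg h, mul_zero, mul_zero, mul_zero]

private theorem hz_flip' (w α : Set.Ioo (0 : ℝ) 1) (j : ℕ) (h : ℤ) :
    hz w α j (-h) = ENNReal.ofReal (bb α ^ h) * hz w α j h := by
  have hb := bb_pos α
  induction j generalizing h with
  | zero =>
    show (if -h = 0 then (1 : ℝ≥0∞) else 0) = _ * (if h = 0 then (1 : ℝ≥0∞) else 0)
    by_cases h0 : h = 0
    · subst h0
      simp
    · rw [if_neg (fun h' => h0 (by omega)), if_neg h0, mul_zero]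
  | succ j ih =>
    show ∑' k : ℤ, dispP w α k * hz w α j (-h - k) = _ * ∑' k : ℤ, dispP w α k * hz w α j (h - k)
    rw [← ENNReal.tsum_mul_left, ← (Equiv.neg ℤ).tsum_eq]
    refine tsum_congr fun k => ?_
    show dispP w α (-k) * hz w α j (-h - -k) = _
    have e1 : -h - -k = -(h - k) := by ring
    have e2 : bb α ^ h = bb α ^ k * bb α ^ (h - k) := by
      rw [← zpow_add₀ hb.ne']
      congr 1
      ring
    rw [e1, ih, disp_flip, e2, ENNReal.ofReal_mul (zpow_pos hb k).le]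
    ring

theorem hz_flip (w α : Set.Ioo (0 : ℝ) 1) (j : ℕ) (h : ℤ) :
    hz w α j (-h) = ENNReal.ofReal (((1 - (α : ℝ)) / (1 + α)) ^ h) * hz w α j h :=
  hz_flip' w α j h

theorem hz_flip_le (w α : Set.Ioo (0 : ℝ) 1) (j : ℕ) (h : ℤ) (h0 : 0 ≤ h) : hz w α j (-h) ≤ hz w α j h := by
  rw [hz_flip']
  obtain ⟨n, rfl⟩ := Int.eq_ofNat_of_zero_le h0
  have h1 : ENNReal.ofReal (bb α ^ (n : ℤ)) ≤ 1 := by
    rw [zpow_natCast]
    exact ENNReal.ofReal_le_one.2 (pow_le_one₀ (bb_pos α).le (bb_le α))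
  calc ENNReal.ofReal (bb α ^ (n : ℤ)) * hz w α j n ≤ 1 * hz w α j n := mul_le_mul_left h1 _
    _ = hz w α j n := one_mul _

theorem hz_flip_ge (w α : Set.Ioo (0 : ℝ) 1) (j : ℕ) (h : ℤ) (h0 : 0 ≤ h) (R : ℕ) (hR : h ≤ R) (hα : 4 * (α : ℝ) * R ≤ 1) :
    hz w α j h ≤ 2 * hz w α j (-h) := by
  rw [hz_flip']
  obtain ⟨n, rfl⟩ := Int.eq_ofNat_of_zero_le h0
  have hn : (n : ℝ) ≤ R := by exact_mod_cast hR
  have hb := bb_pos α
  have h1 : (1 : ℝ) / 2 ≤ bb α ^ n := by
    have h2 := one_add_mul_le_pow (a := bb α - 1) (by linarith only [hb]) n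
    rw [add_sub_cancel] at h2
    have h3 : (n : ℝ) * (1 - bb α) ≤ (R : ℝ) * (2 * α) :=
      mul_le_mul hn (bb_sub α) (by linarith only [bb_le α]) (Nat.cast_nonneg _)
    linarith only [h2, h3, hα]
  have h4 : (1 : ℝ≥0∞) ≤ 2 * ENNReal.ofReal (bb α ^ (n : ℤ)) := by
    rw [zpow_natCast]
    have h5 : (2 : ℝ≥0∞) = ENNReal.ofReal 2 := by simp
    rw [h5, ← ENNReal.ofReal_mul (by norm_num), ENNReal.one_le_ofReal]
    linarith only [h1]
  calc hz w α j n = 1 * hz w α j n := (one_mul _).symm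
    _ ≤ 2 * ENNReal.ofReal (bb α ^ (n : ℤ)) * hz w α j n := mul_le_mul_left h4 _
    _ = 2 * (ENNReal.ofReal (bb α ^ (n : ℤ)) * hz w α j n) := mul_assoc _ _ _

end FDr.BX
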