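import Pool.Agent.Lib.MP_e029a2_pr.BX.Def

/-!
# The mass of one return frog per block (job Mass3)

(1) Harnack: `dispP w α 0 * (2 D)⁻¹ * Gam w α D h (v - dv d) ≤ Gam w α D h v` (`hz_succ_ge`, one term of the sum in `srw D (j+1) v`,
`ENNReal.tsum_comp_le_tsum_of_injective Nat.succ_injective`).  The same for `D = 1` is `gam_harnack` in the file `CB/Mass2.lean` (complete; same folder structure: copy
and generalise its lemmas `gam_harnack, hc, hc_top, one_le_hc, gam_step, gg_succ, gg_add, mass_sparse`).  So with `H = (dispP w α 0 * (2 D)⁻¹)⁻¹` (`1 ≤ H < ⊤`):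
`Gam h (v - dv d) ≤ H * Gam h v`.
(2) For `u = N q + r` (coordinatewise, `0 ≤ r i < N`) the points `pt v s u` and `pt v s (N q)` differ by `s r`, `∑ r i ≤ D N` unit steps, so
`Gam m (-(pt v s u)) ≤ H^(D N) * Gam m (-(pt v s (N q)))` (induction on `∑ r i`).
(3) `∑'_u Gam m (-(pt v s u)) ≤ N^D H^(D N) ∑'_q Gam m (-(pt v s (N q)))`: the map `u ↦ (q, r) = (fun i => u i / N, fun i => u i % N)` is a bijection of
`Fin D → ℕ` onto `(Fin D → ℕ) × (Fin D → Fin N)` (`Nat.divModEquiv N` in every coordinate, `Equiv.arrowProdEquivProdArrow`), `tsum_fintype` for `r`.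
(4) `CO.mass_ge` (`CO/Mass.lean`).
-/

set_option autoImplicit false

namespace FDr.BX

open MeasureTheory ProbabilityTheory
open scoped ENNReal

private theorem M3_harnack (w α : Set.Ioo (0 : ℝ) 1) (D : ℕ) (h : ℤ) (v : Fin D → ℤ) (d : Dir D) :
    dispP w α 0 * (2 * (D : ℝ≥0∞))⁻¹ * Gam w α D h (v - dv d) ≤ Gam w α D h v := by
  unfold Gam
  rw [← ENNReal.tsum_mul_left]
  have h1 : ∀ j : ℕ, dispP w α 0 * (2 * (D : ℝ≥0∞))⁻¹ * (hz w α j h * srw D j (v - dv d)) ≤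
      hz w α (j + 1) h * srw D (j + 1) v := by
    intro j
    have h2 := hz_succ_ge w α j h 0
    rw [add_zero] at h2
    have h3 : (2 * (D : ℝ≥0∞))⁻¹ * srw D j (v - dv d) ≤ srw D (j + 1) v := by
      show _ ≤ ∑ d : Dir D, (2 * (D : ℝ≥0∞))⁻¹ * srw D j (v - dv d)
      exact Finset.single_le_sum (f := fun d : Dir D => (2 * (D : ℝ≥0∞))⁻¹ * srw D j (v - dv d))
        (fun _ _ => zero_le) (Finset.mem_univ d)
    calc dispP w α 0 * (2 * (D : ℝ≥0∞))⁻¹ * (hz w α j h * srw D j (v - dv d))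
        = (dispP w α 0 * hz w α j h) * ((2 * (D : ℝ≥0∞))⁻¹ * srw D j (v - dv d)) := by ring
      _ ≤ _ := mul_le_mul' h2 h3
  refine (ENNReal.tsum_le_tsum h1).trans ?_
  exact ENNReal.tsum_comp_le_tsum_of_injective (Nat.succ_injective) fun j => hz w α j h * srw D j v

/-- the constant of the Harnack inequality -/
private noncomputable def M3_hc (w α : Set.Ioo (0 : ℝ) 1) (D : ℕ) : ℝ≥0∞ :=
  (dispP w α 0 * (2 * (D : ℝ≥0∞))⁻¹)⁻¹

private theorem M3_disp (w α : Set.Ioo (0 : ℝ) 1) (k : ℤ) : dispP w α k ≤ 1 := prob_le_one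

private theorem M3_D1 (D : ℕ) [NeZero D] : (1 : ℝ≥0∞) ≤ 2 * (D : ℝ≥0∞) := by
  have h1 : (1 : ℝ≥0∞) ≤ (D : ℝ≥0∞) := by exact_mod_cast NeZero.one_le
  calc (1 : ℝ≥0∞) = 1 * 1 := (one_mul 1).symm
    _ ≤ _ := mul_le_mul' (by norm_num) h1

private theorem M3_Dt (D : ℕ) : (2 * (D : ℝ≥0∞)) ≠ ⊤ := ENNReal.mul_ne_top (by simp) (ENNReal.natCast_ne_top D)

private theorem M3_a0 (w α : Set.Ioo (0 : ℝ) 1) (D : ℕ) : dispP w α 0 * (2 * (D : ℝ≥0∞))⁻¹ ≠ 0 :=
  mul_ne_zero (dispP_pos w α 0).ne' (ENNReal.inv_ne_zero.2 (M3_Dt D))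

private theorem M3_a1 (w α : Set.Ioo (0 : ℝ) 1) (D : ℕ) [NeZero D] : dispP w α 0 * (2 * (D : ℝ≥0∞))⁻¹ ≤ 1 := by
  calc dispP w α 0 * (2 * (D : ℝ≥0∞))⁻¹ ≤ 1 * 1 := mul_le_mul' (M3_disp w α 0) (by
        rw [ENNReal.inv_le_one]
        exact M3_D1 D)
    _ = 1 := one_mul 1

private theorem M3_hc_top (w α : Set.Ioo (0 : ℝ) 1) (D : ℕ) : M3_hc w α D ≠ ⊤ := by
  unfold M3_hc
  rw [Ne, ENNReal.inv_eq_top]
  exact M3_a0 w α D

private theorem M3_one_le (w α : Set.Ioo (0 : ℝ) 1) (D : ℕ) [NeZero D] : 1 ≤ M3_hc w α D := by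
  unfold M3_hc
  rw [ENNReal.one_le_inv]
  exact M3_a1 w α D

private theorem M3_step (w α : Set.Ioo (0 : ℝ) 1) (D : ℕ) [NeZero D] (h : ℤ) (v : Fin D → ℤ) (d : Dir D) :
    Gam w α D h (v - dv d) ≤ M3_hc w α D * Gam w α D h v := by
  have h1 := M3_harnack w α D h v d
  have h2 := M3_a0 w α D
  have h3 : dispP w α 0 * (2 * (D : ℝ≥0∞))⁻¹ ≠ ⊤ := ne_top_of_le_ne_top ENNReal.one_ne_top (M3_a1 w α D)
  calc Gam w α D h (v - dv d) = M3_hc w α D * (dispP w α 0 * (2 * (D : ℝ≥0∞))⁻¹ * Gam w α D h (v - dv d)) := by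
        unfold M3_hc
        rw [← mul_assoc, ENNReal.inv_mul_cancel h2 h3, one_mul]
    _ ≤ _ := mul_le_mul_right h1 _

private theorem M3_succ (w α : Set.Ioo (0 : ℝ) 1) (D : ℕ) [NeZero D] (h : ℤ) (v : Fin D → ℤ) (s : Fin D → Bool)
    (u : Fin D → ℕ) (i : Fin D) :
    Gam w α D h (-(CO.pt v s (u + Pi.single i 1))) ≤ M3_hc w α D * Gam w α D h (-(CO.pt v s u)) := by
  have h1 : -(CO.pt v s (u + Pi.single i 1)) = -(CO.pt v s u) - dv ((i, s i) : Dir D) := by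
    funext t
    show -(v t + sg (s t) * (((u t + (Pi.single i 1 : Fin D → ℕ) t : ℕ)) : ℤ)) =
      -(v t + sg (s t) * (u t : ℤ)) - (Pi.single i (sg (s i)) : Fin D → ℤ) t
    by_cases ht : t = i
    · subst ht
      rw [Pi.single_eq_same, Pi.single_eq_same]
      push_cast
      ring
    · rw [Pi.single_eq_of_ne ht, Pi.single_eq_of_ne ht, add_zero, sub_zero]
  rw [h1]
  exact M3_step w α D h _ _

private theorem M3_add (w α : Set.Ioo (0 : ℝ) 1) (D : ℕ) [NeZero D] (h : ℤ) (v : Fin D → ℤ) (s : Fin D → Bool)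
    (a : Fin D → ℕ) (n : ℕ) : ∀ r : Fin D → ℕ, ∑ i, r i = n →
    Gam w α D h (-(CO.pt v s (a + r))) ≤ M3_hc w α D ^ n * Gam w α D h (-(CO.pt v s a)) := by
  induction n with
  | zero =>
    intro r hr
    have h1 : r = 0 := by
      funext i
      exact Finset.sum_eq_zero_iff.1 hr i (Finset.mem_univ i)
    rw [h1, add_zero, pow_zero, one_mul]
  | succ n ih =>
    intro r hr
    have h1 : ∃ i, r i ≠ 0 := by
      by_contra hne
      rw [not_exists] at hne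
      have h2 : ∑ i, r i = 0 := Finset.sum_eq_zero fun i _ => not_not.1 (hne i)
      omega
    obtain ⟨i, hi⟩ := h1
    obtain ⟨r', hr'⟩ : ∃ r' : Fin D → ℕ, r = r' + Pi.single i 1 := by
      refine ⟨r - Pi.single i 1, ?_⟩
      funext t
      show r t = r t - (Pi.single i 1 : Fin D → ℕ) t + (Pi.single i 1 : Fin D → ℕ) t
      by_cases ht : t = i
      · subst ht
        rw [Pi.single_eq_same]
        omega
      · rw [Pi.single_eq_of_ne ht]
        rfl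
    have h3 : ∑ i, r' i = n := by
      have h4 : ∑ t, r t = ∑ t, r' t + ∑ t, (Pi.single i 1 : Fin D → ℕ) t := by
        rw [hr', ← Finset.sum_add_distrib]
        rfl
      have h5 : ∑ t, (Pi.single i 1 : Fin D → ℕ) t = 1 := by
        rw [Finset.sum_pi_single', if_pos (Finset.mem_univ i)]
      omega
    rw [hr', ← add_assoc]
    refine (M3_succ w α D h v s (a + r') i).trans ?_
    calc M3_hc w α D * Gam w α D h (-(CO.pt v s (a + r'))) ≤
          M3_hc w α D * (M3_hc w α D ^ n * Gam w α D h (-(CO.pt v s a))) := mul_le_mul_right (ih r' h3) _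
      _ = _ := by rw [pow_succ]; ring

/-- division with remainder in every coordinate -/
private def M3_e (D N : ℕ) [NeZero N] : (Fin D → ℕ) × (Fin D → Fin N) ≃ (Fin D → ℕ) :=
  ((Equiv.piCongrRight fun _ : Fin D => Nat.divModEquiv N).trans
    (Equiv.arrowProdEquivProdArrow (Fin D) (fun _ => ℕ) (fun _ => Fin N))).symm

private theorem M3_e_apply (D N : ℕ) [NeZero N] (q : Fin D → ℕ) (r : Fin D → Fin N) :
    M3_e D N (q, r) = (fun i => N * q i) + fun i => (r i : ℕ) := by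
  funext i
  show q i * N + (r i : ℕ) = N * q i + (r i : ℕ)
  rw [mul_comm]

theorem mass_sparse (w α : Set.Ioo (0 : ℝ) 1) (D : ℕ) [NeZero D] (N : ℕ) (hN : 1 ≤ N) : ∃ c : ℝ, 0 < c ∧
    ∀ (v : Fin D → ℤ) (s : Fin D → Bool), ∃ m0 : ℕ, ∀ m : ℕ, m0 ≤ m →
      ENNReal.ofReal c ≤ ∑' u : Fin D → ℕ, Gam w α D m (-(CO.pt v s fun i => N * u i)) := by
  obtain ⟨c, hc0, hmass⟩ := CO.mass_ge w α D
  obtain ⟨C, hC⟩ : ∃ C : ℝ≥0∞, C = ((N ^ D : ℕ) : ℝ≥0∞) * M3_hc w α D ^ (D * N) := ⟨_, rfl⟩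
  have hCt : C ≠ ⊤ := by
    rw [hC]
    exact ENNReal.mul_ne_top (ENNReal.natCast_ne_top _) (ENNReal.pow_ne_top (M3_hc_top w α D))
  have hC1 : 1 ≤ C := by
    rw [hC]
    calc (1 : ℝ≥0∞) = 1 * 1 := (one_mul 1).symm
      _ ≤ _ := mul_le_mul' (by exact_mod_cast Nat.one_le_pow _ _ hN) (one_le_pow₀ (M3_one_le w α D))
  have hC0 : C ≠ 0 := (lt_of_lt_of_le one_pos hC1).ne'
  have hCr : 0 < C.toReal := ENNReal.toReal_pos hC0 hCt
  refine ⟨c / C.toReal, by positivity, fun v s => ?_⟩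
  obtain ⟨m0, hm0⟩ := hmass v s
  refine ⟨m0, fun m hm => ?_⟩
  have h1 := hm0 m hm
  have hN0 : NeZero N := ⟨by omega⟩
  have h3 : ∑' u : Fin D → ℕ, Gam w α D m (-(CO.pt v s u)) ≤
      C * ∑' q : Fin D → ℕ, Gam w α D m (-(CO.pt v s fun i => N * q i)) := by
    rw [← (M3_e D N).tsum_eq, ENNReal.tsum_prod', ← ENNReal.tsum_mul_left]
    refine ENNReal.tsum_le_tsum fun q => ?_
    rw [tsum_fintype]
    have h4 : ∀ r : Fin D → Fin N, Gam w α D m (-(CO.pt v s (M3_e D N (q, r)))) ≤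
        M3_hc w α D ^ (D * N) * Gam w α D m (-(CO.pt v s fun i => N * q i)) := by
      intro r
      rw [M3_e_apply]
      refine (M3_add w α D m v s _ _ _ rfl).trans (mul_le_mul_left ?_ _)
      refine pow_le_pow_right₀ (M3_one_le w α D) ?_
      calc ∑ i, (r i : ℕ) ≤ ∑ _i : Fin D, N := Finset.sum_le_sum fun i _ => (r i).2.le
        _ = D * N := by rw [Finset.sum_const, Finset.card_univ, Fintype.card_fin, smul_eq_mul]
    refine (Finset.sum_le_sum fun r _ => h4 r).trans (le_of_eq ?_)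
    rw [Finset.sum_const, Finset.card_univ, Fintype.card_fun, Fintype.card_fin, Fintype.card_fin, nsmul_eq_mul, hC]
    ring
  rw [ENNReal.ofReal_div_of_pos hCr, ENNReal.ofReal_toReal hCt]
  refine ENNReal.div_le_of_le_mul ?_
  rw [mul_comm]
  exact h1.trans h3

end FDr.BX
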