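import Pool.Agent.Lib.MP_e029a2_pr.BX.Fin
import Pool.Agent.Lib.MP_e029a2_pr.BX.Box

/-!
# The mass of the truncated Green function of a block (job MassB)

`t = 256 D⁴ d²`, `R = 32 D² d`, `T = (k+1) t`.  By `hg_shift`, `ln_shift` there are `g0`, `g` such that for every `j`
`∑'_x 1{x ∈ Blk} hz j (y.1 - x.1) srw j (y.2 - x.2) = (∑'_h 1{y.1 - h ∈ Hg} hz j h) (∑'_v 1{y.2 - v ∈ Ln} srw j v) ≥ PH j {|h - g0| ≤ 2 S} · PV j {∀ i, |v i - g i| ≤ 2 R}`
(`Site D = ℤ × (Fin D → ℤ)`; the bijection `x ↦ (y.1 - x.1, y.2 - x.2)`, e.g. `(Equiv.subLeft y).tsum_eq` or `Equiv.prodCongr`; `ENNReal.tsum_prod`,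
`ENNReal.tsum_mul_left/right`; indicator of a product set).  Sum over `k t ≤ j < (k+1) t` (`t` values of `j < T`): every term is
`≥ c_V c_H` by `v_box` and `h_box`.
-/

set_option autoImplicit false

namespace FDr.BX

open MeasureTheory ProbabilityTheory
open scoped ENNReal

/-- the product of the probabilities of two boxes is a sum over the block -/
private theorem mb_prod (w α : Set.Ioo (0 : ℝ) 1) (D : ℕ) (j : ℕ) (A : Set ℤ) (B : Set (Fin D → ℤ))
    (K : Set (Site D)) (y : Site D) (hK : ∀ h v, h ∈ A → v ∈ B → (y.1 - h, y.2 - v) ∈ K) :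
    PH w α j A * PV D j B ≤
      ∑' x : Site D, K.indicator (fun x => hz w α j (y.1 - x.1) * srw D j (y.2 - x.2)) x := by
  unfold PH PV
  rw [← ENNReal.tsum_mul_right]
  simp only [← ENNReal.tsum_mul_left]
  rw [← ENNReal.tsum_prod (f := fun h v => A.indicator (hz w α j) h * B.indicator (srw D j) v),
    ← (Equiv.subLeft y).tsum_eq]
  refine ENNReal.tsum_le_tsum fun x => ?_
  show A.indicator (hz w α j) (y.1 - x.1) * B.indicator (srw D j) (y.2 - x.2) ≤ _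
  by_cases h1 : y.1 - x.1 ∈ A
  · by_cases h2 : y.2 - x.2 ∈ B
    · have h3 := hK _ _ h1 h2
      rw [sub_sub_cancel, sub_sub_cancel] at h3
      have h4 : x ∈ K := h3
      rw [Set.indicator_of_mem h1, Set.indicator_of_mem h2, Set.indicator_of_mem h4]
    · rw [Set.indicator_of_notMem h2, mul_zero]
      exact zero_le
  · rw [Set.indicator_of_notMem h1, zero_mul]
    exact zero_le

theorem mass_blk (w α : Set.Ioo (0 : ℝ) 1) (D : ℕ) [NeZero D] {ε : ℝ} (hε : 0 < ε) (hε1 : ε ≤ 1) (hw : (w : ℝ) ≤ 1 - ε)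
    (p : Par) (d e S k t : ℕ) (hd : 1 ≤ d) (he : 1 ≤ e) (heS : e ≤ S) (hk : 1280 * D ^ 2 ≤ k) (hk2 : 40 * S ≤ S + k * e)
    (ht : t = 256 * D ^ 4 * d ^ 2) (hS : 48 ≤ ε * (S : ℝ) ^ 2) (hα : 4 * (α : ℝ) * S ≤ 1)
    (h1 : 64 * (w : ℝ) * t ≤ ε * (S : ℝ) ^ 2) (h2 : 30 * (e : ℝ) ^ 2 ≤ (w : ℝ) * t)
    (hN : p.N = 8 * (32 * D ^ 2 * d)) (hM : p.M = 8 * S)
    (z : Site D) (s : Fin D → Bool) (u : Fin D → ℕ) (kk : ℕ) (y : Site D) (hy : y ∈ Nr p z s u kk) :
    ENNReal.ofReal ((t : ℝ) * ((1 / 2) ^ ((D + 1) * k) * (3 / 4) * ((1 / 32) ^ k * (7 / 8)))) ≤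
      ∑' x : Site D, (Blk p z s u kk).indicator (fun x => GT w α D ((k + 1) * t) (y.1 - x.1) (y.2 - x.2)) x := by
  have hD : 1 ≤ D := NeZero.one_le
  have hS1 : 1 ≤ S := he.trans heS
  have hR1 : 1 ≤ 32 * D ^ 2 * d := by
    have h0 : 0 < 32 * D ^ 2 * d := by positivity
    exact h0
  obtain ⟨g0, hg0, hg0'⟩ := hg_shift p z kk hS1 hM hy.1
  obtain ⟨g, hg, hg'⟩ := ln_shift p z s u hR1 hN hy.2
  set c : ℝ := (1 / 2) ^ ((D + 1) * k) * (3 / 4) * ((1 / 32) ^ k * (7 / 8)) with hc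
  have hterm : ∀ j, k * t ≤ j → j < (k + 1) * t → ENNReal.ofReal c ≤
      ∑' x : Site D, (Blk p z s u kk).indicator
        (fun x => hz w α j (y.1 - x.1) * srw D j (y.2 - x.2)) x := by
    intro j hj1 hj2
    have hv := v_box D hD d hd k hk j (by rw [← ht]; exact hj1) (by rw [← ht]; exact hj2) g hg
    have hh := h_box w α hε hε1 hw t e S he hS hα h1 h2 heS k hk2 j hj1 hj2 g0 hg0
    have h3 := mb_prod w α D j {h | |h - g0| ≤ 2 * S}
      {v | ∀ i, |v i - g i| ≤ 2 * (32 * D ^ 2 * d : ℕ)} (Blk p z s u kk) y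
      (fun h v h4 h5 => ⟨hg0' h h4, hg' v h5⟩)
    refine le_trans ?_ h3
    rw [hc, mul_comm, ENNReal.ofReal_mul (by positivity)]
    exact mul_le_mul' hh hv
  have hsum : ∑' x : Site D, (Blk p z s u kk).indicator
      (fun x => GT w α D ((k + 1) * t) (y.1 - x.1) (y.2 - x.2)) x =
      ∑ j ∈ Finset.range ((k + 1) * t), ∑' x : Site D, (Blk p z s u kk).indicator
        (fun x => hz w α j (y.1 - x.1) * srw D j (y.2 - x.2)) x := by
    rw [← Summable.tsum_finsetSum (fun _ _ => ENNReal.summable)]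
    refine tsum_congr fun x => ?_
    by_cases hx : x ∈ Blk p z s u kk
    · simp only [Set.indicator_of_mem hx]
      rfl
    · simp only [Set.indicator_of_notMem hx, Finset.sum_const_zero]
  rw [hsum]
  have hsub : Finset.Ico (k * t) ((k + 1) * t) ⊆ Finset.range ((k + 1) * t) := by
    intro j hj
    rw [Finset.mem_Ico] at hj
    exact Finset.mem_range.mpr hj.2
  refine le_trans ?_ (Finset.sum_le_sum_of_subset hsub)
  have hcard : (Finset.Ico (k * t) ((k + 1) * t)).card = t := by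
    rw [Nat.card_Ico, Nat.succ_mul, Nat.add_sub_cancel_left]
  have h6 : ∑ _j ∈ Finset.Ico (k * t) ((k + 1) * t), ENNReal.ofReal c ≤
      ∑ j ∈ Finset.Ico (k * t) ((k + 1) * t), ∑' x : Site D, (Blk p z s u kk).indicator
        (fun x => hz w α j (y.1 - x.1) * srw D j (y.2 - x.2)) x := by
    refine Finset.sum_le_sum fun j hj => ?_
    rw [Finset.mem_Ico] at hj
    exact hterm j hj.1 hj.2
  refine le_trans (le_of_eq ?_) h6
  rw [Finset.sum_const, hcard, nsmul_eq_mul, ENNReal.ofReal_mul (Nat.cast_nonneg _),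
    ENNReal.ofReal_natCast]

end FDr.BX
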