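import Mathlib

/-!
# The parameters (job ParB; only Mathlib)

`t = 256 D⁴ d²` (so `√t = 16 D² d`), `k = max (1280 D²) ⌈4000/ε⌉₊`, `c = (1/2)^((D+1) k) (3/4) ((1/32)^k (7/8)) > 0` (a constant, depends on `ε, D` only),
`e = ⌊√(w t/30)⌋₊`, `S = ⌈8 √(w t/ε)⌉₊`.
(1) If `w t ≥ 480` then `√(w t/30) ≥ 4`, `e ≥ √(w t/30) - 1 ≥ √(w t/30)/2 ≥ 1`, `30 e² ≤ w t`; `ε S² ≥ 64 w t ≥ 48`; `e ≤ √(w t/30) ≤ 8 √(w t/ε) ≤ S`;
`S ≤ 8 √(w t/ε) + 1 ≤ 9 √(w t/ε)`, so `40 S ≤ S + k e`: `39 S ≤ 39 · 9 √(w t/ε) ≤ (4000/ε) √(w t/30)/2 ≤ k e` (`39 · 9 · 2 · √30 ≤ 3900`, `1/√ε ≤ 1/ε`).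
(2) `1 + 4 √D √((k+1) t) ≤ √t (1 + 4 √D √(k+1))` (`√t ≥ 1`), so `t c/(2 (1 + 4 √D √((k+1) t))) ≥ λ d`, `λ = 16 D² c/(2 (1 + 4 √D √(k+1))) > 0`;
`S ≤ 9 √(w t/ε) ≤ 9 · 16 D² d/ε` (`w ≤ 1`).  So the last expression is at most `(C d + 1) (C d + 1)^D exp (1 - λ d)` with a constant `C`, which tends to 0 as
`d → ∞` (`Real.tendsto_pow_mul_exp_neg_atTop_nhds_zero` or so), so it is `≤ 1/100000` for all `d ≥ d₀(ε, D)`, `d₀ ≥ 1`.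
(3) Given `w`: `d = max d₀ ⌈√(480/(256 D⁴ w))⌉₊`.  Then `w t ≥ 480`, and `w t ≤ 256 D⁴ d₀² + 2 · 480 + 2 · 256 D⁴ =: W₁` (`d² ≤ max (d₀²) ((√.. + 1)²)`,
`(x+1)² ≤ 2x² + 2`, `w ≤ 1`).  So `S ≤ 8 √(W₁/ε) + 1 =: S₁`, and `a = 1/(4 S₁)`: `4 α S ≤ 1`.
-/

set_option autoImplicit false

namespace FDr.BX

/-- first part: the inequalities between `e`, `S`, `k` -/
private theorem pb1 (ε : ℝ) (hε : 0 < ε) (hε1 : ε ≤ 1) (W : ℝ) (hW : 480 ≤ W) (k : ℕ)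
    (hk : 4000 / ε ≤ (k : ℝ)) :
    1 ≤ ⌊Real.sqrt (W / 30)⌋₊ ∧ ⌊Real.sqrt (W / 30)⌋₊ ≤ ⌈8 * Real.sqrt (W / ε)⌉₊ ∧
      40 * ⌈8 * Real.sqrt (W / ε)⌉₊ ≤ ⌈8 * Real.sqrt (W / ε)⌉₊ + k * ⌊Real.sqrt (W / 30)⌋₊ ∧
      64 * W ≤ ε * (⌈8 * Real.sqrt (W / ε)⌉₊ : ℝ) ^ 2 ∧
      30 * (⌊Real.sqrt (W / 30)⌋₊ : ℝ) ^ 2 ≤ W ∧
      (⌈8 * Real.sqrt (W / ε)⌉₊ : ℝ) ≤ 9 * Real.sqrt (W / ε) := by
  have hW0 : 0 ≤ W := by linarith only [hW]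
  set r : ℝ := Real.sqrt (W / 30) with hr
  set q : ℝ := Real.sqrt (W / ε) with hq
  have hr0 : 0 ≤ r := Real.sqrt_nonneg _
  have hq0 : 0 ≤ q := Real.sqrt_nonneg _
  have hr2 : r ^ 2 = W / 30 := Real.sq_sqrt (by positivity)
  have hq2 : q ^ 2 = W / ε := Real.sq_sqrt (by positivity)
  have hr4 : 4 ≤ r := by
    have h1 : (4 : ℝ) ^ 2 ≤ r ^ 2 := by rw [hr2]; linarith only [hW]
    exact le_of_sq_le_sq h1 hr0
  have hrq : r ≤ q := by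
    apply Real.sqrt_le_sqrt
    exact div_le_div_of_nonneg_left hW0 hε (by linarith only [hε1])
  have he1 : (⌊r⌋₊ : ℝ) ≤ r := Nat.floor_le hr0
  have he2 : r < (⌊r⌋₊ : ℝ) + 1 := Nat.lt_floor_add_one r
  have hS1 : 8 * q ≤ (⌈8 * q⌉₊ : ℝ) := Nat.le_ceil _
  have hS2 : (⌈8 * q⌉₊ : ℝ) < 8 * q + 1 := Nat.ceil_lt_add_one (by positivity)
  have he0 : (0 : ℝ) ≤ (⌊r⌋₊ : ℝ) := Nat.cast_nonneg _
  have hS9 : (⌈8 * q⌉₊ : ℝ) ≤ 9 * q := by linarith only [hS2, hrq, hr4]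
  refine ⟨?_, ?_, ?_, ?_, ?_, hS9⟩
  · apply Nat.floor_pos.mpr
    linarith only [hr4]
  · have h1 : (⌊r⌋₊ : ℝ) ≤ (⌈8 * q⌉₊ : ℝ) := by linarith only [he1, hS1, hrq, hq0]
    exact_mod_cast h1
  · have h1 : (351 * q) ≤ 2000 * r / ε := by
      apply le_of_sq_le_sq _ (by positivity)
      rw [mul_pow, hq2, div_pow, mul_pow, hr2]
      rw [mul_div_assoc', div_le_div_iff₀ hε (by positivity)]
      have h2 : 0 ≤ W * ε := by positivity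
      nlinarith only [mul_nonneg h2 (sub_nonneg.mpr hε1), h2, mul_nonneg h2 hε.le]
    have h2 : 2000 * r / ε ≤ (k : ℝ) * (⌊r⌋₊ : ℝ) := by
      have h3 : 2000 * r / ε = 4000 / ε * (r / 2) := by ring
      rw [h3]
      apply mul_le_mul hk _ (by positivity) (Nat.cast_nonneg _)
      linarith only [he2, hr4]
    have h4 : 40 * (⌈8 * q⌉₊ : ℝ) ≤ (⌈8 * q⌉₊ : ℝ) + (k : ℝ) * (⌊r⌋₊ : ℝ) := by
      linarith only [h1, h2, hS9]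
    exact_mod_cast h4
  · have h1 : (8 * q) ^ 2 ≤ (⌈8 * q⌉₊ : ℝ) ^ 2 := by
      apply pow_le_pow_left₀ (by positivity) hS1
    have h2 : ε * (8 * q) ^ 2 = 64 * W := by
      rw [mul_pow, hq2]
      field_simp
      norm_num
    rw [← h2]
    exact mul_le_mul_of_nonneg_left h1 hε.le
  · have h1 : (⌊r⌋₊ : ℝ) ^ 2 ≤ r ^ 2 := pow_le_pow_left₀ he0 he1 2
    rw [hr2] at h1
    linarith only [h1]

/-- the tail: decay of a polynomial times an exponential -/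
private theorem pb2 (n : ℕ) (C l : ℝ) (hC : 0 < C) (hl : 0 < l) : ∃ s₀ : ℝ, ∀ s : ℝ, s₀ ≤ s →
    0 ≤ s → C * s ^ n * Real.exp (1 - l * s) ≤ 1 / 100000 := by
  have h := Real.tendsto_pow_mul_exp_neg_atTop_nhds_zero n
  have h1 : ∀ᶠ x : ℝ in Filter.atTop, x ^ n * Real.exp (-x) <
      l ^ n / (100000 * C * Real.exp 1) := by
    apply h.eventually_lt_const
    positivity
  obtain ⟨x₀, hx₀⟩ := Filter.eventually_atTop.mp h1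
  refine ⟨x₀ / l, fun s hs hs0 => ?_⟩
  have h2 : x₀ ≤ l * s := by
    rw [div_le_iff₀ hl] at hs
    linarith only [hs, mul_comm s l]
  have h3 := (hx₀ (l * s) h2).le
  have h4 : Real.exp (1 - l * s) = Real.exp 1 * Real.exp (-(l * s)) := by
    rw [← Real.exp_add]
    congr 1
  rw [mul_pow] at h3
  rw [le_div_iff₀ (by positivity)] at h3
  have h5 : 0 < l ^ n := by positivity
  rw [h4, le_div_iff₀ (by norm_num)]
  have h6 : (C * s ^ n * (Real.exp 1 * Real.exp (-(l * s))) * 100000) * l ^ n ≤ 1 * l ^ n := by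
    calc (C * s ^ n * (Real.exp 1 * Real.exp (-(l * s))) * 100000) * l ^ n
        = l ^ n * s ^ n * Real.exp (-(l * s)) * (100000 * C * Real.exp 1) := by ring
      _ ≤ l ^ n := h3
      _ = 1 * l ^ n := by ring
  exact le_of_mul_le_mul_right h6 h5

/-- the estimate of the last expression by `C s ^ (D + 1) exp (1 - l s)`, `s = 16 D² d` -/
private theorem pb3 (ε : ℝ) (hε : 0 < ε) (hε1 : ε ≤ 1) (D : ℕ) (hD : 1 ≤ D) (k d S : ℕ)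
    (hd : 1 ≤ d) (c w : ℝ) (hc : 0 < c) (_hw : 0 < w) (hw1 : w < 1)
    (hS : (S : ℝ) ≤ 9 * Real.sqrt (w * ((256 * D ^ 4 * d ^ 2 : ℕ) : ℝ) / ε)) :
    (6 * ((8 * S : ℕ) : ℝ) + 1) * (6 * ((8 * (32 * D ^ 2 * d) : ℕ) : ℝ) + 1) ^ D *
        Real.exp (1 - ((256 * D ^ 4 * d ^ 2 : ℕ) : ℝ) * c /
          (2 * (1 + 4 * Real.sqrt D * Real.sqrt (((k + 1) * (256 * D ^ 4 * d ^ 2) : ℕ) : ℝ)))) ≤
      (433 / ε * 97 ^ D) * (16 * (D : ℝ) ^ 2 * d) ^ (D + 1) *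
        Real.exp (1 - c / (2 * (1 + 4 * Real.sqrt D * Real.sqrt ((k + 1 : ℕ) : ℝ))) *
          (16 * (D : ℝ) ^ 2 * d)) := by
  have hD' : (1 : ℝ) ≤ D := by exact_mod_cast hD
  have hd' : (1 : ℝ) ≤ d := by exact_mod_cast hd
  set s : ℝ := 16 * (D : ℝ) ^ 2 * d with hs
  have hD2 : (1 : ℝ) ≤ (D : ℝ) ^ 2 := one_le_pow₀ hD'
  have hs1 : 1 ≤ s := by
    have h1 : (1 : ℝ) ≤ (D : ℝ) ^ 2 * d := one_le_mul_of_one_le_of_one_le hD2 hd'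
    rw [hs]
    linarith only [h1]
  have hT : ((256 * D ^ 4 * d ^ 2 : ℕ) : ℝ) = s ^ 2 := by
    rw [hs]; push_cast; ring
  have hs0 : 0 < s := by linarith only [hs1]
  rw [hT] at hS ⊢
  have hkT : (((k + 1) * (256 * D ^ 4 * d ^ 2) : ℕ) : ℝ) = ((k + 1 : ℕ) : ℝ) * s ^ 2 := by
    rw [Nat.cast_mul, hT]
  rw [hkT, Real.sqrt_mul (Nat.cast_nonneg _), Real.sqrt_sq hs0.le]
  set K : ℝ := Real.sqrt ((k + 1 : ℕ) : ℝ) with hK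
  have hK0 : 0 ≤ K := Real.sqrt_nonneg _
  have hSD : 0 ≤ Real.sqrt D := Real.sqrt_nonneg _
  -- the first factor
  have hq : Real.sqrt (w * s ^ 2 / ε) ≤ s / ε := by
    apply Real.sqrt_le_iff.mpr ⟨by positivity, ?_⟩
    rw [div_pow, div_le_div_iff₀ hε (by positivity)]
    have h1 : 0 ≤ s ^ 2 * ε := by positivity
    nlinarith only [mul_nonneg h1 (sub_nonneg.mpr hε1), mul_nonneg (mul_nonneg h1 hε.le)
      (sub_nonneg.mpr hw1.le)]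
  have h1e : 1 ≤ s / ε := by
    rw [le_div_iff₀ hε]
    linarith only [hs1, hε1]
  have hA : 6 * ((8 * S : ℕ) : ℝ) + 1 ≤ 433 / ε * s := by
    have h2 : 433 / ε * s = 433 * (s / ε) := by ring
    rw [h2]
    push_cast
    linarith only [hS, hq, h1e]
  have hB : 6 * ((8 * (32 * D ^ 2 * d) : ℕ) : ℝ) + 1 ≤ 97 * s := by
    have h2 : ((8 * (32 * D ^ 2 * d) : ℕ) : ℝ) = 16 * s := by
      rw [hs]; push_cast; ring
    rw [h2]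
    linarith only [hs1]
  have hE : 1 - s ^ 2 * c / (2 * (1 + 4 * Real.sqrt D * (K * s))) ≤
      1 - c / (2 * (1 + 4 * Real.sqrt D * K)) * s := by
    apply sub_le_sub_left
    rw [div_mul_eq_mul_div, div_le_div_iff₀ (by positivity) (by positivity)]
    have h3 : 0 ≤ c * s * (s - 1) := by
      apply mul_nonneg (by positivity)
      linarith only [hs1]
    nlinarith only [h3]
  have hA0 : 0 ≤ 6 * ((8 * S : ℕ) : ℝ) + 1 := by positivity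
  have hB0 : 0 ≤ 6 * ((8 * (32 * D ^ 2 * d) : ℕ) : ℝ) + 1 := by positivity
  calc (6 * ((8 * S : ℕ) : ℝ) + 1) * (6 * ((8 * (32 * D ^ 2 * d) : ℕ) : ℝ) + 1) ^ D *
        Real.exp (1 - s ^ 2 * c / (2 * (1 + 4 * Real.sqrt D * (K * s))))
      ≤ (433 / ε * s) * (97 * s) ^ D *
        Real.exp (1 - c / (2 * (1 + 4 * Real.sqrt D * K)) * s) := by
        apply mul_le_mul _ (Real.exp_le_exp.mpr hE) (Real.exp_pos _).le (by positivity)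
        exact mul_le_mul hA (pow_le_pow_left₀ hB0 hB D) (by positivity) (by positivity)
    _ = (433 / ε * 97 ^ D) * s ^ (D + 1) *
        Real.exp (1 - c / (2 * (1 + 4 * Real.sqrt D * K)) * s) := by
        rw [mul_pow]; ring

theorem par_box (ε : ℝ) (hε : 0 < ε) (hε1 : ε ≤ 1) (D : ℕ) (hD : 1 ≤ D) : ∃ a : ℝ, 0 < a ∧ ∀ w α : ℝ, 0 < w → w < 1 →
    0 < α → α < a → ∃ d e S k t : ℕ, t = 256 * D ^ 4 * d ^ 2 ∧ 1 ≤ d ∧ 1 ≤ e ∧ e ≤ S ∧ 1280 * D ^ 2 ≤ k ∧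
      40 * S ≤ S + k * e ∧ 48 ≤ ε * (S : ℝ) ^ 2 ∧ 4 * α * S ≤ 1 ∧ 64 * w * t ≤ ε * (S : ℝ) ^ 2 ∧ 30 * (e : ℝ) ^ 2 ≤ w * t ∧
      (6 * ((8 * S : ℕ) : ℝ) + 1) * (6 * ((8 * (32 * D ^ 2 * d) : ℕ) : ℝ) + 1) ^ D *
        Real.exp (1 - (t : ℝ) * ((1 / 2) ^ ((D + 1) * k) * (3 / 4) * ((1 / 32) ^ k * (7 / 8))) /
          (2 * (1 + 4 * Real.sqrt D * Real.sqrt (((k + 1) * t : ℕ) : ℝ)))) ≤ 1 / 100000 := by
  have hD' : (1 : ℝ) ≤ D := by exact_mod_cast hD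
  have hD0 : (0 : ℝ) < D := by linarith only [hD']
  set k : ℕ := max (1280 * D ^ 2) ⌈4000 / ε⌉₊ with hkdef
  have hk1 : 1280 * D ^ 2 ≤ k := le_max_left _ _
  have hk2 : 4000 / ε ≤ (k : ℝ) := by
    have h1 : 4000 / ε ≤ ((⌈4000 / ε⌉₊ : ℕ) : ℝ) := Nat.le_ceil _
    have h2 : ((⌈4000 / ε⌉₊ : ℕ) : ℝ) ≤ (k : ℝ) := by exact_mod_cast le_max_right _ _
    exact h1.trans h2
  set c : ℝ := (1 / 2) ^ ((D + 1) * k) * (3 / 4) * ((1 / 32) ^ k * (7 / 8)) with hc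
  have hc0 : 0 < c := by positivity
  set l : ℝ := c / (2 * (1 + 4 * Real.sqrt D * Real.sqrt ((k + 1 : ℕ) : ℝ))) with hl
  have hl0 : 0 < l := by positivity
  obtain ⟨s₀, hs₀⟩ := pb2 (D + 1) (433 / ε * 97 ^ D) l (by positivity) hl0
  set d₀ : ℕ := max 1 ⌈s₀⌉₊ with hd₀
  set W₁ : ℝ := 256 * (D : ℝ) ^ 4 * (d₀ : ℝ) ^ 2 + 960 + 512 * (D : ℝ) ^ 4 with hW₁
  have hW₁0 : 0 < W₁ := by positivity
  set S₁ : ℝ := 8 * Real.sqrt (W₁ / ε) + 1 with hS₁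
  have hS₁0 : 0 < S₁ := by positivity
  refine ⟨1 / (4 * S₁), by positivity, fun w α hw hw1 hα hα1 => ?_⟩
  set x : ℝ := Real.sqrt (480 / (256 * (D : ℝ) ^ 4 * w)) with hx
  have hx0 : 0 ≤ x := Real.sqrt_nonneg _
  have hx2 : x ^ 2 = 480 / (256 * (D : ℝ) ^ 4 * w) := Real.sq_sqrt (by positivity)
  set d : ℕ := max d₀ ⌈x⌉₊ with hd
  have hd1 : 1 ≤ d := le_trans (le_max_left _ _) (le_max_left _ _)
  have hdx : x ≤ (d : ℝ) := by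
    have h1 : x ≤ ((⌈x⌉₊ : ℕ) : ℝ) := Nat.le_ceil _
    have h2 : ((⌈x⌉₊ : ℕ) : ℝ) ≤ (d : ℝ) := by exact_mod_cast le_max_right _ _
    exact h1.trans h2
  have hds : s₀ ≤ (d : ℝ) := by
    have h1 : s₀ ≤ ((⌈s₀⌉₊ : ℕ) : ℝ) := Nat.le_ceil _
    have h2 : ((⌈s₀⌉₊ : ℕ) : ℝ) ≤ (d : ℝ) := by
      exact_mod_cast le_trans (le_max_right _ _) (le_max_left _ _)
    exact h1.trans h2
  have hT : ((256 * D ^ 4 * d ^ 2 : ℕ) : ℝ) = 256 * (D : ℝ) ^ 4 * (d : ℝ) ^ 2 := by push_cast; ring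
  set T : ℝ := ((256 * D ^ 4 * d ^ 2 : ℕ) : ℝ) with hTdef
  have hP : 256 * (D : ℝ) ^ 4 * w * x ^ 2 = 480 := by
    rw [hx2]
    field_simp
  have hW : 480 ≤ w * T := by
    have h1 : x ^ 2 ≤ (d : ℝ) ^ 2 := pow_le_pow_left₀ hx0 hdx 2
    have h2 : 256 * (D : ℝ) ^ 4 * w * x ^ 2 ≤ 256 * (D : ℝ) ^ 4 * w * (d : ℝ) ^ 2 :=
      mul_le_mul_of_nonneg_left h1 (by positivity)
    rw [hT]
    linarith only [h2, hP]
  have hWle : w * T ≤ W₁ := by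
    have h1 : (d : ℝ) ^ 2 ≤ (d₀ : ℝ) ^ 2 + (2 * x ^ 2 + 2) := by
      rcases le_total ⌈x⌉₊ d₀ with h | h
      · have h2 : d = d₀ := max_eq_left h
        rw [h2]
        have h3 : 0 ≤ x ^ 2 := by positivity
        linarith only [h3]
      · have h2 : d = ⌈x⌉₊ := max_eq_right h
        rw [h2]
        have h3 : ((⌈x⌉₊ : ℕ) : ℝ) < x + 1 := Nat.ceil_lt_add_one hx0
        have h4 : ((⌈x⌉₊ : ℕ) : ℝ) ^ 2 ≤ (x + 1) ^ 2 := pow_le_pow_left₀ (Nat.cast_nonneg _) h3.le 2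
        have h5 : 0 ≤ (d₀ : ℝ) ^ 2 := by positivity
        nlinarith only [h4, h5, sq_nonneg (x - 1)]
    have h2 : w * T ≤ 256 * (D : ℝ) ^ 4 * w * ((d₀ : ℝ) ^ 2 + (2 * x ^ 2 + 2)) := by
      rw [hT]
      calc w * (256 * (D : ℝ) ^ 4 * (d : ℝ) ^ 2) = 256 * (D : ℝ) ^ 4 * w * (d : ℝ) ^ 2 := by ring
        _ ≤ _ := mul_le_mul_of_nonneg_left h1 (by positivity)
    have h3 : 256 * (D : ℝ) ^ 4 * w * ((d₀ : ℝ) ^ 2 + (2 * x ^ 2 + 2)) =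
        w * (256 * (D : ℝ) ^ 4 * (d₀ : ℝ) ^ 2) + 2 * (256 * (D : ℝ) ^ 4 * w * x ^ 2) +
          w * (512 * (D : ℝ) ^ 4) := by ring
    rw [h3, hP] at h2
    have h4 : w * (256 * (D : ℝ) ^ 4 * (d₀ : ℝ) ^ 2) ≤ 256 * (D : ℝ) ^ 4 * (d₀ : ℝ) ^ 2 :=
      mul_le_of_le_one_left (by positivity) hw1.le
    have h5 : w * (512 * (D : ℝ) ^ 4) ≤ 512 * (D : ℝ) ^ 4 :=
      mul_le_of_le_one_left (by positivity) hw1.le
    rw [hW₁]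
    linarith only [h2, h4, h5]
  obtain ⟨q1, q2, q3, q4, q5, q6⟩ := pb1 ε hε hε1 (w * T) hW k hk2
  set S : ℕ := ⌈8 * Real.sqrt (w * T / ε)⌉₊ with hSdef
  refine ⟨d, ⌊Real.sqrt (w * T / 30)⌋₊, S, k, 256 * D ^ 4 * d ^ 2, rfl, hd1, q1, q2, hk1, q3,
    ?_, ?_, ?_, q5, ?_⟩
  · linarith only [q4, hW]
  · have h1 : (S : ℝ) ≤ S₁ := by
      have h2 : (S : ℝ) < 8 * Real.sqrt (w * T / ε) + 1 := Nat.ceil_lt_add_one (by positivity)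
      have h3 : Real.sqrt (w * T / ε) ≤ Real.sqrt (W₁ / ε) := by
        apply Real.sqrt_le_sqrt
        exact div_le_div_of_nonneg_right hWle hε.le
      rw [hS₁]
      linarith only [h2, h3]
    have h4 : 4 * α * S ≤ 4 * (1 / (4 * S₁)) * S₁ := by
      apply mul_le_mul _ h1 (Nat.cast_nonneg _) (by positivity)
      linarith only [hα1]
    have h5 : 4 * (1 / (4 * S₁)) * S₁ = 1 := by
      field_simp
    linarith only [h4, h5]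
  · linarith only [q4]
  · have h1 := pb3 ε hε hε1 D hD k d S hd1 c w hc0 hw hw1 q6
    refine le_trans h1 ?_
    apply hs₀
    · have h2 : (d : ℝ) ≤ 16 * (D : ℝ) ^ 2 * d := by
        have h3 : (1 : ℝ) ≤ (D : ℝ) ^ 2 := one_le_pow₀ hD'
        have h4 : (0 : ℝ) ≤ d := Nat.cast_nonneg _
        nlinarith only [h3, h4]
      exact hds.trans h2
    · positivity

end FDr.BX
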