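import Pool.Agent.Lib.MP_e029a2_pr.BX.Def
import Pool.Agent.Lib.MP_e029a2_pr.CO.Prod

/-!
# The first frog can visit a whole block (job Start)

(1) `∀ x : Site D, ∃ W : List (Cell D), (W.map cvec).sum = x`: if `x.2 = v ≠ 0` a list of `∑ |v i|` cells with empty runs and the directions of a path from `0` to
`v`, for `v = 0` the two directions `(0, true), (0, false)` (`D ≥ 1`), and the run of the first cell replaced by `|x.1|` equal steps (`cvec (r, d) = (dsp r, dv d)`).
(e.g. by induction: the set of sums of lists is a submonoid which contains `(±1, 0)` [two cells `([b], (0, true))`, `([], (0, false))`] and `(0, dv d)`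
[one cell], so everything.)
(2) For every finite set `F` of sites there is a list `W` such that every `x ∈ F` is the sum of the first `i` vectors of `W` for some `i ≤ W.length` (induction on `F`:
append a list with the sum `x - sum W`).
(3) The blocks `Blk p 0 s 0 0` are finite, so is their union over the `s`; take `W` for it.  The event `∀ t < W.length, c (0, j + t) = W t` implies `St p s j c`;
its probability is `∏ cellLaw {W t} > 0` (`CO.prod_dep` or induction; `CO.cell_prob`), which does not depend on `j, s`; `cellLaw w α D {a} > 0`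
(`runW_pos`, `dirLaw` of a point `= (2D)⁻¹`, `CO.dir_prob`; product measure of singletons).
`st_dep`: the sums depend on the cells `(0, i)` with `i ≥ j`.  `st_meas`: countable intersection of countable unions of events which depend on finitely many
cells (`Dep.measurableSet`).
-/

set_option autoImplicit false

namespace FDr.BX

open MeasureTheory ProbabilityTheory
open scoped ENNReal

theorem st_dep {D : ℕ} (p : Par) (s : Fin D → Bool) (j : ℕ) :
    Dep {q : Site D × ℕ | q.1 = 0 ∧ j ≤ q.2} fun c : Conf D => St p s j c := by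
  intro c c' h
  have e : ∀ t, c ((0 : Site D), j + t) = c' ((0 : Site D), j + t) := fun t => h _ ⟨rfl, Nat.le_add_right j t⟩
  show St p s j c = St p s j c'
  unfold St
  simp only [e]

theorem st_meas {D : ℕ} [NeZero D] (p : Par) (s : Fin D → Bool) (j : ℕ) : MeasurableSet {c : Conf D | St p s j c} := by
  have h1 : {c : Conf D | St p s j c} = ⋂ x ∈ Blk p (0 : Site D) s 0 0, ⋃ i : ℕ,
      {c : Conf D | ∑ t ∈ Finset.range i, cvec (c ((0 : Site D), j + t)) = x} := by
    ext c
    simp only [Set.mem_iInter, Set.mem_iUnion]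
    exact Iff.rfl
  rw [h1]
  refine MeasurableSet.biInter (Set.to_countable _) fun x _ => MeasurableSet.iUnion fun i => ?_
  refine Dep.measurableSet (S := (fun t => ((0 : Site D), j + t)) '' Set.Iio i) ((Set.finite_Iio i).image _) ?_
  intro c c' h
  show (∑ t ∈ Finset.range i, cvec (c ((0 : Site D), j + t)) = x) = (∑ t ∈ Finset.range i, cvec (c' ((0 : Site D), j + t)) = x)
  have h2 : ∑ t ∈ Finset.range i, cvec (c ((0 : Site D), j + t)) = ∑ t ∈ Finset.range i, cvec (c' ((0 : Site D), j + t)) :=
    Finset.sum_congr rfl fun t ht => by rw [h _ ⟨t, Finset.mem_range.1 ht, rfl⟩]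
  rw [h2]

/-- the sums of the vectors of cells -/
private def Start_S (D : ℕ) [NeZero D] : AddSubmonoid (Site D) where
  carrier := {x | ∃ (n : ℕ) (W : ℕ → Cell D), ∑ t ∈ Finset.range n, cvec (W t) = x}
  zero_mem' := ⟨0, fun _ => ([], (0, true)), Finset.sum_range_zero _⟩
  add_mem' := by
    rintro x y ⟨n, W, h1⟩ ⟨m, V, h2⟩
    refine ⟨n + m, fun t => if t < n then W t else V (t - n), ?_⟩
    rw [Finset.sum_range_add]
    congr 1
    · rw [← h1]
      refine Finset.sum_congr rfl fun t ht => ?_
      show cvec (if t < n then W t else V (t - n)) = cvec (W t)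
      rw [if_pos (Finset.mem_range.1 ht)]
    · rw [← h2]
      refine Finset.sum_congr rfl fun t _ => ?_
      show cvec (if n + t < n then W (n + t) else V (n + t - n)) = cvec (V t)
      rw [if_neg (by omega), Nat.add_sub_cancel_left]

private theorem Start_one {D : ℕ} [NeZero D] (a : Cell D) : cvec a ∈ Start_S D :=
  ⟨1, fun _ => a, by rw [Finset.sum_range_one]⟩

private theorem Start_hom {D : ℕ} [NeZero D] (g : ℤ →+ Site D) (h1 : g 1 ∈ Start_S D) (h2 : g (-1) ∈ Start_S D) (a : ℤ) :
    g a ∈ Start_S D := by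
  induction a using Int.induction_on with
  | zero =>
    rw [map_zero]
    exact (Start_S D).zero_mem
  | succ i ih =>
    rw [map_add]
    exact (Start_S D).add_mem ih h1
  | pred i ih =>
    rw [sub_eq_add_neg, map_add]
    exact (Start_S D).add_mem ih h2

private theorem Start_top {D : ℕ} [NeZero D] (x : Site D) : x ∈ Start_S D := by
  classical
  have hv : ∀ (i : Fin D) (b : Bool), ((0 : ℤ), (Pi.single i (sg b) : Fin D → ℤ)) ∈ Start_S D := by
    intro i b
    have h := Start_one (([], (i, b)) : Cell D)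
    exact h
  have hh : ∀ b : Bool, ((sg b : ℤ), (0 : Fin D → ℤ)) ∈ Start_S D := by
    intro b
    have h := (Start_S D).add_mem (Start_one (([b], (0, true)) : Cell D)) (Start_one (([], (0, false)) : Cell D))
    have e : cvec (([b], (0, true)) : Cell D) + cvec (([], (0, false)) : Cell D) = ((sg b : ℤ), (0 : Fin D → ℤ)) := by
      refine Prod.ext ?_ ?_
      · show dsp [b] + dsp [] = sg b
        unfold dsp
        simp
      · show (Pi.single 0 (sg true) : Fin D → ℤ) + Pi.single 0 (sg false) = 0
        rw [← Pi.single_add]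
        show Pi.single 0 (0 : ℤ) = (0 : Fin D → ℤ)
        exact Pi.single_zero _
    rw [e] at h
    exact h
  have h1 : (x.1, (0 : Fin D → ℤ)) ∈ Start_S D :=
    Start_hom (AddMonoidHom.inl ℤ (Fin D → ℤ)) (hh true) (hh false) x.1
  have h2 : ∀ i : Fin D, ((0 : ℤ), (Pi.single i (x.2 i) : Fin D → ℤ)) ∈ Start_S D := fun i =>
    Start_hom ((AddMonoidHom.inr ℤ (Fin D → ℤ)).comp (AddMonoidHom.single (fun _ : Fin D => ℤ) i)) (hv i true) (hv i false) (x.2 i)
  have h3 : x = (x.1, (0 : Fin D → ℤ)) + ∑ i : Fin D, ((0 : ℤ), (Pi.single i (x.2 i) : Fin D → ℤ)) := by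
    refine Prod.ext ?_ ?_
    · rw [Prod.fst_add, Prod.fst_sum]
      simp
    · rw [Prod.snd_add, Prod.snd_sum]
      simp only [zero_add]
      exact (Finset.univ_sum_single x.2).symm
  rw [h3]
  exact (Start_S D).add_mem h1 ((Start_S D).sum_mem fun i _ => h2 i)

/-- a path through all the points of a finite set -/
private theorem Start_path {D : ℕ} [NeZero D] (F : Finset (Site D)) : ∃ (n : ℕ) (W : ℕ → Cell D),
    ∀ x ∈ F, ∃ i, i ≤ n ∧ ∑ t ∈ Finset.range i, cvec (W t) = x := by
  classical
  induction F using Finset.induction_on with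
  | empty => exact ⟨0, fun _ => ([], (0, true)), fun x hx => absurd hx (Finset.notMem_empty x)⟩
  | insert a F _ ih =>
    obtain ⟨n, W, hW⟩ := ih
    obtain ⟨m, V, hV⟩ := Start_top (a - ∑ t ∈ Finset.range n, cvec (W t))
    have h1 : ∀ i, i ≤ n → ∑ t ∈ Finset.range i, cvec (if t < n then W t else V (t - n)) =
        ∑ t ∈ Finset.range i, cvec (W t) := fun i hi => Finset.sum_congr rfl fun t ht => by
      rw [if_pos ((Finset.mem_range.1 ht).trans_le hi)]
    refine ⟨n + m, fun t => if t < n then W t else V (t - n), fun x hx => ?_⟩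
    rcases Finset.mem_insert.1 hx with rfl | hx
    · refine ⟨n + m, le_rfl, ?_⟩
      rw [Finset.sum_range_add, h1 n le_rfl]
      have h2 : ∑ t ∈ Finset.range m, cvec (if n + t < n then W (n + t) else V (n + t - n)) =
          ∑ t ∈ Finset.range m, cvec (V t) := Finset.sum_congr rfl fun t _ => by
        rw [if_neg (by omega), Nat.add_sub_cancel_left]
      rw [h2, hV, add_sub_cancel]
    · obtain ⟨i, hi, h2⟩ := hW x hx
      exact ⟨i, by omega, by rw [h1 i hi, h2]⟩

private theorem Start_blk {D : ℕ} (p : Par) : ∃ F : Finset (Site D), ∀ s : Fin D → Bool, Blk p (0 : Site D) s 0 0 ⊆ F := by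
  classical
  refine ⟨(Set.toFinite (Set.Icc ((-(p.M : ℤ), fun _ => -(p.N : ℤ)) : Site D) ((p.M : ℤ), fun _ => (p.N : ℤ)))).toFinset,
    fun s x hx => ?_⟩
  rw [Set.Finite.coe_toFinset]
  obtain ⟨⟨h1, h2⟩, h3⟩ := hx
  have e1 : (0 : Site D).1 = 0 := rfl
  have e2 : (0 : Site D).2 = 0 := rfl
  rw [e1] at h1 h2
  push_cast at h1 h2
  have hM : (0 : ℤ) ≤ p.M := Int.natCast_nonneg _
  have hN : (0 : ℤ) ≤ p.N := Int.natCast_nonneg _
  have hb : ∀ i, -(p.N : ℤ) ≤ x.2 i ∧ x.2 i ≤ (p.N : ℤ) := by
    intro i
    obtain ⟨h4, h5⟩ := h3 i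
    rw [e2] at h4 h5
    simp only [Pi.zero_apply, Nat.cast_zero, mul_zero, sub_zero, zero_add, mul_one] at h4 h5
    cases hs : s i
    · rw [hs] at h4 h5
      have h6 : sg false = -1 := rfl
      rw [h6] at h4 h5
      constructor <;> linarith
    · rw [hs] at h4 h5
      have h6 : sg true = 1 := rfl
      rw [h6] at h4 h5
      constructor <;> linarith
  exact ⟨⟨by show -(p.M : ℤ) ≤ x.1; linarith, fun i => (hb i).1⟩, ⟨by show x.1 ≤ (p.M : ℤ); linarith, fun i => (hb i).2⟩⟩

private theorem Start_cell {D : ℕ} [NeZero D] (w α : Set.Ioo (0 : ℝ) 1) (a : Cell D) : cellLaw w α D {b | b = a} ≠ 0 := by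
  have h1 : {b : Cell D | b = a} = ({a.1} : Set Run) ×ˢ ({a.2} : Set (Dir D)) := by
    ext b
    simp only [Set.mem_ofPred_eq, Set.mem_prod, Set.mem_singleton_iff]
    exact Prod.ext_iff
  unfold cellLaw
  rw [h1, Measure.prod_prod, CO.dir_prob]
  refine mul_ne_zero ?_ ?_
  · unfold runLaw
    rw [Measure.sum_apply _ (Set.to_countable _).measurableSet]
    intro h
    have h2 := ENNReal.tsum_eq_zero.1 h a.1
    rw [Measure.smul_apply, Measure.dirac_apply' _ (Set.to_countable _).measurableSet,
      Set.indicator_of_mem (Set.mem_singleton a.1), smul_eq_mul, Pi.one_apply, mul_one, ENNReal.ofReal_eq_zero] at h2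
    have h3 := runW_pos w.2 α.2 a.1
    linarith
  · exact ENNReal.inv_ne_zero.2 (ENNReal.mul_ne_top (by norm_num) (ENNReal.natCast_ne_top D))

theorem st_prob (w α : Set.Ioo (0 : ℝ) 1) (D : ℕ) [NeZero D] (p : Par) :
    ∃ cs : ℝ≥0∞, 0 < cs ∧ cs ≤ 1 ∧ ∀ (s : Fin D → Bool) (j : ℕ), cs ≤ Q w α D {c | St p s j c} := by
  classical
  obtain ⟨F, hF⟩ := Start_blk (D := D) p
  obtain ⟨n, W, hW⟩ := Start_path F
  have hq : ∀ j : ℕ, Q w α D {c | ∀ t ∈ Finset.range n, c ((0 : Site D), j + t) = W t} =
      ∏ t ∈ Finset.range n, cellLaw w α D {b | b = W t} := by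
    intro j
    have h1 := CO.prod_dep (cellLaw w α D) (Finset.range n) (fun t => ({((0 : Site D), j + t)} : Set (Site D × ℕ)))
      (fun t _ => Set.finite_singleton _)
      (fun t _ t' _ htt => by
        rw [Set.disjoint_singleton]
        intro h
        have h2 := congrArg Prod.snd h
        simp only at h2
        omega)
      (fun t c => c ((0 : Site D), j + t) = W t)
      (fun t _ => by
        intro c c' h
        show (c ((0 : Site D), j + t) = W t) = (c' ((0 : Site D), j + t) = W t)
        rw [h _ (Set.mem_singleton _)])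
    unfold Q
    rw [h1]
    refine Finset.prod_congr rfl fun t _ => ?_
    exact CO.cell_prob w α ((0 : Site D), j + t) fun a => a = W t
  refine ⟨∏ t ∈ Finset.range n, cellLaw w α D {b | b = W t}, ?_, ?_, ?_⟩
  · exact pos_iff_ne_zero.2 (Finset.prod_ne_zero_iff.2 fun t _ => Start_cell w α (W t))
  · rw [← hq 0]
    exact prob_le_one
  · intro s j
    rw [← hq j]
    refine measure_mono fun c hc x hx => ?_
    obtain ⟨i, hi, h1⟩ := hW x (hF s hx)
    refine ⟨i, ?_⟩
    rw [← h1]
    exact Finset.sum_congr rfl fun t ht => by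
      rw [hc t (Finset.mem_range.2 ((Finset.mem_range.1 ht).trans_le hi))]

end FDr.BX
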