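import Pool.Agent.Lib.MP_e029a2_pr.BX.Geo
import Pool.Agent.Lib.MP_e029a2_pr.BX.Hit
import Pool.Agent.Lib.MP_e029a2_pr.BX.Start
import Pool.Agent.Lib.MP_e029a2_pr.BX.Mass3
import Pool.Agent.Lib.MP_e029a2_pr.BX.Fin

/-!
# Boxes: the finite-volume criterion implies recurrence
-/

set_option autoImplicit false

namespace FDr.BX

open MeasureTheory ProbabilityTheory
open scoped ENNReal

variable {D : ℕ}

/-! ### Good blocks -/

theorem good_dep (p : Par) (z : Site D) (s : Fin D → Bool) (u : Fin D → ℕ) (k : ℕ) :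
    Dep (cel p z s u k) fun c : Conf D => Good p z s u k c := by
  intro c c' hc
  refine propext (forall₂_congr fun y _ => exists_congr fun x => ?_)
  by_cases hx : x ∈ Blk p z s u k ∧ x ≠ rf p z s u k
  · have h1 : Ht c x y = Ht c' x y := ht_dep x y c c' fun q hq => hc q (by
      show q.1 ∈ Blk p z s u k ∧ q.1 ≠ rf p z s u k
      rw [show q.1 = x from hq]
      exact hx)
    rw [h1]
  · constructor
    · rintro ⟨h1, h2, _⟩
      exact absurd ⟨h1, h2⟩ hx
    · rintro ⟨h1, h2, _⟩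
      exact absurd ⟨h1, h2⟩ hx

theorem good_meas [NeZero D] (p : Par) (z : Site D) (s : Fin D → Bool) (u : Fin D → ℕ) (k : ℕ) :
    MeasurableSet {c : Conf D | Good p z s u k c} := by
  have h1 : {c : Conf D | Good p z s u k c} =
      ⋂ y ∈ Nr p z s u k, ⋃ x ∈ {x | x ∈ Blk p z s u k ∧ x ≠ rf p z s u k}, {c : Conf D | Ht c x y} := by
    ext c
    simp only [Set.mem_iInter, Set.mem_iUnion]
    constructor
    · intro h y hy
      obtain ⟨x, h1, h2, h3⟩ := h y hy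
      exact ⟨x, ⟨h1, h2⟩, h3⟩
    · intro h y hy
      obtain ⟨x, ⟨h1, h2⟩, h3⟩ := h y hy
      exact ⟨x, h1, h2, h3⟩
  rw [h1]
  exact MeasurableSet.biInter (Set.to_countable _) fun y _ =>
    MeasurableSet.biUnion (Set.to_countable _) fun x _ => ht_meas x y

theorem cel_disj (p : Par) (z : Site D) (s : Fin D → Bool) {u u' : Fin D → ℕ} {k k' : ℕ} (h : ¬ (u = u' ∧ k = k')) :
    Disjoint (cel p z s u k) (cel p z s u' k') := by
  rw [Set.disjoint_left]
  rintro q ⟨h1, _⟩ ⟨h2, _⟩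
  exact h (blk_eq p h1 h2)

theorem cel_far (p : Par) (z : Site D) (s : Fin D → Bool) (σ : ℕ → Fin D) {x y : ℕ × ℕ} (h : CO.Far x y) :
    Disjoint (cel p z s (us σ x.1) x.2) (cel p z s (us σ y.1) y.2) := by
  refine cel_disj p z s ?_
  rintro ⟨h1, h2⟩
  have h3 : x.1 = y.1 := by
    have h4 := us_sum σ x.1
    have h5 := us_sum σ y.1
    rw [h1] at h4
    omega
  unfold CO.Far at h
  omega

/-- the growth cells of the orthant -/
def T0 (p : Par) (z : Site D) (s : Fin D → Bool) : Set (Site D × ℕ) := {q | ∃ u k, q ∈ cel p z s u k}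

/-! ### Returns -/

/-- the block `(u, k)` is connected with the block `(0, 0)` -/
def CA [NeZero D] (p : Par) (z : Site D) (s : Fin D → Bool) (k : ℕ) (u : Fin D → ℕ) (c : Conf D) : Prop :=
  CO.Conn (GB p z s (sgm u) c) (0, 0) (∑ i, u i, k)

/-- a return from the row `k` -/
def RE [NeZero D] (p : Par) (z : Site D) (s : Fin D → Bool) (k : ℕ) (c : Conf D) : Prop :=
  ∃ u : Fin D → ℕ, CA p z s k u c ∧ CO.Vs c (rf p z s u k)

theorem CA_meas [NeZero D] (p : Par) (z : Site D) (s : Fin D → Bool) (k : ℕ) (u : Fin D → ℕ) :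
    MeasurableSet {c : Conf D | CA p z s k u c} :=
  CO.conn_meas _ (fun x => good_meas p z s _ x.2) _ _

theorem CA_dep [NeZero D] (p : Par) (z : Site D) (s : Fin D → Bool) (k : ℕ) (u : Fin D → ℕ) :
    Dep (T0 p z s) fun c : Conf D => CA p z s k u c := by
  refine CO.conn_dep (fun c => GB p z s (sgm u) c) (fun x => ?_) _ _
  exact (good_dep p z s (us (sgm u) x.1) x.2).mono fun q hq => ⟨_, _, hq⟩

theorem CA_prob (w α : Set.Ioo (0 : ℝ) 1) [NeZero D] (p : Par) (h : FV w α D p) (z : Site D) (s : Fin D → Bool)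
    (k : ℕ) (u : Fin D → ℕ) : 1 / 2 ≤ Q w α D {c | CA p z s k u c} :=
  CO.perc (cellLaw w α D) (fun x => cel p z s (us (sgm u) x.1) x.2)
    (fun c => GB p z s (sgm u) c) (fun x => good_meas p z s _ x.2) (fun x => good_dep p z s _ x.2)
    (fun _ _ hxy => cel_far p z s _ hxy) (fun x => h.good z s _ x.2) (0, 0) (∑ i, u i, k)

theorem RE_meas [NeZero D] (p : Par) (z : Site D) (s : Fin D → Bool) (k : ℕ) :
    MeasurableSet {c : Conf D | RE p z s k c} := by
  have h1 : {c : Conf D | RE p z s k c} =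
      ⋃ u : Fin D → ℕ, {c : Conf D | CA p z s k u c} ∩ {c | CO.Vs c (rf p z s u k)} := by
    ext c
    rw [Set.mem_iUnion]
    rfl
  rw [h1]
  exact MeasurableSet.iUnion fun u => (CA_meas p z s k u).inter (CO.vs_meas _)

theorem RE_dep [NeZero D] (p : Par) (z : Site D) (s : Fin D → Bool) (k : ℕ) :
    Dep {q : Site D × ℕ | q.1.2 ∈ CO.Or z.2 s} fun c : Conf D => RE p z s k c := by
  intro c c' hc
  have h1 : ∀ u, CA p z s k u c = CA p z s k u c' := fun u =>
    CA_dep p z s k u c c' fun q hq => hc q (by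
      obtain ⟨u', k', h2, _⟩ := hq
      exact blk_or p h2)
  have h2 : ∀ u, CO.Vs c (rf p z s u k) = CO.Vs c' (rf p z s u k) := fun u =>
    CO.vs_dep (rf p z s u k) c c' fun q hq => hc q (by
      show q.1.2 ∈ CO.Or z.2 s
      rw [show q.1 = rf p z s u k from hq]
      exact blk_or p (rf_mem p z s u k))
  show (∃ u, CA p z s k u c ∧ CO.Vs c (rf p z s u k)) = ∃ u, CA p z s k u c' ∧ CO.Vs c' (rf p z s u k)
  simp only [h1, h2]

/-- **The core**: returns from every row far enough, with a probability bounded below. -/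
theorem core (w α : Set.Ioo (0 : ℝ) 1) (D : ℕ) [NeZero D] (p : Par) (h : FV w α D p) : ∃ c1 : ℝ, 0 < c1 ∧
    ∀ (z : Site D) (s : Fin D → Bool), ∃ k0 : ℕ, ∀ k, k0 ≤ k → ENNReal.ofReal c1 ≤ Q w α D {c | RE p z s k c} := by
  classical
  obtain ⟨cm, hcm, hmass⟩ := mass_sparse w α D p.N p.N1
  obtain ⟨g, hg⟩ : ∃ g, g = Gam w α D 0 0 := ⟨_, rfl⟩
  have hgt : g ≠ ⊤ := hg ▸ CO.Gam_ne_top w α 0 0
  have hg1 : 1 ≤ g := hg ▸ CO.one_le_Gam w α D
  have hgr : 1 ≤ g.toReal := by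
    have := (ENNReal.toReal_le_toReal ENNReal.one_ne_top hgt).2 hg1
    simpa using this
  obtain ⟨s1, hs1⟩ : ∃ s1 : ℝ, s1 = cm / (2 * g.toReal) := ⟨_, rfl⟩
  have hs1p : 0 < s1 := by
    rw [hs1]
    positivity
  obtain ⟨s2, hs2⟩ : ∃ s2 : ℝ, s2 = s1 / 2 := ⟨_, rfl⟩
  have hs2p : 0 < s2 := by
    rw [hs2]
    positivity
  refine ⟨s2 / (16 * (1 + s2)), by positivity, fun z s => ?_⟩
  obtain ⟨m0, hm0⟩ := hmass z.2 s
  have hM : (1 : ℤ) ≤ p.M := by exact_mod_cast p.M1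
  refine ⟨m0 + z.1.natAbs, fun k hk => ?_⟩
  have hkm : (m0 : ℤ) ≤ ((k : ℤ) + 1) * p.M - z.1 := by
    have h1 := le_abs_self z.1
    have h2 : ((m0 + z.1.natAbs : ℕ) : ℤ) ≤ k := by exact_mod_cast hk
    push_cast at h2
    have h3 : ((k : ℤ) + 1) * 1 ≤ ((k : ℤ) + 1) * p.M := mul_le_mul_of_nonneg_left hM (by positivity)
    linarith
  obtain ⟨m, hm⟩ : ∃ m : ℕ, (m : ℤ) = ((k : ℤ) + 1) * p.M - z.1 :=
    ⟨(((k : ℤ) + 1) * p.M - z.1).toNat, Int.toNat_of_nonneg (le_trans (Int.natCast_nonneg _) hkm)⟩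
  have hm1 : m0 ≤ m := by
    rw [← hm] at hkm
    exact_mod_cast hkm
  -- the sum of the probabilities of the returns
  have e1 : ENNReal.ofReal s1 = ENNReal.ofReal cm / (2 * g) := by
    rw [hs1, ENNReal.ofReal_div_of_pos (by positivity), ENNReal.ofReal_mul (by norm_num), ENNReal.ofReal_toReal hgt,
      ENNReal.ofReal_ofNat]
  have hgg : ∀ u : Fin D → ℕ, Gam w α D m (-(CO.pt z.2 s fun i => p.N * u i)) / (2 * g) ≤
      Q w α D {c | CO.Vs c (rf p z s u k)} := by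
    intro u
    have h1 := CO.vs_prob w α D (rf p z s u k)
    rw [← hg] at h1
    have h2 : -(rf p z s u k).1 = m := by
      rw [hm]
      show -(z.1 - ((k : ℤ) + 1) * p.M) = ((k : ℤ) + 1) * p.M - z.1
      ring
    rw [h2] at h1
    exact h1
  have hsum : ENNReal.ofReal s1 ≤ ∑' u : Fin D → ℕ, Q w α D {c | CO.Vs c (rf p z s u k)} := by
    calc ENNReal.ofReal s1 = ENNReal.ofReal cm / (2 * g) := e1
      _ ≤ (∑' u : Fin D → ℕ, Gam w α D m (-(CO.pt z.2 s fun i => p.N * u i))) / (2 * g) :=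
        ENNReal.div_le_div_right (hm0 m hm1) _
      _ = ∑' u : Fin D → ℕ, Gam w α D m (-(CO.pt z.2 s fun i => p.N * u i)) / (2 * g) := by
        rw [ENNReal.div_eq_inv_mul, ← ENNReal.tsum_mul_left]
        exact tsum_congr fun u => by rw [ENNReal.div_eq_inv_mul]
      _ ≤ _ := ENNReal.tsum_le_tsum hgg
  have hlt : ENNReal.ofReal s2 < ∑' u : Fin D → ℕ, Q w α D {c | CO.Vs c (rf p z s u k)} := by
    refine lt_of_lt_of_le ?_ hsum
    rw [ENNReal.ofReal_lt_ofReal_iff hs1p, hs2]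
    linarith
  rw [ENNReal.tsum_eq_iSup_sum, lt_iSup_iff] at hlt
  obtain ⟨U, hU⟩ := hlt
  have hbc := CO.bc (cellLaw w α D) U (T0 p z s) (fun u => {q : Site D × ℕ | q.1 = rf p z s u k})
    (fun u c => CA p z s k u c) (fun u c => CO.Vs c (rf p z s u k))
    (fun u _ => CA_meas p z s k u) (fun u _ => CA_dep p z s k u)
    (fun u _ => CO.vs_meas _) (fun u _ => CO.vs_dep _) ?_ ?_ ?_ hs2p hU.le
  · refine hbc.trans (measure_mono ?_)
    rintro c ⟨u, _, h1, h2⟩
    exact ⟨u, h1, h2⟩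
  · intro u _
    rw [Set.disjoint_left]
    rintro q ⟨u', k', h1, h2⟩ h3
    have h4 : q.1 = rf p z s u k := h3
    rw [h4] at h1 h2
    obtain ⟨rfl, rfl⟩ := blk_eq p (rf_mem p z s u k) h1
    exact h2 rfl
  · intro u _ u' _ huu
    rw [Set.disjoint_left]
    intro q h1 h2
    exact huu (rf_inj p ((h1 : q.1 = _).symm.trans h2)).1
  · intro u _
    refine le_trans ?_ (CA_prob w α p h z s k u)
    rw [show (1 : ℝ≥0∞) / 2 = ENNReal.ofReal (1 / 2) by
      rw [ENNReal.ofReal_div_of_pos (by norm_num), ENNReal.ofReal_one, ENNReal.ofReal_ofNat]]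
    exact ENNReal.ofReal_le_ofReal (by norm_num)

/-! ### Recurrence -/

theorem visC_inf (p : Par) (c : Conf D) (z : Site D) (s : Fin D → Bool)
    (h : ∀ k : ℕ, ∃ n, k ≤ n ∧ ∃ u : Fin D → ℕ, ActC c (rf p z s u n) ∧ CO.Vs c (rf p z s u n)) : (visC c).Infinite := by
  intro hfin
  have hM : (1 : ℤ) ≤ p.M := by exact_mod_cast p.M1
  have h1 : ((fun q : Site D × ℕ × ℕ => q.1.1) '' visC c).Finite := hfin.image _
  have h2 : {n : ℕ | ∃ u : Fin D → ℕ, ActC c (rf p z s u n) ∧ CO.Vs c (rf p z s u n)}.Finite := by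
    refine Set.Finite.of_finite_image (f := fun n : ℕ => z.1 - ((n : ℤ) + 1) * p.M) (h1.subset ?_) ?_
    · rintro _ ⟨n, ⟨u, h3, i, h4⟩, rfl⟩
      refine ⟨(rf p z s u n, i, 0), ⟨h3, Nat.zero_le _, ?_⟩, rfl⟩
      show ent c (rf p z s u n) i + (dsp ((c (rf p z s u n, i)).1.take 0), 0) = 0
      rw [h4, List.take_zero]
      rfl
    · intro a _ b _ hab
      have h3 : z.1 - ((a : ℤ) + 1) * p.M = z.1 - ((b : ℤ) + 1) * p.M := hab
      have h4 : ((a : ℤ) + 1) * p.M = ((b : ℤ) + 1) * p.M := by linarith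
      have h5 := mul_right_cancel₀ (by linarith : (p.M : ℤ) ≠ 0) h4
      have h6 : (a : ℤ) = b := by linarith
      exact_mod_cast h6
  obtain ⟨B, hB⟩ := h2.bddAbove
  obtain ⟨n, h3, h4⟩ := h (B + 1)
  have h5 := hB h4
  omega

theorem io_inf (p : Par) [NeZero D] (c : Conf D) (j : ℕ) (z : Site D) (s : Fin D → Bool) (hz : ent c 0 j = z)
    (hr : St p s j c) (h : ∀ k : ℕ, ∃ n, k ≤ n ∧ RE p z s n c) : (visC c).Infinite := by
  refine visC_inf p c z s fun k => ?_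
  obtain ⟨n, hn, u, h1, h2⟩ := h k
  refine ⟨n, hn, u, ?_, h2⟩
  have h6 := ab_conn p h1 (by
    show AB p z s (us (sgm u) 0) 0 c
    rw [us_zero]
    exact ab_start p hz hr)
  have h7 : AB p z s u n c := by
    have h8 : AB p z s (us (sgm u) (∑ i, u i)) n c := h6
    rwa [sgm_spec] at h8
  exact h7 _ (rf_mem p z s u n)

theorem fvc (w α : Set.Ioo (0 : ℝ) 1) (D : ℕ) [NeZero D] (p : Par) (h : FV w α D p) :
    Q w α D {c | (visC c).Infinite}ᶜ = 0 := by
  obtain ⟨c1, hc1, hcore⟩ := core w α D p h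
  obtain ⟨cs, hcs0, _, hcs⟩ := st_prob w α D p
  exact CB.inf_of w α D (fun s j c => St p s j c) (fun z n c => RE p z (CO.sgn z.2) n c) (fun s j => st_dep p s j)
    (fun s j => st_meas p s j) hcs0 hcs (fun z n => RE_meas p z _ n) (fun z n => RE_dep p z _ n)
    (ENNReal.ofReal_pos.2 hc1) (fun z => hcore z _) (fun c j z hz hs hi => io_inf p c j z _ hz hs hi)

/-- the finite-volume criterion, for the frog model -/
theorem fvc_recurrent {Ω : Type*} [MeasurableSpace Ω] (w α : Set.Ioo (0 : ℝ) 1) (D : ℕ) [NeZero D] (p : Par)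
    (h : FV w α D p) (P : Measure Ω) (ξ : Site D → ℕ → Ω → Stp D) (hF : IsFrog D w α P ξ) : Recurrent P ξ :=
  transfer_inf w α D P ξ hF (by
    have h1 := fvc w α D p h
    exact h1)

end FDr.BX
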