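import Pool.Agent.Lib.MP_e029a2_pr.BX.ParB
import Pool.Agent.Lib.MP_e029a2_pr.BX.GTz
import Pool.Agent.Lib.MP_e029a2_pr.BX.MassB
import Pool.Agent.Lib.MP_e029a2_pr.BX.GoodB

/-!
# The finite-volume criterion with boxes holds for a small drift and `w ≤ 1 - ε`
-/

set_option autoImplicit false

namespace FDr.BX

open MeasureTheory ProbabilityTheory
open scoped ENNReal

theorem exists_fv (ε : ℝ) (hε : 0 < ε) (hε1 : ε ≤ 1) (D : ℕ) [NeZero D] : ∃ a : ℝ, 0 < a ∧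
    ∀ w α : Set.Ioo (0 : ℝ) 1, (α : ℝ) < a → (w : ℝ) ≤ 1 - ε → ∃ p : Par, FV w α D p := by
  have hD : 1 ≤ D := Nat.one_le_iff_ne_zero.2 (NeZero.ne D)
  obtain ⟨a, ha, h⟩ := par_box ε hε hε1 D hD
  refine ⟨a, ha, fun w α hα hw => ?_⟩
  obtain ⟨d, e, S, k, t, ht, hd, he, heS, hk, hk2, hS, hαS, h1, h2, hfin⟩ := h w α w.2.1 w.2.2 α.2.1 hα
  have hS1 : 1 ≤ S := he.trans heS
  have hN : 1 ≤ 8 * (32 * D ^ 2 * d) := Nat.succ_le_of_lt (by positivity)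
  have ht1 : 0 < t := by
    rw [ht]
    positivity
  have hT : 1 ≤ (k + 1) * t := Nat.succ_le_of_lt (by positivity)
  obtain ⟨p, hp⟩ : ∃ p : Par, p = ⟨8 * (32 * D ^ 2 * d), 8 * S, hN, by omega⟩ := ⟨_, rfl⟩
  have hpN : p.N = 8 * (32 * D ^ 2 * d) := by rw [hp]
  have hpM : p.M = 8 * S := by rw [hp]
  refine ⟨p, ⟨fun z s u kk => ?_⟩⟩
  have hg := good_of_mass w α D p ((k + 1) * t) hT
    (m := (t : ℝ) * ((1 / 2) ^ ((D + 1) * k) * (3 / 4) * ((1 / 32) ^ k * (7 / 8))))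
    (G := 1 + 4 * Real.sqrt D * Real.sqrt (((k + 1) * t : ℕ) : ℝ)) (by positivity) (by positivity)
    (gt_zero_le w α D hD ((k + 1) * t)) z s u kk
    (fun y hy => mass_blk w α D hε hε1 hw p d e S k t hd he heS hk hk2 ht hS hαS h1 h2 hpN hpM z s u kk y hy)
  refine hg.trans (ENNReal.ofReal_le_ofReal ?_)
  rw [hpN, hpM]
  exact hfin

end FDr.BX
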